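import Pool.Agent.Mg.F650c5e.Gdf105d

/-! Existence of good vectors. -/

namespace Pool.Agent.MP_650c5e_an

open Finset

lemma pattern_ends {N L : ℕ} {A : ℕ → ℕ → ℕ}
    (hAs : ∀ l < L, ∀ r, A l r = A (l + 1) (r * (pat N l * N ^ 2))) :
    ∀ l ≤ L, A l 0 = A 0 0 ∧ A l (pat N l) = A 0 1 := by
  have hpat : ∀ l, pat N l * (pat N l * N ^ 2) = pat N (l + 1) := fun l => by
    show _ = (pat N l * N) ^ 2
    ring
  intro l
  induction l with
  | zero => intro _; exact ⟨rfl, rfl⟩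
  | succ l ih =>
    intro hl
    have h1 := hAs l hl 0
    have h2 := hAs l hl (pat N l)
    rw [zero_mul] at h1
    rw [hpat] at h2
    exact ⟨h1 ▸ (ih (by omega)).1, h2 ▸ (ih (by omega)).2⟩

lemma mul_log_sub_ge {μ ρ : ℝ} (hμ : 0 ≤ μ) (hρ : 0 < ρ) :
    μ - ρ ≤ μ * (Real.log μ - Real.log ρ) := by
  rcases hμ.eq_or_lt with h | h
  · rw [← h]; simpa using hρ.le
  · have h1 := Real.log_le_sub_one_of_pos (div_pos hρ h)
    rw [Real.log_div hρ.ne' h.ne'] at h1
    have h2 : μ * (ρ / μ - 1) = ρ - μ := by field_simp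
    nlinarith

lemma log_GP {a b : ℕ} {t : ℕ → ℕ → ℝ} {i : ℕ} (h : ∀ κ ∈ Ico a b, 0 < t κ i) :
    Real.log (GP a b t i) = ∑ κ ∈ Ico a b, gam κ * Real.log (t κ i) := by
  unfold GP
  rw [Real.log_prod fun κ hκ => (Real.rpow_pos_of_pos (h κ hκ) _).ne']
  exact sum_congr rfl fun κ hκ => Real.log_rpow (h κ hκ) _

lemma GP_pos {a b : ℕ} {t : ℕ → ℕ → ℝ} {i : ℕ} (h : ∀ κ ∈ Ico a b, 0 < t κ i) :
    0 < GP a b t i := prod_pos fun κ hκ => Real.rpow_pos_of_pos (h κ hκ) _

lemma good_vector {k K : ℕ} (hK : k + 1 ≤ K) {Z : ℕ → ℝ} (hZ : ∀ i, 0 ≤ Z i) (A : ℕ → ℕ → ℕ)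
    (hA : ∀ l, Monotone (A l))
    (hAs : ∀ l < dw k ^ 2, ∀ r, A l r = A (l + 1) (r * (pat (dw k) l * dw k ^ 2)))
    (hAK : A 0 1 ≤ K)
    (hpos : ∀ l ≤ dw k ^ 2, ∀ r < pat (dw k) l, 0 < NK K (res (Ico (A l r) (A l (r + 1))) Z))
    (hle : ∀ l ≤ dw k ^ 2, ∀ r < pat (dw k) l,
      NK K (res (Ico (A l r) (A l (r + 1))) Z) ^ 2 * pat (dw k) l ≤
        (1 + 1 / (k + 1)) * NK K (res (Ico (A 0 0) (A 0 1)) Z) ^ 2) :
    ∃ l ≤ dw k ^ 2, ∃ r < pat (dw k) l, ∃ (G : Finset ℕ) (s' : ℕ → ℝ) (t' : ℕ → ℕ → ℝ),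
      G ⊆ Ico (A l r) (A l (r + 1)) ∧ s' ∈ SB (nk k) ∧ Adm t' ∧ (∀ κ ≤ k, t' κ ∈ BB 1) ∧
      (∀ i ∈ G, Z i ^ 2 ≤
        64 * NK K (res (Ico (A l r) (A l (r + 1))) Z) ^ 2 * (s' i * GP 0 K t' i)) ∧
      NK K (fun i => if i ∈ G then 0 else res (Ico (A l r) (A l (r + 1))) Z i) ^ 4 ≤
        10000 / (k + 1) * NK K (res (Ico (A l r) (A l (r + 1))) Z) ^ 4 := by
  set ε : ℝ := 1 / (k + 1) with hε
  have hε0 : 0 < ε := by positivity
  have hε1 : ε ≤ 1 := by
    rw [hε, div_le_one (by positivity)]; linarith [Nat.cast_nonneg (α := ℝ) k]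
  set I := Ico (A 0 0) (A 0 1) with hI
  set Nn := NK K (res I Z) with hNn
  have hNn0 : 0 < Nn := hpos 0 (Nat.zero_le _) 0 Nat.one_pos
  have hends := pattern_ends hAs
  have hIK : I ⊆ range K := fun i hi => mem_range.2 (lt_of_lt_of_le (mem_Ico.1 hi).2 hAK)
  have hnode : ∀ l ≤ dw k ^ 2, ∀ r < pat (dw k) l, Ico (A l r) (A l (r + 1)) ⊆ I := by
    intro l hl r hr
    rw [hI, ← (hends l hl).1, ← (hends l hl).2]
    exact Ico_subset_Ico (hA l (Nat.zero_le r)) (hA l hr)
  obtain ⟨f, hf0, hf1, hf2⟩ := exists_norming K (U := res I Z) (res_nonneg hZ)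
  set y : ℕ → ℝ := fun i => f i * Z i / Nn with hydef
  have hy : ∀ i, 0 ≤ y i := fun i => div_nonneg (mul_nonneg (hf0 i) (hZ i)) hNn0.le
  have hyZ : ∀ i, 0 < y i → 0 < Z i := fun i h =>
    lt_of_le_of_ne (hZ i) fun e => by simp [hydef, ← e] at h
  have hy1 : ∑ i ∈ I, y i = 1 := by
    simp only [hydef]
    rw [← sum_div, ← sum_mul_res hIK, hf2, div_self hNn0.ne']
  have hyD : ∀ D ⊆ I, ∑ i ∈ D, y i ≤ NK K (res D Z) / Nn := by
    intro D hD
    simp only [hydef]
    rw [← sum_div, ← sum_mul_res (hD.trans hIK)]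
    refine div_le_div_of_nonneg_right (le_trans (le_of_eq ?_) (hf1 _)) hNn0.le
    exact sum_congr rfl fun i _ => by rw [abs_of_nonneg (res_nonneg hZ i)]
  choose w1 hw1 using fun D => exists_opt hy D le_rfl
  choose wm hwm using fun D => exists_opt hy D (nk_pos k)
  obtain ⟨l, hl, hlev⟩ := good_level hy k A hA hAs hy1.le (fun l hl c hc => by
    have h1 := hyD _ (hnode (l + 1) hl c hc)
    have h2 := hle (l + 1) hl c hc
    have h3 : (pat (dw k) (l + 1) : ℝ) = (pat (dw k) l * dw k) ^ 2 := by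
      show (((pat (dw k) l * dw k) ^ 2 : ℕ) : ℝ) = _
      push_cast; ring
    rw [h3] at h2
    have h4 : NK K (res (Ico (A (l + 1) c) (A (l + 1) (c + 1))) Z) * (pat (dw k) l * dw k) ≤
        2 * Nn := by
      refine (abs_le_of_sq_le_sq' ?_ (by positivity)).2
      rw [mul_pow]; nlinarith [sq_nonneg Nn]
    calc _ ≤ NK K (res (Ico (A (l + 1) c) (A (l + 1) (c + 1))) Z) / Nn * (pat (dw k) l * dw k) :=
          mul_le_mul_of_nonneg_right h1 (by positivity)
      _ ≤ 2 := by rw [div_mul_eq_mul_div, div_le_iff₀ hNn0]; exact h4) w1 wm hw1 hwm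
  set M := pat (dw k) l with hM
  have hM1 : 1 ≤ M := pat_pos (dw_pos k) l
  have hMR : (1 : ℝ) ≤ M := by exact_mod_cast hM1
  set ν : ℕ → Finset ℕ := fun r => Ico (A l r) (A l (r + 1)) with hν
  set lam : ℕ → ℝ := fun r => (1 + ε) * NK K (res (ν r) Z) with hlam
  have hlam0 : ∀ r < M, 0 < lam r := fun r hr => mul_pos (by linarith) (hpos l hl.le r hr)
  have hfac : ∀ r, ∃ (s : ℕ → ℝ) (t : ℕ → ℕ → ℝ), r < M → (s ∈ SB 1 ∧ Adm t ∧
      ∀ i < K, ((lam r)⁻¹ * res (ν r) Z i) ^ 2 ≤ s i * GP 0 K t i) := by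
    intro r
    by_cases hr : r < M
    · obtain ⟨s, hs, t, ht, H⟩ := mem_of_NK_lt (K := K) (x := res (ν r) Z) (l := lam r)
        (by have := hpos l hl.le r hr; simp only [hlam]; nlinarith)
      exact ⟨s, t, fun _ => ⟨hs, ht, H⟩⟩
    · exact ⟨0, 0, fun h => absurd h hr⟩
  choose s t H using hfac
  have hνI : ∀ r < M, ν r ⊆ I := hnode l hl.le
  have hνK : ∀ r < M, ∀ i ∈ ν r, i < K := fun r hr i hi => mem_range.1 (hIK (hνI r hr hi))
  have hst : ∀ r < M, ∀ i ∈ ν r, 0 < y i → 0 < s r i * GP 0 K (t r) i := by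
    intro r hr i hi h0
    refine lt_of_lt_of_le ?_ ((H r hr).2.2 i (hνK r hr i hi))
    rw [res_of_mem hi]
    have := hlam0 r hr
    have := hyZ i h0
    positivity
  have hsp : ∀ r < M, ∀ i ∈ ν r, 0 < y i → 0 < s r i := fun r hr i hi h0 =>
    lt_of_le_of_ne ((H r hr).1.1 i) fun e => by simpa [← e] using hst r hr i hi h0
  have htp : ∀ r < M, ∀ κ < K, ∀ i ∈ ν r, 0 < y i → 0 < t r κ i := fun r hr κ hκ i hi h0 =>
    lt_of_le_of_ne ((H r hr).2.1.nonneg κ i) fun e => by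
      have h1 : GP 0 K (t r) i = 0 := prod_eq_zero (mem_Ico.2 ⟨Nat.zero_le κ, hκ⟩)
        (by rw [← e, Real.zero_rpow (gam_pos κ).ne'])
      simpa [h1] using hst r hr i hi h0
  set sc : ℕ → ℝ := fun i => (1 : ℝ)⁻¹ * res I (fun i => y i / w1 I i) i with hsc
  have hsc1 : sc ∈ SB 1 := (hw1 I).dual hy one_pos hy1.le
  set tc : ℕ → ℕ → ℝ := fun κ => if κ ≤ k then w1 I else
    fun i => ∑ r ∈ range M, 1 / (M : ℝ) * res (ν r) (t r κ) i with htc
  have htc1 : Adm tc := fun κ => by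
    by_cases hκ : κ ≤ k
    · simp only [htc, hκ, if_true]; exact BB_mono (nk_pos κ) (hw1 I).1
    · simp only [htc, hκ, if_false]
      refine polar.comb (range M) (fun _ => 1 / (M : ℝ)) (fun r => res (ν r) (t r κ))
        (fun _ _ => by positivity)
        (by rw [sum_const, card_range, nsmul_eq_mul, mul_one_div_cancel (by positivity)])
        fun r hr => ?_
      have := (H r (mem_range.1 hr)).2.1 κ
      exact BB.solid this (res_nonneg this.1) (res_le this.1)
  set xc : ℕ → ℝ := fun i => √(sc i * GP 0 K tc i) with hxc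
  have hxc1 : NK K xc ≤ 1 := NK_le one_pos ⟨sc, hsc1, tc, htc1, fun i _ => by
    simp only [hxc, inv_one, one_mul]
    rw [Real.sq_sqrt (mul_nonneg (hsc1.1 i) (GP_nonneg htc1.nonneg _ _ _))]⟩
  have hcomp : ∀ r < M, ∀ i ∈ ν r, 0 < y i → sc i * GP 0 K tc i =
      y i / w1 I i * (w1 I i ^ (1 - Gam (k + 1)) *
        (GP (k + 1) K (t r) i * (1 / (M : ℝ)) ^ (Gam (k + 1) - Gam K))) := by
    intro r hr i hi h0
    have b := (hw1 I).2.1 i (hνI r hr hi) h0
    have e1 : GP (k + 1) K tc i = GP (k + 1) K (fun κ j => t r κ j * (1 / (M : ℝ))) i :=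
      GP_congr fun κ hκ _ => by
        simp only [htc, show ¬ κ ≤ k by omega, if_false]
        rw [← mul_sum, glue (hA l) hr hi (fun r => t r κ), mul_comm]
    have e2 := GP_mul (a := k + 1) (b := K) (t := t r) (t' := fun _ _ => 1 / (M : ℝ)) (i := i)
      (i' := i) (fun κ => (H r hr).2.1.nonneg κ i) (fun _ => by positivity)
    rw [GP_const hK (t := fun _ _ => 1 / (M : ℝ)) (c := 1 / (M : ℝ)) (by positivity)
      (fun _ _ _ => rfl)] at e2
    rw [GP_split (Nat.zero_le _) hK, e1, e2, GP_const (Nat.zero_le (k + 1)) b.le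
      (fun κ _ hκ => by simp only [htc, show κ ≤ k by omega, if_true]), Gam_zero]
    simp only [hsc, inv_one, one_mul, res_of_mem (hνI r hr hi)]
  have hcpos : ∀ r < M, ∀ i ∈ ν r, 0 < y i → 0 < sc i * GP 0 K tc i := by
    intro r hr i hi h0
    have b := (hw1 I).2.1 i (hνI r hr hi) h0
    have := GP_pos (a := k + 1) (b := K) (t := t r) (i := i)
      fun κ hκ => htp r hr κ (mem_Ico.1 hκ).2 i hi h0
    rw [hcomp r hr i hi h0]
    positivity
  have hsplit : ∀ g : ℕ → ℝ, ∑ r ∈ range M, ∑ i ∈ ν r, g i = ∑ i ∈ I, g i := fun g => by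
    simp only [hν]
    rw [sum_blocks' (hA l), (hends l hl.le).1, (hends l hl.le).2]
  have hcompet : ∑ r ∈ range M, LL y (ν r) (fun i => xc i * Nn / Z i) ≤ 0 := by
    calc _ ≤ ∑ r ∈ range M, (∑ i ∈ ν r, f i * xc i - ∑ i ∈ ν r, y i) := by
          refine sum_le_sum fun r hr => ?_
          refine (LL_le_sub hy fun i hi h0 => div_pos (mul_pos (Real.sqrt_pos.2
            (hcpos r (mem_range.1 hr) i hi h0)) hNn0) (hyZ i h0)).trans ?_
          refine sub_le_sub_right (sum_le_sum fun i _ => ?_) _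
          rcases (hy i).eq_or_lt with h0 | h0
          · rw [← h0, zero_mul]; exact mul_nonneg (hf0 i) (Real.sqrt_nonneg _)
          · have := hyZ i h0
            show f i * Z i / Nn * (xc i * Nn / Z i) ≤ f i * xc i
            apply le_of_eq; field_simp
      _ = ∑ i ∈ I, f i * xc i - 1 := by rw [sum_sub_distrib, hsplit, hsplit, hy1]
      _ ≤ 0 := by
          have h1 : ∑ i ∈ I, f i * xc i ≤ ∑ i ∈ range K, f i * |xc i| :=
            le_trans (le_of_eq (sum_congr rfl fun i _ => by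
              rw [abs_of_nonneg (Real.sqrt_nonneg _)])) (sum_le_sum_of_subset_of_nonneg hIK
                fun i _ _ => mul_nonneg (hf0 i) (abs_nonneg _))
          linarith [hf1 xc]
  set Df : ℕ → ℝ := fun r =>
    LL y (ν r) (fun i => (∑ i ∈ ν r, y i) * s r i * w1 (ν r) i / y i) +
      ∑ κ ∈ Ico 0 (k + 1), gam κ * LL y (ν r) (fun i => t r κ i / wm (ν r) i) +
      LL y (ν r) (fun i => w1 (ν r) i / wm (ν r) i) with hDf
  have hgs : ∑ κ ∈ Ico 0 (k + 1), gam κ = 1 - Gam (k + 1) := by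
    rw [sum_gam (Nat.zero_le _), Gam_zero]
  have hlogM : 0 ≤ Real.log M := Real.log_nonneg hMR
  have hD : ∀ r ∈ range M, -2 * LL y (ν r) (fun i => xc i * Nn / Z i) +
      (∑ i ∈ ν r, y i - lam r ^ 2 / Nn ^ 2) - Gam (k + 1) * Real.log M * ∑ i ∈ ν r, y i +
      2 * LL y (ν r) (w1 (ν r)) - 2 * LL y (ν r) (wm (ν r)) ≤ Df r := by
    intro r hr'
    have hr := mem_range.1 hr'
    set μ := ∑ i ∈ ν r, y i with hμ
    have hl0 := hlam0 r hr
    have q1 := mul_log_sub_ge (μ := μ) (ρ := lam r ^ 2 / Nn ^ 2) (sum_nonneg fun i _ => hy i)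
      (by positivity)
    have q2 : LL y (ν r) (w1 I) ≤ LL y (ν r) (wm (ν r)) :=
      (hwm (ν r)).LL_le hy (BB_mono (nk_pos k) (hw1 I).1)
        fun i hi h0 => (hw1 I).2.1 i (hνI r hr hi) h0
    have q3 : ∑ i ∈ ν r, y i * (-2 * Real.log (xc i * Nn / Z i) +
        (Real.log μ - Real.log (lam r ^ 2 / Nn ^ 2)) - Gam (k + 1) * Real.log M -
        Gam (k + 1) * Real.log (w1 I i) + 2 * Real.log (w1 (ν r) i) -
        (2 - Gam (k + 1)) * Real.log (wm (ν r) i)) ≤
        ∑ i ∈ ν r, y i * (Real.log (μ * s r i * w1 (ν r) i / y i) +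
          ∑ κ ∈ Ico 0 (k + 1), gam κ * Real.log (t r κ i / wm (ν r) i) +
          Real.log (w1 (ν r) i / wm (ν r) i)) := by
      refine sum_le_sum_pos hy fun i hi h0 => ?_
      have b0 : 0 < μ := lt_of_lt_of_le h0 (single_le_sum (fun i _ => hy i) hi)
      have b1 := (hw1 (ν r)).2.1 i hi h0
      have bm := (hwm (ν r)).2.1 i hi h0
      have bI := (hw1 I).2.1 i (hνI r hr hi) h0
      have bs := hsp r hr i hi h0
      have bZ := hyZ i h0
      have bh : ∀ κ ∈ Ico 0 (k + 1), 0 < t r κ i := fun κ hκ =>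
        htp r hr κ (by have := (mem_Ico.1 hκ).2; omega) i hi h0
      have bH := GP_pos bh
      have bT := GP_pos (a := k + 1) (b := K) (t := t r) (i := i)
        fun κ hκ => htp r hr κ (mem_Ico.1 hκ).2 i hi h0
      have bc := hcpos r hr i hi h0
      have e1 : 2 * Real.log (xc i * Nn / Z i) = Real.log (y i) - Real.log (w1 I i) +
          ((1 - Gam (k + 1)) * Real.log (w1 I i) + (Real.log (GP (k + 1) K (t r) i) -
          (Gam (k + 1) - Gam K) * Real.log M)) + 2 * Real.log Nn - 2 * Real.log (Z i) := by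
        have bx : 0 < xc i := Real.sqrt_pos.2 bc
        rw [Real.log_div (by positivity) bZ.ne', Real.log_mul bx.ne' hNn0.ne']
        simp only [hxc]
        rw [Real.log_sqrt bc.le, hcomp r hr i hi h0, Real.log_mul (by positivity) (by positivity),
          Real.log_mul (by positivity) (by positivity),
          Real.log_mul (by positivity) (by positivity), Real.log_div h0.ne' bI.ne',
          Real.log_rpow bI, Real.log_rpow (by positivity), one_div, Real.log_inv]
        ring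
      have e2 : ∑ κ ∈ Ico 0 (k + 1), gam κ * Real.log (t r κ i / wm (ν r) i) =
          Real.log (GP 0 (k + 1) (t r) i) - (1 - Gam (k + 1)) * Real.log (wm (ν r) i) := by
        rw [log_GP bh, ← hgs, sum_mul, ← sum_sub_distrib]
        exact sum_congr rfl fun κ hκ => by rw [Real.log_div (bh κ hκ).ne' bm.ne']; ring
      have e3 : 2 * Real.log (Z i) - 2 * Real.log (lam r) ≤ Real.log (s r i) +
          (Real.log (GP 0 (k + 1) (t r) i) + Real.log (GP (k + 1) K (t r) i)) := by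
        have := (H r hr).2.2 i (hνK r hr i hi)
        rw [res_of_mem hi, GP_split (Nat.zero_le _) hK] at this
        have h2 := Real.log_le_log (by positivity) this
        rw [Real.log_pow, Real.log_mul (by positivity) bZ.ne', Real.log_inv,
          Real.log_mul bs.ne' (by positivity), Real.log_mul bH.ne' bT.ne'] at h2
        push_cast at h2
        linarith
      have e4 : 0 ≤ Gam K * Real.log M := mul_nonneg (Gam_pos K).le hlogM
      rw [e2, Real.log_div (by positivity) h0.ne', Real.log_mul (by positivity) b1.ne',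
        Real.log_mul b0.ne' bs.ne', Real.log_div b1.ne' bm.ne',
        Real.log_div (x := lam r ^ 2) (y := Nn ^ 2) (by positivity) (by positivity), Real.log_pow,
        Real.log_pow]
      push_cast
      linarith
    have q4 : ∑ i ∈ ν r, y i * (Real.log (μ * s r i * w1 (ν r) i / y i) +
          ∑ κ ∈ Ico 0 (k + 1), gam κ * Real.log (t r κ i / wm (ν r) i) +
          Real.log (w1 (ν r) i / wm (ν r) i)) = Df r := by
      simp only [hDf, LL, mul_add, sum_add_distrib, mul_sum]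
      congr 2
      rw [sum_comm]
      exact sum_congr rfl fun κ _ => sum_congr rfl fun i _ => by ring
    have q5 : ∑ i ∈ ν r, y i * (-2 * Real.log (xc i * Nn / Z i) +
        (Real.log μ - Real.log (lam r ^ 2 / Nn ^ 2)) - Gam (k + 1) * Real.log M -
        Gam (k + 1) * Real.log (w1 I i) + 2 * Real.log (w1 (ν r) i) -
        (2 - Gam (k + 1)) * Real.log (wm (ν r) i)) =
        -2 * LL y (ν r) (fun i => xc i * Nn / Z i) +
        μ * (Real.log μ - Real.log (lam r ^ 2 / Nn ^ 2)) - Gam (k + 1) * Real.log M * μ -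
        Gam (k + 1) * LL y (ν r) (w1 I) + 2 * LL y (ν r) (w1 (ν r)) -
        (2 - Gam (k + 1)) * LL y (ν r) (wm (ν r)) := by
      simp only [LL]
      rw [hμ, sum_mul, mul_sum, mul_sum, mul_sum, mul_sum, mul_sum, ← sum_add_distrib,
        ← sum_sub_distrib, ← sum_sub_distrib, ← sum_add_distrib, ← sum_sub_distrib]
      exact sum_congr rfl fun i _ => by ring
    have q6 := mul_le_mul_of_nonneg_left q2 (Gam_pos (k + 1)).le
    linarith
  have htot : ∑ r ∈ range M, -(13 * ε * ∑ i ∈ ν r, y i) < ∑ r ∈ range M, Df r := by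
    have h1 := sum_le_sum hD
    rw [sum_sub_distrib, sum_add_distrib, sum_sub_distrib, sum_add_distrib, sum_sub_distrib,
      ← mul_sum, ← mul_sum, ← mul_sum, ← mul_sum, hsplit, hy1] at h1
    have h2 : ∑ r ∈ range M, lam r ^ 2 / Nn ^ 2 ≤ (1 + ε) ^ 3 := by
      calc _ ≤ ∑ r ∈ range M, (1 + ε) ^ 3 / M := by
            refine sum_le_sum fun r hr => ?_
            have := hle l hl.le r (mem_range.1 hr)
            rw [div_le_div_iff₀ (by positivity) (by positivity)]
            simp only [hlam]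
            calc ((1 + ε) * NK K (res (ν r) Z)) ^ 2 * M
                = (1 + ε) ^ 2 * (NK K (res (ν r) Z) ^ 2 * M) := by ring
              _ ≤ (1 + ε) ^ 2 * ((1 + ε) * Nn ^ 2) := by gcongr
              _ = _ := by ring
        _ = (1 + ε) ^ 3 := by
            rw [sum_const, card_range, nsmul_eq_mul]; field_simp
    have h3 : (1 + ε) ^ 3 ≤ 1 + 7 * ε := by nlinarith [mul_nonneg hε0.le (sub_nonneg.2 hε1)]
    have h4 : Gam (k + 1) * Real.log M ≤ ε := by
      refine le_trans (mul_le_mul_of_nonneg_left ?_ (Gam_pos _).le) (Gam_succ_mul_M k)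
      have h5 : M ≤ Mk k := Nat.le_of_dvd (Mk_pos k) (pat_dvd _ hl.le)
      have h6 : (M : ℝ) ≤ Mk k := by exact_mod_cast h5
      linarith [Real.log_le_sub_one_of_pos (show (0 : ℝ) < M by linarith)]
    have h7 : (2 : ℝ) / (k + 1) = 2 * ε := by rw [hε]; ring
    rw [sum_neg_distrib, ← mul_sum, hsplit, hy1]
    simp only [hν] at h1 hcompet
    linarith
  obtain ⟨r, hr', hrD⟩ := exists_lt_of_sum_lt htot
  have hr := mem_range.1 hr'
  have hμ : 0 < ∑ i ∈ ν r, y i := by
    refine lt_of_le_of_ne (sum_nonneg fun i _ => hy i) fun e => ?_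
    have h0 := (sum_eq_zero_iff_of_nonneg fun i _ => hy i).1 e.symm
    have hLL : ∀ g, LL y (ν r) g = 0 := fun g => sum_eq_zero fun i hi => by rw [h0 i hi, zero_mul]
    simp [hDf, hLL, ← e] at hrD
  obtain ⟨G, s', t', hG, hs', ht', ht1, hx, hN⟩ := node_good hy hK (hνK r hr) hμ (hw1 (ν r))
    (hwm (ν r)) (H r hr).1 (H r hr).2.1 (H r hr).2.2
    (fun i hi => by rw [res_of_notMem hi, mul_zero]) (hsp r hr) (htp r hr)
    (show 0 < 13 * ε by positivity) hrD.le
  have hl0 := hlam0 r hr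
  have hn0 := hpos l hl.le r hr
  have hl2 : lam r ≤ 2 * NK K (res (ν r) Z) := by
    simp only [hlam]; exact mul_le_mul_of_nonneg_right (by linarith) hn0.le
  refine ⟨l, hl.le, r, hr, G, s', t', hG, hs', ht', ht1, fun i hi => ?_, ?_⟩
  · have h1 := hx i hi
    rw [res_of_mem (hG hi), mul_pow, inv_pow, inv_mul_le_iff₀ (by positivity)] at h1
    have h2 : 0 ≤ s' i * GP 0 K t' i := mul_nonneg (hs'.1 i) (GP_nonneg ht'.nonneg _ _ _)
    calc Z i ^ 2 ≤ lam r ^ 2 * (16 * (s' i * GP 0 K t' i)) := by linarith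
      _ ≤ (2 * NK K (res (ν r) Z)) ^ 2 * (16 * (s' i * GP 0 K t' i)) := by gcongr
      _ = _ := by ring
  · have h1 : (fun i => if i ∈ G then 0 else res (ν r) Z i) =
        fun i => lam r * (if i ∈ G then 0 else (lam r)⁻¹ * res (ν r) Z i) := by
      funext i; split_ifs
      · simp
      · field_simp
    show NK K (fun i => if i ∈ G then 0 else res (ν r) Z i) ^ 4 ≤ _
    rw [h1, NK_smul, abs_of_pos hl0, mul_pow]
    calc _ ≤ (2 * NK K (res (ν r) Z)) ^ 4 * (42 * (13 * ε)) := by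
          have := NK_nonneg K (fun i => if i ∈ G then 0 else (lam r)⁻¹ * res (ν r) Z i)
          gcongr
      _ = 8736 * ε * NK K (res (ν r) Z) ^ 4 := by ring
      _ ≤ 10000 * ε * NK K (res (ν r) Z) ^ 4 := by gcongr; norm_num
      _ = _ := by rw [hε]; ring

end Pool.Agent.MP_650c5e_an
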