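import Mathlib

section

/-! A mixed Tsirelson norming set, its polar sets, and the basic combinatorial estimates. -/

namespace Pool.Agent.MP_650c5e_an

open Finset

/-- Sizes of the levels of the partition pattern. -/
def pat (N : ℕ) : ℕ → ℕ
  | 0 => 1
  | a + 1 => (pat N a * N) ^ 2

/-- The number of successive pieces allowed at weight `2^(-d)`. -/
def R : ℕ → ℕ
  | 0 => 1
  | d + 1 => max (3 * 2 ^ (d + 1) * (R d) ^ (d + 1)) (pat (d + 1) ((d + 1) ^ 2))

lemma R_pos (d : ℕ) : 1 ≤ R d := by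
  induction d with
  | zero => simp [R]
  | succ d ih =>
    have h1 : 1 ≤ 2 ^ (d + 1) := Nat.one_le_two_pow
    have h2 : 1 ≤ (R d) ^ (d + 1) := Nat.one_le_pow _ _ ih
    have h3 : 1 ≤ 3 * 2 ^ (d + 1) * (R d) ^ (d + 1) := by nlinarith [Nat.mul_le_mul h1 h2]
    exact le_trans h3 (le_max_left _ _)

lemma R_succ_ge (d : ℕ) : 3 * 2 ^ (d + 1) * (R d) ^ (d + 1) ≤ R (d + 1) := le_max_left _ _

lemma pat_le_R (d : ℕ) (hd : 1 ≤ d) : pat d (d ^ 2) ≤ R d := by
  obtain ⟨e, rfl⟩ : ∃ e, d = e + 1 := ⟨d - 1, by omega⟩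
  exact le_max_right _ _

lemma R_lt_succ (d : ℕ) : R d < R (d + 1) := by
  have h0 := R_pos d
  have h1 : 1 ≤ 2 ^ (d + 1) := Nat.one_le_two_pow
  have h2 : R d ≤ (R d) ^ (d + 1) := Nat.le_self_pow (by omega) _
  have h3 := R_succ_ge d
  nlinarith [Nat.mul_le_mul h1 h2]

lemma R_strictMono : StrictMono R := strictMono_nat_of_lt_succ R_lt_succ

lemma R_mono : Monotone R := R_strictMono.monotone

/-- The norming set. -/
inductive V : (ℕ → ℝ) → Prop
  | zero : V 0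
  | base (j : ℕ) : V (Pi.single j 1)
  | node (d n : ℕ) (p : ℕ → ℕ) (u : ℕ → ℕ → ℝ) (hd : 1 ≤ d) (hn : n ≤ R d) (hp : Monotone p)
      (hu : ∀ i, V (u i)) (hs : ∀ i j, u i j ≠ 0 → p i ≤ j ∧ j < p (i + 1)) :
      V (fun j => (1 / 2 : ℝ) ^ d * ∑ i ∈ range n, u i j)

/-- Sums of at most `n` successive members of the norming set. -/
def VS (n : ℕ) : Set (ℕ → ℝ) :=
  {v | ∃ r ≤ n, ∃ (p : ℕ → ℕ) (u : ℕ → ℕ → ℝ), Monotone p ∧ (∀ i, V (u i)) ∧
    (∀ i j, u i j ≠ 0 → p i ≤ j ∧ j < p (i + 1)) ∧ v = fun j => ∑ i ∈ range r, u i j}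

/-- The polar of a set of nonnegative sequences. -/
def polar (S : Set (ℕ → ℝ)) : Set (ℕ → ℝ) :=
  {s | (∀ i, 0 ≤ s i) ∧ ∀ v ∈ S, ∀ D : Finset ℕ, ∑ i ∈ D, v i * s i ≤ 1}

def SB (n : ℕ) : Set (ℕ → ℝ) := polar (VS n)

def BB (n : ℕ) : Set (ℕ → ℝ) := polar (SB n)

/-- Restriction to a finite set. -/
def res (E : Finset ℕ) (v : ℕ → ℝ) : ℕ → ℝ := fun j => if j ∈ E then v j else 0

def shL (v : ℕ → ℝ) : ℕ → ℝ := fun j => v (j + 1)

def shR (v : ℕ → ℝ) : ℕ → ℝ
  | 0 => 0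
  | j + 1 => v j

lemma succ_unique {p : ℕ → ℕ} (hp : Monotone p) {i i' j : ℕ} (h : p i ≤ j ∧ j < p (i + 1))
    (h' : p i' ≤ j ∧ j < p (i' + 1)) : i = i' := by
  rcases lt_trichotomy i i' with hlt | heq | hlt
  · have := hp (show i + 1 ≤ i' from hlt); omega
  · exact heq
  · have := hp (show i' + 1 ≤ i from hlt); omega

lemma sum_succ_le {p : ℕ → ℕ} (hp : Monotone p) {u : ℕ → ℕ → ℝ} {c : ℝ} (hc : 0 ≤ c)
    (J : Finset ℕ) (j : ℕ) (hu : ∀ i ∈ J, u i j ≤ c)
    (hs : ∀ i ∈ J, u i j ≠ 0 → p i ≤ j ∧ j < p (i + 1)) :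
    ∑ i ∈ J, u i j ≤ c := by
  by_cases h : ∃ i ∈ J, u i j ≠ 0
  · obtain ⟨i, hi, hne⟩ := h
    rw [sum_eq_single_of_mem i hi]
    · exact hu i hi
    · intro i' hi' hne'
      by_contra h0
      exact hne' (succ_unique hp (hs i' hi' h0) (hs i hi hne))
  · push Not at h
    rw [sum_eq_zero h]; exact hc

lemma V.bounds {v : ℕ → ℝ} (h : V v) : ∀ j, 0 ≤ v j ∧ v j ≤ 1 := by
  induction h with
  | zero => intro j; simp
  | base k => intro j; by_cases hj : j = k <;> simp [hj]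
  | node d n p u hd hn hp hu hs ih =>
    intro j
    have h0 : 0 ≤ ∑ i ∈ range n, u i j := sum_nonneg fun i _ => (ih i j).1
    have h1 : ∑ i ∈ range n, u i j ≤ 1 :=
      sum_succ_le hp zero_le_one _ j (fun i _ => (ih i j).2) (fun i _ => hs i j)
    have h2 : (1 / 2 : ℝ) ^ d ≤ 1 := pow_le_one₀ (by norm_num) (by norm_num)
    have h3 : (0 : ℝ) ≤ (1 / 2 : ℝ) ^ d := by positivity
    exact ⟨mul_nonneg h3 h0, by nlinarith⟩

lemma VS.bounds {n : ℕ} {v : ℕ → ℝ} (h : v ∈ VS n) (j : ℕ) : 0 ≤ v j ∧ v j ≤ 1 := by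
  obtain ⟨r, -, p, u, hp, hu, hs, rfl⟩ := h
  exact ⟨sum_nonneg fun i _ => ((hu i).bounds j).1,
    sum_succ_le hp zero_le_one _ j (fun i _ => ((hu i).bounds j).2) (fun i _ => hs i j)⟩

lemma res_nonneg {E : Finset ℕ} {v : ℕ → ℝ} (h : ∀ i, 0 ≤ v i) (i : ℕ) : 0 ≤ res E v i := by
  unfold res; split_ifs; exacts [h i, le_rfl]

lemma res_le {E : Finset ℕ} {v : ℕ → ℝ} (h : ∀ i, 0 ≤ v i) (i : ℕ) : res E v i ≤ v i := by
  unfold res; split_ifs; exacts [le_rfl, h i]

lemma res_of_mem {E : Finset ℕ} {v : ℕ → ℝ} {i : ℕ} (h : i ∈ E) : res E v i = v i := if_pos h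

lemma res_of_notMem {E : Finset ℕ} {v : ℕ → ℝ} {i : ℕ} (h : i ∉ E) : res E v i = 0 := if_neg h

lemma mem_of_res_ne {E : Finset ℕ} {v : ℕ → ℝ} {i : ℕ} (h : res E v i ≠ 0) : i ∈ E := by
  by_contra h'; exact h (res_of_notMem h')

lemma sum_mul_res {E W : Finset ℕ} (h : W ⊆ E) (t s : ℕ → ℝ) :
    ∑ i ∈ E, t i * res W s i = ∑ i ∈ W, t i * s i := by
  rw [← sum_subset h]
  · exact sum_congr rfl fun i hi => by rw [res_of_mem hi]
  · intro i _ hi; rw [res_of_notMem hi, mul_zero]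

lemma sum_res_mul {E W : Finset ℕ} (t s : ℕ → ℝ) :
    ∑ i ∈ E, res W t i * s i = ∑ i ∈ E ∩ W, t i * s i := by
  rw [← sum_subset (inter_subset_left (s₁ := E) (s₂ := W))]
  · exact sum_congr rfl fun i hi => by rw [res_of_mem (mem_inter.1 hi).2]
  · intro i hi hi'
    rw [res_of_notMem (fun h => hi' (mem_inter.2 ⟨hi, h⟩)), zero_mul]

lemma V.res {v : ℕ → ℝ} (h : V v) (E : Finset ℕ) : V (res E v) := by
  induction h with
  | zero =>
    have : MP_650c5e_an.res E 0 = 0 := by funext j; simp [MP_650c5e_an.res]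
    rw [this]; exact V.zero
  | base k =>
    by_cases hk : k ∈ E
    · have : MP_650c5e_an.res E (Pi.single k 1) = Pi.single k 1 := by
        funext j; by_cases hj : j = k <;> simp [MP_650c5e_an.res, hj, hk]
      rw [this]; exact V.base k
    · have : MP_650c5e_an.res E (Pi.single k 1) = 0 := by
        funext j; by_cases hj : j = k <;> simp [MP_650c5e_an.res, hj, hk]
      rw [this]; exact V.zero
  | node d n p u hd hn hp hu hs ih =>
    have : MP_650c5e_an.res E (fun j => (1 / 2 : ℝ) ^ d * ∑ i ∈ range n, u i j) =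
        fun j => (1 / 2 : ℝ) ^ d * ∑ i ∈ range n, MP_650c5e_an.res E (u i) j := by
      funext j; by_cases hj : j ∈ E <;> simp [MP_650c5e_an.res, hj]
    rw [this]
    refine V.node d n p _ hd hn hp ih fun i j hne => hs i j ?_
    intro h0; apply hne; simp [MP_650c5e_an.res, h0]

lemma V.shL {v : ℕ → ℝ} (h : V v) : V (shL v) := by
  induction h with
  | zero => exact V.zero
  | base k =>
    cases k with
    | zero =>
      have : MP_650c5e_an.shL (Pi.single 0 1) = 0 := by funext j; simp [MP_650c5e_an.shL]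
      rw [this]; exact V.zero
    | succ k =>
      have : MP_650c5e_an.shL (Pi.single (k + 1) 1) = Pi.single k 1 := by
        funext j; by_cases hj : j = k <;> simp [MP_650c5e_an.shL, hj]
      rw [this]; exact V.base k
  | node d n p u hd hn hp hu hs ih =>
    refine V.node d n (fun i => p i - 1) (fun i => MP_650c5e_an.shL (u i)) hd hn
      (fun a b hab => Nat.sub_le_sub_right (hp hab) 1) ih fun i j hne => ?_
    have := hs i (j + 1) hne
    omega

lemma V.shR {v : ℕ → ℝ} (h : V v) : V (shR v) := by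
  induction h with
  | zero =>
    have : MP_650c5e_an.shR 0 = 0 := by funext j; cases j <;> simp [MP_650c5e_an.shR]
    rw [this]; exact V.zero
  | base k =>
    have : MP_650c5e_an.shR (Pi.single k 1) = Pi.single (k + 1) 1 := by
      funext j
      cases j with
      | zero => simp [MP_650c5e_an.shR]
      | succ j => by_cases hj : j = k <;> simp [MP_650c5e_an.shR, hj]
    rw [this]; exact V.base _
  | node d n p u hd hn hp hu hs ih =>
    have : MP_650c5e_an.shR (fun j => (1 / 2 : ℝ) ^ d * ∑ i ∈ range n, u i j) =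
        fun j => (1 / 2 : ℝ) ^ d * ∑ i ∈ range n, MP_650c5e_an.shR (u i) j := by
      funext j; cases j <;> simp [MP_650c5e_an.shR]
    rw [this]
    refine V.node d n (fun i => p i + 1) _ hd hn
      (fun a b hab => Nat.add_le_add_right (hp hab) 1) ih fun i j hne => ?_
    cases j with
    | zero => simp [MP_650c5e_an.shR] at hne
    | succ j =>
      have := hs i j hne
      omega

lemma VS.shL {n : ℕ} {v : ℕ → ℝ} (h : v ∈ VS n) : shL v ∈ VS n := by
  obtain ⟨r, hr, p, u, hp, hu, hs, rfl⟩ := h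
  refine ⟨r, hr, fun i => p i - 1, fun i => MP_650c5e_an.shL (u i),
    fun a b hab => Nat.sub_le_sub_right (hp hab) 1, fun i => (hu i).shL, fun i j hne => ?_, rfl⟩
  have := hs i (j + 1) hne
  dsimp only
  omega

lemma VS.shR {n : ℕ} {v : ℕ → ℝ} (h : v ∈ VS n) : shR v ∈ VS n := by
  obtain ⟨r, hr, p, u, hp, hu, hs, rfl⟩ := h
  refine ⟨r, hr, fun i => p i + 1, fun i => MP_650c5e_an.shR (u i),
    fun a b hab => Nat.add_le_add_right (hp hab) 1, fun i => (hu i).shR, fun i j hne => ?_, ?_⟩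
  · cases j with
    | zero => simp [MP_650c5e_an.shR] at hne
    | succ j =>
      have := hs i j hne
      dsimp only
      omega
  · funext j; cases j <;> simp [MP_650c5e_an.shR]

lemma V.finsupp {v : ℕ → ℝ} (h : V v) : ∃ N, ∀ j, v j ≠ 0 → j < N := by
  cases h with
  | zero => exact ⟨0, by simp⟩
  | base k =>
    refine ⟨k + 1, fun j hj => ?_⟩
    by_cases h : j = k
    · omega
    · simp [h] at hj
  | node d n p u hd hn hp hu hs =>
    refine ⟨p n, fun j hj => ?_⟩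
    have h1 : ∑ i ∈ range n, u i j ≠ 0 := fun h => hj (by simp [h])
    obtain ⟨i, hi, hne⟩ := exists_ne_zero_of_sum_ne_zero h1
    have := (hs i j hne).2
    have := hp (show i + 1 ≤ n from mem_range.1 hi)
    omega

lemma V.mem_VS {v : ℕ → ℝ} (h : V v) {n : ℕ} (hn : 1 ≤ n) : v ∈ VS n := by
  obtain ⟨N, hN⟩ := h.finsupp
  refine ⟨1, hn, fun i => if i = 0 then 0 else N, fun i => if i = 0 then v else 0, ?_, ?_, ?_, ?_⟩
  · intro a b hab
    by_cases ha : a = 0
    · simp [ha]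
    · have : b ≠ 0 := by omega
      simp [ha, this]
  · intro i; by_cases hi : i = 0
    · simp [hi, h]
    · simp [hi, V.zero]
  · intro i j hne
    by_cases hi : i = 0
    · simp only [hi, if_true] at hne
      simp [hi, hN j hne]
    · simp [hi] at hne
  · funext j; simp

lemma VS.one {v : ℕ → ℝ} (h : v ∈ VS 1) : V v := by
  obtain ⟨r, hr, p, u, hp, hu, hs, rfl⟩ := h
  interval_cases r
  · exact V.zero
  · simpa using hu 0

lemma VS.mono {n n' : ℕ} (h : n ≤ n') : VS n ⊆ VS n' := by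
  rintro v ⟨r, hr, rest⟩
  exact ⟨r, hr.trans h, rest⟩

lemma VS.node {d : ℕ} {v : ℕ → ℝ} (h : v ∈ VS (R d)) :
    V (fun j => (1 / 2 : ℝ) ^ d * v j) := by
  rcases Nat.eq_zero_or_pos d with rfl | hd
  · simpa using VS.one h
  · obtain ⟨r, hr, p, u, hp, hu, hs, rfl⟩ := h
    exact V.node d r p u hd hr hp hu hs

lemma one_mem_VS {n K : ℕ} (h : K ≤ n) : res (range K) 1 ∈ VS n := by
  refine ⟨K, h, id, fun i => Pi.single i 1, monotone_id, fun i => V.base i, ?_, ?_⟩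
  · intro i j hne
    by_cases hj : j = i
    · simp [hj]
    · simp [hj] at hne
  · funext j
    by_cases hj : j ∈ range K
    · rw [res_of_mem hj, sum_eq_single_of_mem j hj]
      · simp
      · intro b _ hb; simp [Ne.symm hb]
    · rw [res_of_notMem hj, sum_eq_zero]
      intro i hi
      have : j ≠ i := fun h => hj (h ▸ hi)
      simp [this]

end Pool.Agent.MP_650c5e_an

end

section

/-! Polar sets, merging and cutting estimates, and the rapidly increasing sequence lemma. -/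

namespace Pool.Agent.MP_650c5e_an

open Finset

section polar

variable {S : Set (ℕ → ℝ)}

lemma polar.nonneg {s : ℕ → ℝ} (h : s ∈ polar S) (i : ℕ) : 0 ≤ s i := h.1 i

lemma mem_polar_of_range (hS : ∀ v ∈ S, ∀ i, 0 ≤ v i) {s : ℕ → ℝ} (h0 : ∀ i, 0 ≤ s i)
    (h : ∀ v ∈ S, ∀ N, ∑ i ∈ range N, v i * s i ≤ 1) : s ∈ polar S := by
  refine ⟨h0, fun v hv D => ?_⟩
  obtain ⟨N, hN⟩ := D.exists_nat_subset_range
  exact le_trans (sum_le_sum_of_subset_of_nonneg hN fun i _ _ => mul_nonneg (hS v hv i) (h0 i))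
    (h v hv N)

lemma polar.solid (hS : ∀ v ∈ S, ∀ i, 0 ≤ v i) {s s' : ℕ → ℝ} (h : s ∈ polar S)
    (h0 : ∀ i, 0 ≤ s' i) (hle : ∀ i, s' i ≤ s i) : s' ∈ polar S :=
  ⟨h0, fun v hv D => le_trans (sum_le_sum fun i _ =>
    mul_le_mul_of_nonneg_left (hle i) (hS v hv i)) (h.2 v hv D)⟩

lemma polar.anti {S' : Set (ℕ → ℝ)} (h : S ⊆ S') : polar S' ⊆ polar S :=
  fun _ hs => ⟨hs.1, fun v hv D => hs.2 v (h hv) D⟩

lemma subset_bipolar (hS : ∀ v ∈ S, ∀ i, 0 ≤ v i) : S ⊆ polar (polar S) :=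
  fun v hv => ⟨hS v hv, fun s hs D => by
    simpa only [mul_comm] using hs.2 v hv D⟩

/-- Subconvex combinations. -/
lemma polar.comb {ι : Type*} (J : Finset ι) (w : ι → ℝ) (s : ι → ℕ → ℝ)
    (hw : ∀ j ∈ J, 0 ≤ w j) (hw1 : ∑ j ∈ J, w j ≤ 1) (hs : ∀ j ∈ J, s j ∈ polar S) :
    (fun i => ∑ j ∈ J, w j * s j i) ∈ polar S := by
  refine ⟨fun i => sum_nonneg fun j hj => mul_nonneg (hw j hj) ((hs j hj).1 i), fun v hv D => ?_⟩
  calc ∑ i ∈ D, v i * ∑ j ∈ J, w j * s j i = ∑ j ∈ J, w j * ∑ i ∈ D, v i * s j i := by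
        simp_rw [mul_sum]
        rw [sum_comm]
        exact sum_congr rfl fun j _ => sum_congr rfl fun i _ => by ring
    _ ≤ ∑ j ∈ J, w j * 1 :=
        sum_le_sum fun j hj => mul_le_mul_of_nonneg_left ((hs j hj).2 v hv D) (hw j hj)
    _ ≤ 1 := by simpa using hw1

lemma polar.comb2 {s s' : ℕ → ℝ} {a b : ℝ} (ha : 0 ≤ a) (hb : 0 ≤ b) (hab : a + b ≤ 1)
    (hs : s ∈ polar S) (hs' : s' ∈ polar S) : (fun i => a * s i + b * s' i) ∈ polar S := by
  refine ⟨fun i => add_nonneg (mul_nonneg ha (hs.1 i)) (mul_nonneg hb (hs'.1 i)),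
    fun v hv D => ?_⟩
  have h1 := hs.2 v hv D
  have h2 := hs'.2 v hv D
  have : ∑ i ∈ D, v i * (a * s i + b * s' i) =
      a * ∑ i ∈ D, v i * s i + b * ∑ i ∈ D, v i * s' i := by
    simp_rw [mul_sum, ← sum_add_distrib]
    exact sum_congr rfl fun i _ => by ring
  rw [this]; nlinarith

lemma polar.isClosed : IsClosed (polar S) := by
  have : polar S = (⋂ i, {s : ℕ → ℝ | 0 ≤ s i}) ∩
      ⋂ v ∈ S, ⋂ D : Finset ℕ, {s : ℕ → ℝ | ∑ i ∈ D, v i * s i ≤ 1} := by
    ext s; simp [polar]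
  rw [this]
  refine IsClosed.inter (isClosed_iInter fun i => isClosed_le continuous_const (continuous_apply i))
    (isClosed_biInter fun v _ => isClosed_iInter fun D => isClosed_le ?_ continuous_const)
  fun_prop

lemma mem_polar_of_sum_le (hS : ∀ v ∈ S, ∀ i, v i ≤ 1) {s : ℕ → ℝ} (h0 : ∀ i, 0 ≤ s i)
    (h : ∀ D : Finset ℕ, ∑ i ∈ D, s i ≤ 1) : s ∈ polar S :=
  ⟨h0, fun v hv D => le_trans (sum_le_sum fun i _ => by
    have := hS v hv i; have := h0 i; nlinarith) (h D)⟩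

lemma polar.le_one (hS : ∀ j, Pi.single j (1 : ℝ) ∈ S) {s : ℕ → ℝ} (h : s ∈ polar S) (j : ℕ) :
    s j ≤ 1 := by
  simpa using h.2 _ (hS j) {j}

lemma polar.scale (hS : ∀ v ∈ S, ∀ i, 0 ≤ v i) {s : ℕ → ℝ} (h0 : ∀ i, 0 ≤ s i) (E : Finset ℕ)
    {c : ℝ} (hc : 0 < c) (h : ∀ v ∈ S, ∑ i ∈ E, v i * s i ≤ c) :
    (fun i => c⁻¹ * res E s i) ∈ polar S := by
  refine ⟨fun i => mul_nonneg (inv_nonneg.2 hc.le) (res_nonneg h0 i), fun v hv D => ?_⟩
  have h1 : ∑ i ∈ D, v i * (c⁻¹ * res E s i) = c⁻¹ * ∑ i ∈ D ∩ E, v i * s i := by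
    rw [mul_sum, ← sum_subset (inter_subset_left (s₁ := D) (s₂ := E))]
    · exact sum_congr rfl fun i hi => by rw [res_of_mem (mem_inter.1 hi).2]; ring
    · intro i hi hi'
      rw [res_of_notMem (fun h => hi' (mem_inter.2 ⟨hi, h⟩))]; ring
  have h2 : ∑ i ∈ D ∩ E, v i * s i ≤ c :=
    le_trans (sum_le_sum_of_subset_of_nonneg inter_subset_right
      fun i _ _ => mul_nonneg (hS v hv i) (h0 i)) (h v hv)
  rw [h1, inv_mul_le_iff₀ hc]; simpa using h2

/-- A bound on the pairings with `S` passes to the bipolar. -/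
lemma bipolar_le (hS : ∀ v ∈ S, ∀ i, 0 ≤ v i) {w : ℕ → ℝ} (hw : w ∈ polar (polar S))
    {s : ℕ → ℝ} (h0 : ∀ i, 0 ≤ s i) (E : Finset ℕ) {c : ℝ} (hc : 0 ≤ c)
    (h : ∀ v ∈ S, ∑ i ∈ E, v i * s i ≤ c) : ∑ i ∈ E, w i * s i ≤ c := by
  refine le_of_forall_gt_imp_ge_of_dense fun c' hc' => ?_
  have hpos : 0 < c' := lt_of_le_of_lt hc hc'
  have h1 := hw.2 _ (polar.scale hS h0 E hpos fun v hv => (h v hv).trans hc'.le) E
  have h2 : ∑ i ∈ E, c'⁻¹ * res E s i * w i = c'⁻¹ * ∑ i ∈ E, w i * s i := by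
    rw [mul_sum]
    exact sum_congr rfl fun i hi => by rw [res_of_mem hi]; ring
  rw [h2, inv_mul_le_iff₀ hpos] at h1
  simpa using h1

lemma polar.shR (hS0 : ∀ v ∈ S, ∀ i, 0 ≤ v i) (hS : ∀ v ∈ S, shL v ∈ S) {s : ℕ → ℝ}
    (h : s ∈ polar S) : shR s ∈ polar S := by
  refine mem_polar_of_range hS0 (fun i => by cases i; exacts [le_rfl, h.1 _]) fun v hv N => ?_
  cases N with
  | zero => simp
  | succ N =>
    rw [sum_range_succ']
    simpa [MP_650c5e_an.shR, MP_650c5e_an.shL] using h.2 _ (hS v hv) (range N)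

lemma polar.shL (hS0 : ∀ v ∈ S, ∀ i, 0 ≤ v i) (hS : ∀ v ∈ S, MP_650c5e_an.shR v ∈ S)
    {s : ℕ → ℝ} (h : s ∈ polar S) : shL s ∈ polar S := by
  refine mem_polar_of_range hS0 (fun i => h.1 _) fun v hv N => ?_
  have := h.2 _ (hS v hv) (range (N + 1))
  rw [sum_range_succ'] at this
  simpa [MP_650c5e_an.shR, MP_650c5e_an.shL] using this

end polar

lemma VS_nonneg (n : ℕ) : ∀ v ∈ VS n, ∀ i, 0 ≤ v i := fun _ hv i => (VS.bounds hv i).1

lemma SB_nonneg (n : ℕ) : ∀ v ∈ SB n, ∀ i, 0 ≤ v i := fun _ hv i => hv.1 i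

lemma BB_nonneg (n : ℕ) : ∀ v ∈ BB n, ∀ i, 0 ≤ v i := fun _ hv i => hv.1 i

lemma SB_le_one {n : ℕ} (hn : 1 ≤ n) : ∀ v ∈ SB n, ∀ i, v i ≤ 1 :=
  fun _ hv i => polar.le_one (fun j => (V.base j).mem_VS hn) hv i

lemma mem_SB_of_sum_le {n : ℕ} {s : ℕ → ℝ} (h0 : ∀ i, 0 ≤ s i)
    (h : ∀ D : Finset ℕ, ∑ i ∈ D, s i ≤ 1) : s ∈ SB n :=
  mem_polar_of_sum_le (fun _ hv i => (VS.bounds hv i).2) h0 h

lemma mem_BB_of_sum_le {n : ℕ} (hn : 1 ≤ n) {s : ℕ → ℝ} (h0 : ∀ i, 0 ≤ s i)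
    (h : ∀ D : Finset ℕ, ∑ i ∈ D, s i ≤ 1) : s ∈ BB n :=
  mem_polar_of_sum_le (SB_le_one hn) h0 h

lemma BB_le_one (n : ℕ) : ∀ v ∈ BB n, ∀ i, v i ≤ 1 := fun _ hv i =>
  polar.le_one (fun j => mem_SB_of_sum_le (fun i => by by_cases h : i = j <;> simp [h])
    fun D => by
      by_cases h : j ∈ D
      · rw [sum_eq_single_of_mem j h (fun b _ hb => by simp [hb])]; simp
      · rw [sum_eq_zero fun b hb => by
          have : b ≠ j := fun e => h (e ▸ hb)
          simp [this]]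
        exact zero_le_one) hv i

lemma VS_subset_BB (n : ℕ) : VS n ⊆ BB n := subset_bipolar (VS_nonneg n)

lemma BB_mono {n n' : ℕ} (h : n ≤ n') : BB n ⊆ BB n' := polar.anti (polar.anti (VS.mono h))

lemma SB_anti {n n' : ℕ} (h : n ≤ n') : SB n' ⊆ SB n := polar.anti (VS.mono h)

lemma BB.solid {n : ℕ} {s s' : ℕ → ℝ} (h : s ∈ BB n) (h0 : ∀ i, 0 ≤ s' i) (hle : ∀ i, s' i ≤ s i) :
    s' ∈ BB n := polar.solid (SB_nonneg n) h h0 hle

lemma SB.solid {n : ℕ} {s s' : ℕ → ℝ} (h : s ∈ SB n) (h0 : ∀ i, 0 ≤ s' i) (hle : ∀ i, s' i ≤ s i) :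
    s' ∈ SB n := polar.solid (VS_nonneg n) h h0 hle

lemma SB.shR {n : ℕ} {s : ℕ → ℝ} (h : s ∈ SB n) : shR s ∈ SB n :=
  polar.shR (VS_nonneg n) (fun _ hv => VS.shL hv) h

lemma SB.shL {n : ℕ} {s : ℕ → ℝ} (h : s ∈ SB n) : shL s ∈ SB n :=
  polar.shL (VS_nonneg n) (fun _ hv => VS.shR hv) h

lemma BB.shR {n : ℕ} {s : ℕ → ℝ} (h : s ∈ BB n) : shR s ∈ BB n :=
  polar.shR (SB_nonneg n) (fun _ hv => SB.shL hv) h

lemma BB.shL {n : ℕ} {s : ℕ → ℝ} (h : s ∈ BB n) : shL s ∈ BB n :=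
  polar.shL (SB_nonneg n) (fun _ hv => SB.shR hv) h

lemma pair_le_one {n : ℕ} {s t : ℕ → ℝ} (hs : s ∈ SB n) (ht : t ∈ BB n) (D : Finset ℕ) :
    ∑ i ∈ D, s i * t i ≤ 1 := ht.2 s hs D

lemma V.pair {v s : ℕ → ℝ} (hv : V v) {n : ℕ} (hn : 1 ≤ n) (hs : s ∈ SB n) (D : Finset ℕ) :
    ∑ i ∈ D, v i * s i ≤ 1 := hs.2 v (hv.mem_VS hn) D

lemma BB.shrink {d : ℕ} {t : ℕ → ℝ} (h : t ∈ BB (R d)) :
    (fun i => (1 / 2 : ℝ) ^ d * t i) ∈ BB 1 := by
  refine ⟨fun i => mul_nonneg (by positivity) (h.1 i), fun s hs D => ?_⟩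
  have h1 : (fun i => (1 / 2 : ℝ) ^ d * s i) ∈ SB (R d) := by
    refine ⟨fun i => mul_nonneg (by positivity) (hs.1 i), fun v hv D => ?_⟩
    have := (VS.node hv).pair le_rfl hs D
    exact le_of_eq_of_le (sum_congr rfl fun i _ => by ring) this
  have := h.2 _ h1 D
  exact le_of_eq_of_le (sum_congr rfl fun i _ => by ring) this

/-- Sums of `n` successive members of `BB 1` lie in `BB n`. -/
lemma merge {A : ℕ → ℕ} (hA : Monotone A) (n : ℕ) {w : ℕ → ℕ → ℝ} (hw : ∀ j < n, w j ∈ BB 1) :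
    (fun i => ∑ j ∈ range n, res (Ico (A j) (A (j + 1))) (w j) i) ∈ BB n := by
  refine ⟨fun i => sum_nonneg fun j hj => res_nonneg (hw j (mem_range.1 hj)).1 i,
    fun s hs D => ?_⟩
  set f : ℕ → (ℕ → ℝ) → ℝ := fun j v => ∑ i ∈ D ∩ Ico (A j) (A (j + 1)), v i * s i with hf
  have hsum : ∀ u : ℕ → ℕ → ℝ, ∑ i ∈ D, s i * ∑ j ∈ range n, res (Ico (A j) (A (j + 1))) (u j) i
      = ∑ j ∈ range n, f j (u j) := by
    intro u
    simp_rw [mul_sum]
    rw [sum_comm]
    refine sum_congr rfl fun j _ => ?_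
    simp only [hf]
    rw [← sum_res_mul]
    exact sum_congr rfl fun i _ => mul_comm _ _
  have key : ∀ r ≤ n, ∀ u : ℕ → ℕ → ℝ, (∀ j, V (u j)) →
      ∑ j ∈ range n, f j (if j < r then w j else u j) ≤ 1 := by
    intro r
    induction r with
    | zero =>
      intro _ u hu
      simp only [Nat.not_lt_zero, if_false]
      rw [← hsum]
      have : (fun i => ∑ j ∈ range n, res (Ico (A j) (A (j + 1))) (u j) i) ∈ VS n :=
        ⟨n, le_rfl, A, _, hA, fun j => (hu j).res _,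
          fun j i hne => mem_Ico.1 (mem_of_res_ne hne), rfl⟩
      simpa only [mul_comm] using hs.2 _ this D
    | succ r ih =>
      intro hr u hu
      have hrn : r ∈ range n := mem_range.2 hr
      have hsplit : ∀ g : ℕ → ℕ → ℝ, ∑ j ∈ range n, f j (g j) =
          f r (g r) + ∑ j ∈ (range n).erase r, f j (g j) :=
        fun g => (add_sum_erase _ (fun j => f j (g j)) hrn).symm
      set rest := ∑ j ∈ (range n).erase r, f j (if j < r then w j else u j) with hrest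
      have hv : ∀ v, V v → f r v ≤ 1 - rest := by
        intro v hv
        have h1 := ih (by omega) (Function.update u r v) (fun j => by
          by_cases h : j = r
          · subst h; simpa using hv
          · simpa [Function.update_of_ne h] using hu j)
        rw [hsplit] at h1
        have h2 : ∑ j ∈ (range n).erase r, f j (if j < r then w j else Function.update u r v j)
            = rest := sum_congr rfl fun j hj => by
          rw [Function.update_of_ne (mem_erase.1 hj).1]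
        rw [h2] at h1
        simp only [lt_irrefl, if_false, Function.update_self] at h1
        linarith
      have h0 : 0 ≤ 1 - rest := by simpa [hf] using hv 0 V.zero
      have h3 : f r (w r) ≤ 1 - rest :=
        bipolar_le (VS_nonneg 1) (hw r hr) hs.1 _ h0 fun v hv' => hv v (VS.one hv')
      rw [hsplit]
      have h4 : ∑ j ∈ (range n).erase r, f j (if j < r + 1 then w j else u j) = rest :=
        sum_congr rfl fun j hj => by
          have := (mem_erase.1 hj).1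
          by_cases h : j < r
          · rw [if_pos h, if_pos (by omega)]
          · rw [if_neg h, if_neg (by omega)]
      rw [h4, if_pos (Nat.lt_succ_self r)]
      linarith
  rw [hsum]
  have := key n le_rfl (fun _ => 0) (fun _ => V.zero)
  exact le_of_eq_of_le (sum_congr rfl fun j hj => by rw [if_pos (mem_range.1 hj)]) this

/-- Two systems of successive intervals meet in few pairs. -/
lemma pairs {p A : ℕ → ℕ} (hp : Monotone p) (hA : Monotone A) (r : ℕ) (J : Finset ℕ)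
    (x : ℕ → ℕ → ℝ) (a : ℕ → ℝ) {η : ℝ} (hη : 0 ≤ η) (ha0 : ∀ c ∈ J, 0 ≤ a c)
    (ha : ∀ c ∈ J, a c ≤ η) (hx : ∀ i ∈ range r, ∀ c ∈ J, x i c ≤ a c)
    (hxs : ∀ i, ∀ c ∈ J, x i c ≠ 0 →
      ∃ k, (p i ≤ k ∧ k < p (i + 1)) ∧ (A c ≤ k ∧ k < A (c + 1))) :
    ∑ i ∈ range r, ∑ c ∈ J, x i c ≤ ∑ c ∈ J, a c + r * η := by
  have h1 : ∀ i c, x i c = (if p i ≤ A c then x i c else 0) + (if p i ≤ A c then 0 else x i c) := by
    intro i c; split_ifs <;> simp
  have h2 : ∑ i ∈ range r, ∑ c ∈ J, (if p i ≤ A c then x i c else 0) ≤ ∑ c ∈ J, a c := by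
    rw [sum_comm]
    refine sum_le_sum fun c hc => ?_
    refine sum_succ_le (u := fun i _ => if p i ≤ A c then x i c else 0) hp (ha0 c hc) _ (A c)
      (fun i hi => ?_) (fun i _ hne => ?_)
    · split_ifs; exacts [hx i hi c hc, ha0 c hc]
    · by_cases h : p i ≤ A c
      · simp only [h, if_true] at hne
        obtain ⟨k, hk1, hk2⟩ := hxs i c hc hne
        omega
      · simp [h] at hne
  have h3 : ∑ i ∈ range r, ∑ c ∈ J, (if p i ≤ A c then 0 else x i c) ≤ r * η := by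
    calc _ ≤ ∑ i ∈ range r, η := sum_le_sum fun i hi => ?_
      _ = r * η := by simp
    refine sum_succ_le (u := fun c _ => if p i ≤ A c then 0 else x i c) hA hη _ (p i)
      (fun c hc => ?_) (fun c hc hne => ?_)
    · split_ifs; exacts [hη, (hx i hi c hc).trans (ha c hc)]
    · by_cases h : p i ≤ A c
      · simp [h] at hne
      · simp only [h, if_false] at hne
        obtain ⟨k, hk1, hk2⟩ := hxs i c hc hne
        omega
  calc ∑ i ∈ range r, ∑ c ∈ J, x i c = ∑ i ∈ range r, ∑ c ∈ J, (if p i ≤ A c then x i c else 0)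
        + ∑ i ∈ range r, ∑ c ∈ J, (if p i ≤ A c then 0 else x i c) := by
        rw [← sum_add_distrib]
        refine sum_congr rfl fun i _ => ?_
        rw [← sum_add_distrib]
        exact sum_congr rfl fun c _ => h1 i c
    _ ≤ _ := add_le_add h2 h3

/-- The cut estimate. -/
lemma cut {A : ℕ → ℕ} (hA : Monotone A) {m : ℕ} {t : ℕ → ℝ} (ht : t ∈ BB m) (J : Finset ℕ)
    (σ : ℕ → ℕ → ℝ) (hσ : ∀ c i, 0 ≤ σ c i) (a : ℕ → ℝ) {η : ℝ} (hη : 0 ≤ η)
    (ha0 : ∀ c ∈ J, 0 ≤ a c) (ha : ∀ c ∈ J, a c ≤ η)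
    (hV : ∀ c ∈ J, ∀ v, V v → ∑ i ∈ Ico (A c) (A (c + 1)), v i * σ c i ≤ a c) :
    ∑ c ∈ J, ∑ i ∈ Ico (A c) (A (c + 1)), t i * σ c i ≤ ∑ c ∈ J, a c + m * η := by
  obtain ⟨N, hN⟩ := (J.biUnion fun c => Ico (A c) (A (c + 1))).exists_nat_subset_range
  have hsub : ∀ c ∈ J, Ico (A c) (A (c + 1)) ⊆ range N :=
    fun c hc => (subset_biUnion_of_mem (fun c => Ico (A c) (A (c + 1))) hc).trans hN
  have hsum : ∀ v : ℕ → ℝ, ∑ i ∈ range N, v i * ∑ c ∈ J, res (Ico (A c) (A (c + 1))) (σ c) i =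
      ∑ c ∈ J, ∑ i ∈ Ico (A c) (A (c + 1)), v i * σ c i := by
    intro v
    simp_rw [mul_sum]
    rw [sum_comm]
    exact sum_congr rfl fun c hc => sum_mul_res (hsub c hc) _ _
  rw [← hsum]
  refine bipolar_le (VS_nonneg m) ht (fun i => sum_nonneg fun c _ => res_nonneg (hσ c) i) _
    (add_nonneg (sum_nonneg ha0) (by positivity)) ?_
  rintro v ⟨r, hr, p, u, hp, hu, hs, rfl⟩
  rw [hsum]
  have h1 : ∑ c ∈ J, ∑ k ∈ Ico (A c) (A (c + 1)), (∑ i ∈ range r, u i k) * σ c k =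
      ∑ i ∈ range r, ∑ c ∈ J, ∑ k ∈ Ico (A c) (A (c + 1)), u i k * σ c k := by
    rw [sum_comm]
    refine sum_congr rfl fun c _ => ?_
    simp_rw [sum_mul]
    rw [sum_comm]
  rw [h1]
  refine le_trans (pairs hp hA r J _ a hη ha0 ha (fun i _ c hc => hV c hc _ (hu i)) ?_) ?_
  · intro i c _ hne
    obtain ⟨k, hk, hk'⟩ := exists_ne_zero_of_sum_ne_zero hne
    exact ⟨k, hs i k (left_ne_zero_of_mul hk'), mem_Ico.1 hk⟩
  · have : (r : ℝ) ≤ m := by exact_mod_cast hr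
    nlinarith

end Pool.Agent.MP_650c5e_an

end

section

/-! The estimate for rapidly increasing sequences. -/

namespace Pool.Agent.MP_650c5e_an

open Finset

open Classical in
/-- Indicator of the event that the support of `v` meets the `j`-th window. -/
noncomputable def ind (A : ℕ → ℕ) (v : ℕ → ℝ) (j : ℕ) : ℝ :=
  if ∃ k ∈ Ico (A j) (A (j + 1)), v k ≠ 0 then 1 else 0

lemma ind_nonneg (A v j) : 0 ≤ ind A v j := by unfold ind; split_ifs <;> norm_num

lemma ind_le_one (A v j) : ind A v j ≤ 1 := by unfold ind; split_ifs <;> norm_num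

lemma le_mul_ind {A : ℕ → ℕ} {v s : ℕ → ℝ} {j : ℕ} {c : ℝ}
    (h : ∑ i ∈ Ico (A j) (A (j + 1)), v i * s i ≤ c) :
    ∑ i ∈ Ico (A j) (A (j + 1)), v i * s i ≤ c * ind A v j := by
  unfold ind
  split_ifs with h'
  · simpa using h
  · push Not at h'
    rw [sum_eq_zero fun i hi => by rw [h' i hi, zero_mul]]; simp

lemma ris_aux {d n : ℕ} {A : ℕ → ℕ} (hA : Monotone A) {σ : ℕ → ℕ → ℝ}
    (hσ : ∀ j < n, σ j ∈ SB (R (A j))) (D : ℕ) (hD : D ≤ d + 1) :
    ∀ v, V v → ∑ j ∈ range n, ∑ i ∈ Ico (A j) (A (j + 1)), v i * σ j i ≤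
      (1 / 2 : ℝ) ^ D * ∑ j ∈ range n, ind A v j + 3 * (R d : ℝ) ^ D := by
  have hR : (1 : ℝ) ≤ R d := by exact_mod_cast R_pos d
  have hone : ∀ v, V v → ∀ j ∈ range n, ∑ i ∈ Ico (A j) (A (j + 1)), v i * σ j i ≤ 1 :=
    fun v hv j hj => hv.pair (R_pos _) (hσ j (mem_range.1 hj)) _
  induction D with
  | zero =>
    intro v hv
    have : ∑ j ∈ range n, ∑ i ∈ Ico (A j) (A (j + 1)), v i * σ j i ≤ ∑ j ∈ range n, ind A v j :=
      sum_le_sum fun j hj => by simpa using le_mul_ind (hone v hv j hj)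
    simp only [pow_zero]; linarith
  | succ D ih =>
    intro v hv
    have hJ : ∀ v, 0 ≤ ∑ j ∈ range n, ind A v j := fun v => sum_nonneg fun j _ => ind_nonneg _ _ _
    have hRD : (1 : ℝ) ≤ (R d : ℝ) ^ (D + 1) := one_le_pow₀ hR
    have hpos : 0 ≤ (1 / 2 : ℝ) ^ (D + 1) * ∑ j ∈ range n, ind A v j :=
      mul_nonneg (by positivity) (hJ v)
    cases hv with
    | zero => simp only [Pi.zero_apply, zero_mul, sum_const_zero]; linarith
    | base k =>
      have : ∑ j ∈ range n, ∑ i ∈ Ico (A j) (A (j + 1)), (Pi.single k (1 : ℝ) : ℕ → ℝ) i * σ j i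
          ≤ 1 := by
        refine sum_succ_le (u := fun j _ =>
          ∑ i ∈ Ico (A j) (A (j + 1)), (Pi.single k (1 : ℝ) : ℕ → ℝ) i * σ j i) hA zero_le_one _ k
          (fun j hj => hone _ (V.base k) j hj) fun j _ hne => ?_
        obtain ⟨i, hi, hi'⟩ := exists_ne_zero_of_sum_ne_zero hne
        have : i = k := by
          by_contra h
          simp [h] at hi'
        exact this ▸ mem_Ico.1 hi
      linarith
    | node d' r p u hd' hr hp hu hs =>
      set v : ℕ → ℝ := fun j => (1 / 2 : ℝ) ^ d' * ∑ i ∈ range r, u i j with hvdef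
      have hv : V v := V.node d' r p u hd' hr hp hu hs
      by_cases hcase : d' ≤ d
      · have hrR : (r : ℝ) ≤ R d := by exact_mod_cast hr.trans (R_mono hcase)
        have h1 : ∑ j ∈ range n, ∑ k ∈ Ico (A j) (A (j + 1)), v k * σ j k =
            (1 / 2 : ℝ) ^ d' * ∑ i ∈ range r, ∑ j ∈ range n,
              ∑ k ∈ Ico (A j) (A (j + 1)), u i k * σ j k := by
          rw [sum_comm (s := range r), mul_sum]
          refine sum_congr rfl fun j _ => ?_
          rw [sum_comm (s := range r), mul_sum]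
          refine sum_congr rfl fun k _ => ?_
          simp only [hvdef]
          rw [mul_assoc, sum_mul]
        have h2 : ∑ i ∈ range r, ∑ j ∈ range n, ind A (u i) j ≤
            ∑ j ∈ range n, ind A v j + r * 1 := by
          refine pairs hp hA r _ _ _ zero_le_one (fun c _ => ind_nonneg _ _ _)
            (fun c _ => ind_le_one _ _ _) (fun i hi c _ => ?_) (fun i c _ hne => ?_)
          · unfold ind
            split_ifs with h h'
            · exact le_rfl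
            · exfalso; apply h'
              obtain ⟨k, hk, hk'⟩ := h
              refine ⟨k, hk, ?_⟩
              have : 0 < ∑ i ∈ range r, u i k :=
                sum_pos' (fun i _ => ((hu i).bounds k).1)
                  ⟨i, hi, lt_of_le_of_ne ((hu i).bounds k).1 (Ne.symm hk')⟩
              simp only [hvdef]
              positivity
            · exact zero_le_one
            · exact le_rfl
          · unfold ind at hne
            split_ifs at hne with h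
            · obtain ⟨k, hk, hk'⟩ := h
              exact ⟨k, hs i k hk', mem_Ico.1 hk⟩
            · exact absurd rfl hne
        have h3 : ∑ i ∈ range r, ∑ j ∈ range n, ∑ k ∈ Ico (A j) (A (j + 1)), u i k * σ j k ≤
            (1 / 2 : ℝ) ^ D * (∑ j ∈ range n, ind A v j + r * 1) + r * (3 * (R d : ℝ) ^ D) := by
          calc _ ≤ ∑ i ∈ range r, ((1 / 2 : ℝ) ^ D * ∑ j ∈ range n, ind A (u i) j +
                3 * (R d : ℝ) ^ D) := sum_le_sum fun i _ => ih (by omega) _ (hu i)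
            _ = (1 / 2 : ℝ) ^ D * ∑ i ∈ range r, ∑ j ∈ range n, ind A (u i) j +
                r * (3 * (R d : ℝ) ^ D) := by
                rw [sum_add_distrib, ← mul_sum]; simp
            _ ≤ _ := by gcongr
        have h4 : (1 / 2 : ℝ) ^ d' ≤ 1 / 2 := by
          calc (1 / 2 : ℝ) ^ d' ≤ (1 / 2 : ℝ) ^ 1 :=
                pow_le_pow_of_le_one (by norm_num) (by norm_num) hd'
            _ = 1 / 2 := pow_one _
        have h5 : (1 / 2 : ℝ) ^ D ≤ 1 := pow_le_one₀ (by norm_num) (by norm_num)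
        have h6 : (0 : ℝ) ≤ (R d : ℝ) ^ D := by positivity
        have h7 : (R d : ℝ) ≤ (R d : ℝ) ^ (D + 1) := by
          rw [pow_succ]; nlinarith [one_le_pow₀ hR (n := D)]
        have h8 : (r : ℝ) * (R d : ℝ) ^ D ≤ (R d : ℝ) ^ (D + 1) := by
          rw [pow_succ]; nlinarith
        have h9 : (0 : ℝ) ≤ r := Nat.cast_nonneg r
        have h10 : (0 : ℝ) ≤ (1 / 2 : ℝ) ^ D := by positivity
        have h11 := hJ v
        rw [h1]
        calc _ ≤ (1 / 2 : ℝ) ^ d' * ((1 / 2 : ℝ) ^ D * (∑ j ∈ range n, ind A v j + r * 1) +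
              r * (3 * (R d : ℝ) ^ D)) := by gcongr
          _ ≤ (1 / 2 : ℝ) * ((1 / 2 : ℝ) ^ D * (∑ j ∈ range n, ind A v j + r * 1) +
              r * (3 * (R d : ℝ) ^ D)) := by gcongr
          _ ≤ _ := by
            rw [pow_succ (1 / 2 : ℝ)]
            nlinarith [mul_le_mul_of_nonneg_right h5 h9]
      · have hw : (fun j => ∑ i ∈ range r, u i j) ∈ VS (R d') := ⟨r, hr, p, u, hp, hu, hs, rfl⟩
        have hvle : ∀ k, v k ≤ (1 / 2 : ℝ) ^ d' := fun k => by
          have := (VS.bounds hw k).2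
          simp only [hvdef]
          exact mul_le_of_le_one_right (by positivity) this
        have hpow : (1 / 2 : ℝ) ^ d' ≤ (1 / 2 : ℝ) ^ (D + 1) :=
          pow_le_pow_of_le_one (by norm_num) (by norm_num) (by omega)
        have hg : ∀ j ∈ range n, ∑ k ∈ Ico (A j) (A (j + 1)), v k * σ j k ≤
            (1 / 2 : ℝ) ^ (D + 1) * ind A v j +
            ∑ k ∈ range d', v k * res (Ico (A j) (A (j + 1))) (σ j) k +
            (if A j ≤ d' ∧ d' < A (j + 1) then (1 : ℝ) else 0) := by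
          intro j hj
          have hσj := hσ j (mem_range.1 hj)
          have e1 : 0 ≤ (1 / 2 : ℝ) ^ (D + 1) * ind A v j :=
            mul_nonneg (by positivity) (ind_nonneg _ _ _)
          have e2 : 0 ≤ ∑ k ∈ range d', v k * res (Ico (A j) (A (j + 1))) (σ j) k :=
            sum_nonneg fun k _ => mul_nonneg (hv.bounds k).1 (res_nonneg hσj.1 k)
          have e3 : 0 ≤ (if A j ≤ d' ∧ d' < A (j + 1) then (1 : ℝ) else 0) := by
            split_ifs <;> norm_num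
          by_cases c1 : d' ≤ A j
          · have f1 := (SB_anti (R_mono c1) hσj).2 _ hw (Ico (A j) (A (j + 1)))
            have f2 : ∑ k ∈ Ico (A j) (A (j + 1)), v k * σ j k ≤ (1 / 2 : ℝ) ^ (D + 1) := by
              calc _ = (1 / 2 : ℝ) ^ d' *
                    ∑ k ∈ Ico (A j) (A (j + 1)), (∑ i ∈ range r, u i k) * σ j k := by
                    rw [mul_sum]
                    exact sum_congr rfl fun k _ => by simp only [hvdef]; ring
                _ ≤ (1 / 2 : ℝ) ^ d' * 1 := by gcongr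
                _ ≤ _ := by linarith
            linarith [le_mul_ind f2]
          · by_cases c2 : A (j + 1) ≤ d'
            · rw [sum_mul_res (fun k hk => mem_range.2 (by have := mem_Ico.1 hk; omega))]
              linarith
            · rw [if_pos ⟨by omega, by omega⟩]
              linarith [hone v hv j hj]
        have hs2 : ∑ j ∈ range n, ∑ k ∈ range d', v k * res (Ico (A j) (A (j + 1))) (σ j) k
            ≤ 1 := by
          rw [sum_comm]
          calc _ ≤ ∑ k ∈ range d', (1 / 2 : ℝ) ^ d' := by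
                refine sum_le_sum fun k _ => ?_
                rw [← mul_sum]
                have g1 : ∑ j ∈ range n, res (Ico (A j) (A (j + 1))) (σ j) k ≤ 1 :=
                  sum_succ_le (u := fun j => res (Ico (A j) (A (j + 1))) (σ j)) hA zero_le_one _ k
                    (fun j hj => (res_le (hσ j (mem_range.1 hj)).1 k).trans
                      (SB_le_one (R_pos _) _ (hσ j (mem_range.1 hj)) k))
                    fun j _ hne => mem_Ico.1 (mem_of_res_ne hne)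
                exact (mul_le_of_le_one_right (hv.bounds k).1 g1).trans (hvle k)
            _ = d' * (1 / 2 : ℝ) ^ d' := by simp
            _ ≤ 1 := by
                have : (d' : ℝ) ≤ 2 ^ d' := by exact_mod_cast Nat.lt_two_pow_self.le
                rw [one_div, inv_pow, ← div_eq_mul_inv, div_le_one (by positivity)]
                exact this
        have hs3 : ∑ j ∈ range n, (if A j ≤ d' ∧ d' < A (j + 1) then (1 : ℝ) else 0) ≤ 1 :=
          sum_succ_le (u := fun j _ => if A j ≤ d' ∧ d' < A (j + 1) then (1 : ℝ) else 0) hA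
            zero_le_one _ d' (fun j _ => by split_ifs <;> norm_num) fun j _ hne => by
              by_contra h; exact hne (if_neg h)
        have := sum_le_sum hg
        rw [sum_add_distrib, sum_add_distrib, ← mul_sum] at this
        linarith

/-- The sum of a rapidly increasing sequence of length `R d` is small. -/
lemma ris {d : ℕ} (hd : 1 ≤ d) {A : ℕ → ℕ} (hA : Monotone A) {σ : ℕ → ℕ → ℝ}
    (hσ : ∀ j < R d, σ j ∈ SB (R (A j))) :
    (fun i => (2 : ℝ) ^ d / (2 * R d) *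
      ∑ j ∈ range (R d), res (Ico (A j) (A (j + 1))) (σ j) i) ∈ SB 1 := by
  obtain ⟨e, rfl⟩ : ∃ e, d = e + 1 := ⟨d - 1, by omega⟩
  have hR : (0 : ℝ) < R (e + 1) := by exact_mod_cast R_pos (e + 1)
  refine ⟨fun i => mul_nonneg (by positivity)
    (sum_nonneg fun j hj => res_nonneg (hσ j (mem_range.1 hj)).1 i), fun v hv D => ?_⟩
  have hv' := VS.one hv
  have h1 := ris_aux (d := e) hA hσ (e + 1) le_rfl v hv'
  have h2 : ∑ j ∈ range (R (e + 1)), ind A v j ≤ R (e + 1) := by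
    calc _ ≤ ∑ j ∈ range (R (e + 1)), (1 : ℝ) := sum_le_sum fun j _ => ind_le_one _ _ _
      _ = _ := by simp
  have h3 : (3 : ℝ) * 2 ^ (e + 1) * (R e : ℝ) ^ (e + 1) ≤ R (e + 1) := by
    exact_mod_cast R_succ_ge e
  have h4 : ∑ i ∈ D, v i * ∑ j ∈ range (R (e + 1)), res (Ico (A j) (A (j + 1))) (σ j) i ≤
      ∑ j ∈ range (R (e + 1)), ∑ i ∈ Ico (A j) (A (j + 1)), v i * σ j i := by
    simp_rw [mul_sum]
    rw [sum_comm]
    refine sum_le_sum fun j hj => ?_
    rw [← sum_mul_res (subset_union_right (s₁ := D) (s₂ := Ico (A j) (A (j + 1)))) v (σ j)]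
    exact sum_le_sum_of_subset_of_nonneg subset_union_left fun i _ _ =>
      mul_nonneg (hv'.bounds i).1 (res_nonneg (hσ j (mem_range.1 hj)).1 i)
  have h5 : (1 / 2 : ℝ) ^ (e + 1) * 2 ^ (e + 1) = 1 := by rw [← mul_pow]; norm_num
  have h6 : (0 : ℝ) < 2 ^ (e + 1) := by positivity
  have h7 : (0 : ℝ) < (1 / 2 : ℝ) ^ (e + 1) := by positivity
  calc _ = (2 : ℝ) ^ (e + 1) / (2 * R (e + 1)) *
        ∑ i ∈ D, v i * ∑ j ∈ range (R (e + 1)), res (Ico (A j) (A (j + 1))) (σ j) i := by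
        rw [mul_sum]; exact sum_congr rfl fun i _ => by ring
    _ ≤ (2 : ℝ) ^ (e + 1) / (2 * R (e + 1)) *
        ((1 / 2 : ℝ) ^ (e + 1) * R (e + 1) + 3 * (R e : ℝ) ^ (e + 1)) := by
        gcongr
        refine h4.trans (h1.trans ?_)
        gcongr
    _ ≤ 1 := by
        rw [div_mul_eq_mul_div, div_le_one (by positivity)]
        nlinarith

end Pool.Agent.MP_650c5e_an

end

section

/-! Weighted geometric means, entropy maximisers and concentration. -/

namespace Pool.Agent.MP_650c5e_an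

open Finset

/-- The (multiplicative) entropy of `t` with respect to the weights `y` on `D`. -/
noncomputable def PP (y : ℕ → ℝ) (D : Finset ℕ) (t : ℕ → ℝ) : ℝ := ∏ i ∈ D, t i ^ y i

variable {y : ℕ → ℝ} {D : Finset ℕ}

lemma PP_nonneg {t : ℕ → ℝ} (ht : ∀ i ∈ D, 0 ≤ t i) : 0 ≤ PP y D t :=
  prod_nonneg fun i hi => Real.rpow_nonneg (ht i hi) _

lemma PP_pos (hy : ∀ i, 0 ≤ y i) {t : ℕ → ℝ} (ht : ∀ i ∈ D, 0 < y i → 0 < t i) : 0 < PP y D t :=
  prod_pos fun i hi => by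
    rcases (hy i).eq_or_lt with h | h
    · rw [← h, Real.rpow_zero]; exact one_pos
    · exact Real.rpow_pos_of_pos (ht i hi h) _

lemma PP_congr (hy : ∀ i, 0 ≤ y i) {t u : ℕ → ℝ} (h : ∀ i ∈ D, 0 < y i → t i = u i) :
    PP y D t = PP y D u :=
  prod_congr rfl fun i hi => by
    rcases (hy i).eq_or_lt with h0 | h0
    · rw [← h0, Real.rpow_zero, Real.rpow_zero]
    · rw [h i hi h0]

lemma PP_mono (hy : ∀ i, 0 ≤ y i) {t u : ℕ → ℝ} (ht : ∀ i ∈ D, 0 ≤ t i)
    (h : ∀ i ∈ D, 0 < y i → t i ≤ u i) : PP y D t ≤ PP y D u :=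
  prod_le_prod (fun i hi => Real.rpow_nonneg (ht i hi) _) fun i hi => by
    rcases (hy i).eq_or_lt with h0 | h0
    · rw [← h0, Real.rpow_zero, Real.rpow_zero]
    · exact Real.rpow_le_rpow (ht i hi) (h i hi h0) h0.le

lemma PP_mul {t u : ℕ → ℝ} (ht : ∀ i ∈ D, 0 ≤ t i) (hu : ∀ i ∈ D, 0 ≤ u i) :
    PP y D (fun i => t i * u i) = PP y D t * PP y D u := by
  unfold PP
  rw [← prod_mul_distrib]
  exact prod_congr rfl fun i hi => Real.mul_rpow (ht i hi) (hu i hi)

lemma PP_const (hy : ∀ i, 0 ≤ y i) {c : ℝ} (hc : 0 ≤ c) :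
    PP y D (fun _ => c) = c ^ (∑ i ∈ D, y i) :=
  (Real.rpow_sum_of_nonneg hc fun i _ => hy i).symm

lemma PP_rpow {t : ℕ → ℝ} (ht : ∀ i ∈ D, 0 ≤ t i) (g : ℝ) :
    PP y D (fun i => t i ^ g) = PP y D t ^ g := by
  unfold PP
  rw [← Real.finsetProd_rpow _ _ fun i hi => Real.rpow_nonneg (ht i hi) _]
  exact prod_congr rfl fun i hi => by
    rw [← Real.rpow_mul (ht i hi), ← Real.rpow_mul (ht i hi), mul_comm]

lemma PP_prod (J : Finset ℕ) {t : ℕ → ℕ → ℝ} (ht : ∀ k ∈ J, ∀ i ∈ D, 0 ≤ t k i) :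
    PP y D (fun i => ∏ k ∈ J, t k i) = ∏ k ∈ J, PP y D (t k) := by
  unfold PP
  rw [prod_comm]
  exact prod_congr rfl fun i hi => (Real.finsetProd_rpow _ _ (fun k hk => ht k hk i hi) _).symm

lemma PP_le_exp {t g : ℕ → ℝ} (ht : ∀ i ∈ D, 0 ≤ t i) (h : ∀ i ∈ D, t i ^ y i ≤ Real.exp (g i)) :
    PP y D t ≤ Real.exp (∑ i ∈ D, g i) := by
  rw [Real.exp_sum]
  exact prod_le_prod (fun i hi => Real.rpow_nonneg (ht i hi) _) h

lemma rpow_le_exp_mul {r a b : ℝ} (hr : 0 ≤ r) (hb : 0 ≤ b) (h : r ≤ Real.exp a) :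
    r ^ b ≤ Real.exp (b * a) := by
  rw [mul_comm, Real.exp_mul]
  exact Real.rpow_le_rpow hr h hb

lemma le_exp_sub_one (r : ℝ) : r ≤ Real.exp (r - 1) := by
  linarith [Real.add_one_le_exp (r - 1)]

lemma PP_le_exp_sub (hy : ∀ i, 0 ≤ y i) {r : ℕ → ℝ} (hr : ∀ i ∈ D, 0 ≤ r i) :
    PP y D r ≤ Real.exp (∑ i ∈ D, y i * r i - ∑ i ∈ D, y i) := by
  rw [← sum_sub_distrib]
  refine PP_le_exp hr fun i hi => ?_
  rw [show y i * r i - y i = y i * (r i - 1) by ring]
  exact rpow_le_exp_mul (hr i hi) (hy i) (le_exp_sub_one _)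

lemma PP_le_one (hy : ∀ i, 0 ≤ y i) {r : ℕ → ℝ} (hr : ∀ i ∈ D, 0 ≤ r i)
    (h : ∑ i ∈ D, y i * r i ≤ ∑ i ∈ D, y i) : PP y D r ≤ 1 :=
  (PP_le_exp_sub hy hr).trans (Real.exp_le_one_iff.2 (by linarith))

lemma PP_div (hy : ∀ i, 0 ≤ y i) {t w : ℕ → ℝ} (ht : ∀ i ∈ D, 0 ≤ t i) (hw : ∀ i ∈ D, 0 ≤ w i)
    (hw' : ∀ i ∈ D, 0 < y i → 0 < w i) :
    PP y D t = PP y D (fun i => t i / w i) * PP y D w := by
  rw [← PP_mul (fun i hi => div_nonneg (ht i hi) (hw i hi)) hw]
  exact PP_congr hy fun i hi h => by rw [div_mul_cancel₀ _ (hw' i hi h).ne']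

lemma prod_blocks {M : Type*} [CommMonoid M] {A : ℕ → ℕ} (hA : Monotone A) (f : ℕ → M) (a b : ℕ)
    (hab : a ≤ b) :
    ∏ j ∈ Ico a b, ∏ i ∈ Ico (A j) (A (j + 1)), f i = ∏ i ∈ Ico (A a) (A b), f i := by
  induction b, hab using Nat.le_induction with
  | base => simp
  | succ b hab ih =>
    rw [prod_Ico_succ_top hab, ih, prod_Ico_consecutive _ (hA hab) (hA (Nat.le_succ b))]

lemma sum_blocks {A : ℕ → ℕ} (hA : Monotone A) (f : ℕ → ℝ) (a b : ℕ) (hab : a ≤ b) :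
    ∑ j ∈ Ico a b, ∑ i ∈ Ico (A j) (A (j + 1)), f i = ∑ i ∈ Ico (A a) (A b), f i := by
  induction b, hab using Nat.le_induction with
  | base => simp
  | succ b hab ih =>
    rw [sum_Ico_succ_top hab, ih, sum_Ico_consecutive _ (hA hab) (hA (Nat.le_succ b))]

/-- Concentration: a ratio with mean at most one and almost full entropy is close to one. -/
lemma conc (hy : ∀ i, 0 ≤ y i) {r : ℕ → ℝ} (hr : ∀ i ∈ D, 0 ≤ r i)
    (h : ∑ i ∈ D, y i * r i ≤ ∑ i ∈ D, y i) {ε : ℝ} (hε : Real.exp (-ε) ≤ PP y D r) :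
    ∑ i ∈ D, (if 2 < r i ∨ r i < 1 / 2 then y i else 0) ≤ 6 * ε := by
  have h1 : PP y D r ≤ Real.exp (∑ i ∈ D, (y i * r i - y i -
      (if 2 < r i ∨ r i < 1 / 2 then y i else 0) / 6)) := by
    refine PP_le_exp hr fun i hi => ?_
    split_ifs with hb
    · rw [show y i * r i - y i - y i / 6 = y i * (r i - 1 - 1 / 6) by ring]
      refine rpow_le_exp_mul (hr i hi) (hy i) ?_
      rcases (hr i hi).eq_or_lt with h0 | h0
      · rw [← h0]; positivity
      rw [← Real.log_le_iff_le_exp h0]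
      have l1 := Real.log_two_gt_d9
      have l2 := Real.log_two_lt_d9
      rcases hb with hb | hb
      · have e1 : Real.log (r i) = Real.log 2 + Real.log (r i / 2) := by
          rw [Real.log_div h0.ne' two_ne_zero]; ring
        have e2 := Real.log_le_sub_one_of_pos (show 0 < r i / 2 by positivity)
        linarith
      · have e1 : Real.log (r i) = Real.log (2 * r i) - Real.log 2 := by
          rw [Real.log_mul two_ne_zero h0.ne']; ring
        have e2 := Real.log_le_sub_one_of_pos (show 0 < 2 * r i by positivity)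
        linarith
    · rw [show y i * r i - y i - 0 / 6 = y i * (r i - 1) by ring]
      exact rpow_le_exp_mul (hr i hi) (hy i) (le_exp_sub_one _)
  have h2 := Real.exp_le_exp.1 (hε.trans h1)
  rw [sum_sub_distrib, sum_sub_distrib, ← sum_div] at h2
  linarith

/-- A subprobability vector with almost full entropy has little mass where `y` has little mass. -/
lemma conc_mass (hy : ∀ i, 0 ≤ y i) {h : ℕ → ℝ} (hh : ∀ i ∈ D, 0 ≤ h i)
    (h1 : ∑ i ∈ D, h i ≤ ∑ i ∈ D, y i) {ε : ℝ}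
    (hε : Real.exp (-ε) ≤ PP y D fun i => h i / y i) (G : Finset ℕ) :
    ∑ i ∈ D, (if i ∈ G then 0 else h i) ≤ 2 * ε + 2 * ∑ i ∈ D, (if i ∈ G then 0 else y i) := by
  have h2 : PP y D (fun i => h i / y i) ≤ Real.exp (∑ i ∈ D, (h i - y i -
      (if i ∈ G then 0 else h i) / 2 + (if i ∈ G then 0 else y i))) := by
    refine PP_le_exp (fun i hi => div_nonneg (hh i hi) (hy i)) fun i hi => ?_
    have h0 := hh i hi
    rcases (hy i).eq_or_lt with hy0 | hy0
    · rw [← hy0, Real.rpow_zero]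
      refine Real.one_le_exp ?_
      split_ifs <;> linarith
    · have hr : 0 ≤ h i / y i := div_nonneg h0 hy0.le
      split_ifs with hG
      · rw [show h i - y i - 0 / 2 + 0 = y i * (h i / y i - 1) by field_simp; ring]
        exact rpow_le_exp_mul hr hy0.le (le_exp_sub_one _)
      · rw [show h i - y i - h i / 2 + y i = y i * (h i / y i / 2) by field_simp; ring]
        refine rpow_le_exp_mul hr hy0.le ?_
        have := Real.quadratic_le_exp_of_nonneg (show 0 ≤ h i / y i / 2 by positivity)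
        nlinarith [sq_nonneg (h i / y i - 2)]
  have h3 := Real.exp_le_exp.1 (hε.trans h2)
  rw [sum_add_distrib, sum_sub_distrib, sum_sub_distrib, ← sum_div] at h3
  linarith

/-- `w` maximises the entropy over `S`, in first-order form. -/
def IsOpt (S : Set (ℕ → ℝ)) (y : ℕ → ℝ) (D : Finset ℕ) (w : ℕ → ℝ) : Prop :=
  w ∈ S ∧ (∀ i ∈ D, 0 < y i → 0 < w i) ∧ ∀ t ∈ S, ∑ i ∈ D, y i * (t i / w i) ≤ ∑ i ∈ D, y i

lemma exists_opt (hy : ∀ i, 0 ≤ y i) (D : Finset ℕ) {n : ℕ} (hn : 1 ≤ n) :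
    ∃ w, IsOpt (BB n) y D w := by
  have hcomp : IsCompact (BB n) :=
    (isCompact_Icc (a := (0 : ℕ → ℝ)) (b := 1)).of_isClosed_subset polar.isClosed
      fun t ht => ⟨fun i => ht.1 i, fun i => BB_le_one n t ht i⟩
  have hcont : Continuous (PP y D) :=
    continuous_finsetProd _ fun i _ =>
      (Real.continuous_rpow_const (hy i)).comp (continuous_apply i)
  set c : ℝ := 1 / (D.card + 1) with hc
  have hcpos : 0 < c := by positivity
  have hmem : res D (fun _ => c) ∈ BB n := by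
    refine mem_BB_of_sum_le hn (res_nonneg fun _ => hcpos.le) fun E => ?_
    have := sum_res_mul (E := E) (W := D) (fun _ => c) (fun _ => 1)
    simp only [mul_one] at this
    rw [this, sum_const, nsmul_eq_mul, hc, mul_one_div, div_le_one (by positivity)]
    have : (E ∩ D).card ≤ D.card := card_le_card inter_subset_right
    have : ((E ∩ D).card : ℝ) ≤ D.card := by exact_mod_cast this
    linarith
  obtain ⟨w, hw, hmax⟩ := hcomp.exists_isMaxOn ⟨_, hmem⟩ hcont.continuousOn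
  have hwpos : ∀ i ∈ D, 0 < y i → 0 < w i := by
    have h1 : 0 < PP y D w :=
      lt_of_lt_of_le (PP_pos hy fun i hi _ => by rw [res_of_mem hi]; exact hcpos) (hmax hmem)
    intro i hi hyi
    refine lt_of_le_of_ne (hw.1 i) fun h0 => h1.ne' ?_
    exact prod_eq_zero hi (by rw [← h0, Real.zero_rpow hyi.ne'])
  refine ⟨w, hw, hwpos, fun t ht => ?_⟩
  have hPw : 0 < PP y D w := PP_pos hy hwpos
  set ρ : ℕ → ℝ := fun i => t i / w i - 1 with hρ
  have hρ1 : ∀ i, -1 ≤ ρ i := fun i => by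
    have := div_nonneg (ht.1 i) (hw.1 i); simp only [hρ]; linarith
  have key : ∀ l : ℝ, 0 < l → l < 1 → ∑ i ∈ D, y i * (ρ i / (1 + l * ρ i)) ≤ 0 := by
    intro l hl0 hl1
    have hpos : ∀ i, 0 < 1 + l * ρ i := fun i => by nlinarith [hρ1 i]
    have hm : (fun i => (1 - l) * w i + l * t i) ∈ BB n :=
      polar.comb2 (by linarith) hl0.le (by linarith) hw ht
    have h1 : PP y D (fun i => (1 - l) * w i + l * t i) ≤ PP y D w := hmax hm
    have h2 : PP y D (fun i => (1 - l) * w i + l * t i) =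
        PP y D (fun i => 1 + l * ρ i) * PP y D w := by
      rw [← PP_mul (fun i _ => (hpos i).le) fun i _ => hw.1 i]
      refine PP_congr hy fun i hi h => ?_
      have := (hwpos i hi h).ne'
      simp only [hρ]; field_simp; ring
    have h3 : PP y D (fun i => 1 + l * ρ i) ≤ 1 := by
      rw [h2] at h1
      exact (mul_le_iff_le_one_left hPw).1 h1
    have h4 : Real.exp (∑ i ∈ D, y i * (l * ρ i / (1 + l * ρ i))) ≤
        PP y D (fun i => 1 + l * ρ i) := by
      rw [Real.exp_sum]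
      refine prod_le_prod (fun i _ => (Real.exp_pos _).le) fun i _ => ?_
      rw [mul_comm, Real.exp_mul]
      refine Real.rpow_le_rpow (Real.exp_pos _).le ?_ (hy i)
      rw [← Real.le_log_iff_exp_le (hpos i)]
      have := Real.one_sub_inv_le_log_of_pos (hpos i)
      have e : l * ρ i / (1 + l * ρ i) = 1 - (1 + l * ρ i)⁻¹ := by
        have := (hpos i).ne'
        field_simp; ring
      rw [e]; exact this
    have h5 := Real.exp_le_one_iff.1 (h4.trans h3)
    have h6 : ∑ i ∈ D, y i * (l * ρ i / (1 + l * ρ i)) =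
        l * ∑ i ∈ D, y i * (ρ i / (1 + l * ρ i)) := by
      rw [mul_sum]; exact sum_congr rfl fun i _ => by ring
    rw [h6] at h5
    exact le_of_mul_le_mul_left (by simpa using h5) hl0
  have hlim : Filter.Tendsto (fun l : ℝ => ∑ i ∈ D, y i * (ρ i / (1 + l * ρ i)))
      (nhdsWithin 0 (Set.Ioi 0)) (nhds (∑ i ∈ D, y i * (ρ i / (1 + 0 * ρ i)))) := by
    refine Filter.Tendsto.mono_left ?_ nhdsWithin_le_nhds
    refine tendsto_finsetSum _ fun i _ => ?_
    refine Filter.Tendsto.const_mul _ (Filter.Tendsto.div tendsto_const_nhds ?_ (by simp))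
    exact (Continuous.tendsto (by fun_prop) 0)
  have h7 : ∑ i ∈ D, y i * (ρ i / (1 + 0 * ρ i)) ≤ 0 := by
    refine le_of_tendsto hlim ?_
    filter_upwards [Ioo_mem_nhdsGT (show (0 : ℝ) < 1 by norm_num)] with l hl
    exact key l hl.1 hl.2
  have h8 : ∑ i ∈ D, y i * (ρ i / (1 + 0 * ρ i)) =
      ∑ i ∈ D, y i * (t i / w i) - ∑ i ∈ D, y i := by
    rw [← sum_sub_distrib]
    exact sum_congr rfl fun i _ => by simp only [hρ]; ring
  linarith

lemma IsOpt.le {n : ℕ} {w : ℕ → ℝ} (hy : ∀ i, 0 ≤ y i) (h : IsOpt (BB n) y D w) {t : ℕ → ℝ}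
    (ht : t ∈ BB n) : PP y D t ≤ PP y D w := by
  rw [PP_div hy (fun i _ => ht.1 i) (fun i _ => h.1.1 i) h.2.1]
  exact mul_le_of_le_one_left (PP_nonneg fun i _ => h.1.1 i)
    (PP_le_one hy (fun i _ => div_nonneg (ht.1 i) (h.1.1 i)) (h.2.2 t ht))

lemma IsOpt.pos {n : ℕ} {w : ℕ → ℝ} (hy : ∀ i, 0 ≤ y i) (h : IsOpt (BB n) y D w) :
    0 < PP y D w := PP_pos hy h.2.1

lemma IsOpt.dual {n : ℕ} {w : ℕ → ℝ} (hy : ∀ i, 0 ≤ y i) (h : IsOpt (BB n) y D w) {c : ℝ}
    (hc : 0 < c) (hyc : ∑ i ∈ D, y i ≤ c) :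
    (fun i => c⁻¹ * res D (fun i => y i / w i) i) ∈ SB n :=
  polar.scale (VS_nonneg n) (fun i => div_nonneg (hy i) (h.1.1 i)) D hc fun v hv =>
    le_trans (le_of_eq (sum_congr rfl fun i _ => by ring))
      ((h.2.2 v (VS_subset_BB n hv)).trans hyc)

/-- Lozanovskii factorisation. -/
lemma lozanovskii {h : ℕ → ℝ} (h0 : ∀ i, 0 ≤ h i) (D : Finset ℕ) (h1 : ∑ i ∈ D, h i ≤ 1) :
    ∃ s ∈ SB 1, ∃ t ∈ BB 1, ∀ i ∈ D, h i = s i * t i := by
  obtain ⟨w, hw⟩ := exists_opt h0 D le_rfl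
  refine ⟨_, hw.dual h0 one_pos h1, w, hw.1, fun i hi => ?_⟩
  rw [res_of_mem hi]
  rcases (h0 i).eq_or_lt with e | e
  · rw [← e]; simp
  · have := (hw.2.1 i hi e).ne'
    field_simp

end Pool.Agent.MP_650c5e_an

end

section

/-! The parameters of the construction. -/

namespace Pool.Agent.MP_650c5e_an

open Finset

/-- The pair (depth, reciprocal of the tail weight). -/
def par : ℕ → ℕ × ℕ
  | 0 => (0, 1)
  | k + 1 =>
    ((par k).1 + 1 + 2 * (k + 1) * ((par k).2 * (2 * (k + 1) *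
      pat (2 * (k + 1) * R (par k).1) ((2 * (k + 1) * R (par k).1) ^ 2) * R (par k).1)),
    (par k).2 * (2 * (k + 1) *
      pat (2 * (k + 1) * R (par k).1) ((2 * (k + 1) * R (par k).1) ^ 2) * R (par k).1))

def dk (k : ℕ) : ℕ := (par k).1

def Gk (k : ℕ) : ℕ := (par k).2

def nk (k : ℕ) : ℕ := R (dk k)

def dw (k : ℕ) : ℕ := 2 * (k + 1) * nk k

def Mk (k : ℕ) : ℕ := pat (dw k) (dw k ^ 2)

lemma Gk_succ (k : ℕ) : Gk (k + 1) = Gk k * (2 * (k + 1) * Mk k * nk k) := rfl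

lemma dk_succ (k : ℕ) : dk (k + 1) = dk k + 1 + 2 * (k + 1) * Gk (k + 1) := rfl

lemma dk_zero : dk 0 = 0 := rfl

lemma Gk_zero : Gk 0 = 1 := rfl

lemma nk_zero : nk 0 = 1 := rfl

lemma nk_pos (k : ℕ) : 1 ≤ nk k := R_pos _

lemma dw_pos (k : ℕ) : 1 ≤ dw k := by
  have := nk_pos k
  unfold dw; nlinarith

lemma pat_pos {N : ℕ} (hN : 1 ≤ N) (a : ℕ) : 1 ≤ pat N a := by
  induction a with
  | zero => exact le_rfl
  | succ a ih => exact Nat.one_le_pow _ _ (Nat.mul_pos ih hN)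

lemma pat_dvd_succ (N a : ℕ) : pat N a ∣ pat N (a + 1) := by
  show pat N a ∣ (pat N a * N) ^ 2
  exact Dvd.intro (N * (pat N a * N)) (by ring)

lemma pat_dvd (N : ℕ) {a b : ℕ} (h : a ≤ b) : pat N a ∣ pat N b := by
  induction b, h using Nat.le_induction with
  | base => exact dvd_rfl
  | succ b _ ih => exact ih.trans (pat_dvd_succ N b)

lemma Mk_pos (k : ℕ) : 1 ≤ Mk k := pat_pos (dw_pos k) _

lemma Mk_le_R (k : ℕ) : Mk k ≤ R (dw k) := pat_le_R _ (dw_pos k)

lemma Gk_pos (k : ℕ) : 1 ≤ Gk k := by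
  induction k with
  | zero => exact le_rfl
  | succ k ih =>
    rw [Gk_succ]
    exact Nat.mul_pos ih (Nat.mul_pos (Nat.mul_pos (by omega) (Mk_pos k)) (nk_pos k))

lemma dk_strictMono : StrictMono dk :=
  strictMono_nat_of_lt_succ fun k => by rw [dk_succ]; omega

lemma nk_mono : Monotone nk := fun _ _ h => R_mono (dk_strictMono.monotone h)

lemma le_dk (k : ℕ) : k ≤ dk k := dk_strictMono.le_apply

lemma le_nk (k : ℕ) : k ≤ nk k := (le_dk k).trans R_strictMono.le_apply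

/-- Tail weights. -/
noncomputable def Gam (k : ℕ) : ℝ := 1 / Gk k

/-- Weights. -/
noncomputable def gam (k : ℕ) : ℝ := Gam k - Gam (k + 1)

lemma Gam_zero : Gam 0 = 1 := by simp [Gam, Gk_zero]

lemma Gam_pos (k : ℕ) : 0 < Gam k := by
  have : (0 : ℝ) < Gk k := by exact_mod_cast Gk_pos k
  unfold Gam; positivity

lemma Gam_le_one (k : ℕ) : Gam k ≤ 1 := by
  have : (1 : ℝ) ≤ Gk k := by exact_mod_cast Gk_pos k
  unfold Gam
  rw [div_le_one (by positivity)]; exact this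

lemma Gam_succ (k : ℕ) : Gam (k + 1) * (2 * (k + 1) * Mk k * nk k) = Gam k := by
  have h1 : (0 : ℝ) < Gk k := by exact_mod_cast Gk_pos k
  have h2 : (0 : ℝ) < Mk k := by exact_mod_cast Mk_pos k
  have h3 : (0 : ℝ) < nk k := by exact_mod_cast nk_pos k
  unfold Gam
  rw [Gk_succ]; push_cast; field_simp

lemma Gam_succ_le (k : ℕ) : 2 * Gam (k + 1) ≤ Gam k := by
  have h2 : (1 : ℝ) ≤ Mk k := by exact_mod_cast Mk_pos k
  have h3 : (1 : ℝ) ≤ nk k := by exact_mod_cast nk_pos k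
  have h4 : (1 : ℝ) ≤ k + 1 := by linarith [Nat.cast_nonneg (α := ℝ) k]
  have h5 : (1 : ℝ) ≤ (k + 1) * Mk k * nk k :=
    one_le_mul_of_one_le_of_one_le (one_le_mul_of_one_le_of_one_le h4 h2) h3
  have := Gam_succ k
  nlinarith [Gam_pos (k + 1)]

lemma Gam_succ_mul_M (k : ℕ) : Gam (k + 1) * Mk k ≤ 1 / (k + 1) := by
  have h2 : (1 : ℝ) ≤ Mk k := by exact_mod_cast Mk_pos k
  have h3 : (1 : ℝ) ≤ nk k := by exact_mod_cast nk_pos k
  have h4 : (0 : ℝ) < k + 1 := by positivity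
  have h5 := Gam_succ k
  have h6 := Gam_le_one k
  have h7 : 0 < Gam (k + 1) * Mk k * (k + 1) := by have := Gam_pos (k + 1); positivity
  rw [le_div_iff₀ h4]
  nlinarith

lemma Gam_succ_mul_n (k : ℕ) : Gam (k + 1) * nk k ≤ 1 := by
  have h2 : (1 : ℝ) ≤ Mk k := by exact_mod_cast Mk_pos k
  have h3 : (1 : ℝ) ≤ nk k := by exact_mod_cast nk_pos k
  have h4 : (1 : ℝ) ≤ k + 1 := by linarith [Nat.cast_nonneg (α := ℝ) k]
  have h5 := Gam_succ k
  have h6 := Gam_le_one k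
  have h7 : 0 < Gam (k + 1) * nk k := by have := Gam_pos (k + 1); positivity
  have h8 : (1 : ℝ) ≤ (k + 1) * Mk k := one_le_mul_of_one_le_of_one_le h4 h2
  nlinarith

lemma Gam_anti : Antitone Gam :=
  antitone_nat_of_succ_le fun k => by linarith [Gam_succ_le k, Gam_pos (k + 1)]

lemma gam_ge (k : ℕ) : Gam k / 2 ≤ gam k := by
  unfold gam; linarith [Gam_succ_le k]

lemma gam_pos (k : ℕ) : 0 < gam k := lt_of_lt_of_le (half_pos (Gam_pos k)) (gam_ge k)

lemma sum_gam {a b : ℕ} (h : a ≤ b) : ∑ k ∈ Ico a b, gam k = Gam a - Gam b := by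
  induction b, h using Nat.le_induction with
  | base => simp
  | succ b hab ih => rw [sum_Ico_succ_top hab, ih]; unfold gam; ring

lemma sum_gam_range (b : ℕ) : ∑ k ∈ range b, gam k = 1 - Gam b := by
  rw [range_eq_Ico, sum_gam (Nat.zero_le b), Gam_zero]

lemma le_dk_mul_gam (k : ℕ) : (k : ℝ) ≤ dk k * gam k := by
  cases k with
  | zero => simp [dk_zero]
  | succ k =>
    have h1 : (2 : ℝ) * (k + 1) * Gk (k + 1) ≤ dk (k + 1) := by
      have : 2 * (k + 1) * Gk (k + 1) ≤ dk (k + 1) := by rw [dk_succ]; omega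
      exact_mod_cast this
    have h2 : (0 : ℝ) < Gk (k + 1) := by exact_mod_cast Gk_pos (k + 1)
    have h3 : Gam (k + 1) * Gk (k + 1) = 1 := by unfold Gam; field_simp
    have h4 := gam_ge (k + 1)
    have h5 := Gam_pos (k + 1)
    push_cast
    calc (k : ℝ) + 1 = 2 * (k + 1) * Gk (k + 1) * (Gam (k + 1) / 2) := by
          linear_combination (-(k : ℝ) - 1) * h3
      _ ≤ dk (k + 1) * gam (k + 1) := by gcongr

lemma exists_Gam_le {ε : ℝ} (hε : 0 < ε) : ∃ k, 1 ≤ k ∧ Gam k ≤ ε := by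
  obtain ⟨k, hk⟩ := exists_nat_one_div_lt hε
  refine ⟨k + 1, by omega, ?_⟩
  have h2 : (1 : ℝ) ≤ Mk k := by exact_mod_cast Mk_pos k
  nlinarith [Gam_succ_mul_M k, Gam_pos (k + 1)]

lemma Gam_one_le : Gam 1 ≤ 1 / 2 := by linarith [Gam_succ_le 0, Gam_zero]

end Pool.Agent.MP_650c5e_an

end

section

/-! The unit balls of the Calderon products. -/

namespace Pool.Agent.MP_650c5e_an

open Finset

lemma amgm {κ : Type*} (F : Finset κ) (g r : κ → ℝ) (hg : ∀ k ∈ F, 0 ≤ g k)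
    (hg1 : ∑ k ∈ F, g k ≤ 1) (hr : ∀ k ∈ F, 0 ≤ r k) :
    ∏ k ∈ F, r k ^ g k ≤ ∑ k ∈ F, g k * r k + (1 - ∑ k ∈ F, g k) := by
  have := Real.geom_mean_le_arith_mean_weighted (insertNone F)
    (fun o => o.elim (1 - ∑ k ∈ F, g k) g) (fun o => o.elim 1 r)
    (by
      intro o ho
      cases o with
      | none => simpa using hg1
      | some k => exact hg k (some_mem_insertNone.1 ho))
    (by simp [sum_insertNone])
    (by
      intro o ho
      cases o with
      | none => simp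
      | some k => exact hr k (some_mem_insertNone.1 ho))
  simp only [prod_insertNone, sum_insertNone, Option.elim_none, Option.elim_some, Real.one_rpow,
    one_mul, mul_one] at this
  linarith

lemma gm_concave {ι κ : Type*} (J : Finset ι) (w : ι → ℝ) (hw : ∀ j ∈ J, 0 ≤ w j)
    (hw1 : ∑ j ∈ J, w j ≤ 1) (F : Finset κ) (g : κ → ℝ) (hg : ∀ k ∈ F, 0 ≤ g k)
    (hg1 : ∑ k ∈ F, g k ≤ 1) (a : ι → κ → ℝ) (ha : ∀ j ∈ J, ∀ k ∈ F, 0 ≤ a j k) :
    ∑ j ∈ J, w j * ∏ k ∈ F, a j k ^ g k ≤ ∏ k ∈ F, (∑ j ∈ J, w j * a j k) ^ g k := by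
  have hc : ∀ k ∈ F, 0 ≤ ∑ j ∈ J, w j * a j k :=
    fun k hk => sum_nonneg fun j hj => mul_nonneg (hw j hj) (ha j hj k hk)
  have hP : 0 ≤ ∏ k ∈ F, (∑ j ∈ J, w j * a j k) ^ g k :=
    prod_nonneg fun k hk => Real.rpow_nonneg (hc k hk) _
  by_cases h : ∃ k ∈ F, g k ≠ 0 ∧ ∑ j ∈ J, w j * a j k = 0
  · obtain ⟨k, hk, hgk, h0⟩ := h
    rw [sum_eq_zero]
    · exact hP
    · intro j hj
      have := (sum_eq_zero_iff_of_nonneg fun j hj => mul_nonneg (hw j hj) (ha j hj k hk)).1 h0 j hj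
      rcases mul_eq_zero.1 this with h1 | h1
      · rw [h1, zero_mul]
      · rw [prod_eq_zero hk (by rw [h1, Real.zero_rpow hgk]), mul_zero]
  · push Not at h
    have h1 : ∀ j ∈ J, ∏ k ∈ F, a j k ^ g k =
        (∏ k ∈ F, (a j k / ∑ j ∈ J, w j * a j k) ^ g k) *
          ∏ k ∈ F, (∑ j ∈ J, w j * a j k) ^ g k := by
      intro j hj
      rw [← prod_mul_distrib]
      refine prod_congr rfl fun k hk => ?_
      by_cases hgk : g k = 0
      · simp [hgk]
      · rw [← Real.mul_rpow (div_nonneg (ha j hj k hk) (hc k hk)) (hc k hk),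
          div_mul_cancel₀ _ (h k hk hgk)]
    have h2 : ∑ j ∈ J, w j * ∏ k ∈ F, (a j k / ∑ j ∈ J, w j * a j k) ^ g k ≤ 1 := by
      calc _ ≤ ∑ j ∈ J, w j * (∑ k ∈ F, g k * (a j k / ∑ j ∈ J, w j * a j k) +
            (1 - ∑ k ∈ F, g k)) :=
            sum_le_sum fun j hj => mul_le_mul_of_nonneg_left
              (amgm F g _ hg hg1 fun k hk => div_nonneg (ha j hj k hk) (hc k hk)) (hw j hj)
        _ = ∑ k ∈ F, g k * ((∑ j ∈ J, w j * a j k) / ∑ j ∈ J, w j * a j k) +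
            (∑ j ∈ J, w j) * (1 - ∑ k ∈ F, g k) := by
            simp_rw [mul_add, sum_add_distrib, ← sum_mul, mul_sum (s := F)]
            congr 1
            rw [sum_comm]
            refine sum_congr rfl fun k _ => ?_
            rw [sum_div, mul_sum]
            exact sum_congr rfl fun j _ => by ring
        _ ≤ ∑ k ∈ F, g k * 1 + 1 * (1 - ∑ k ∈ F, g k) := by
            refine add_le_add (sum_le_sum fun k hk => mul_le_mul_of_nonneg_left
              (div_self_le_one _) (hg k hk)) (mul_le_mul_of_nonneg_right hw1 (by linarith))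
        _ = 1 := by simp
    calc _ = (∑ j ∈ J, w j * ∏ k ∈ F, (a j k / ∑ j ∈ J, w j * a j k) ^ g k) *
          ∏ k ∈ F, (∑ j ∈ J, w j * a j k) ^ g k := by
          rw [sum_mul]
          exact sum_congr rfl fun j hj => by rw [h1 j hj]; ring
      _ ≤ _ := mul_le_of_le_one_left hP h2

/-- Admissible families of factors. -/
def Adm (t : ℕ → ℕ → ℝ) : Prop := ∀ k, t k ∈ BB (nk k)

/-- The weighted product of the factors with index in `[a, b)`. -/
noncomputable def GP (a b : ℕ) (t : ℕ → ℕ → ℝ) (i : ℕ) : ℝ := ∏ k ∈ Ico a b, t k i ^ gam k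

lemma Adm.nonneg {t : ℕ → ℕ → ℝ} (h : Adm t) (k i : ℕ) : 0 ≤ t k i := (h k).1 i

lemma Adm.le_one {t : ℕ → ℕ → ℝ} (h : Adm t) (k i : ℕ) : t k i ≤ 1 := BB_le_one _ _ (h k) i

lemma GP_nonneg {t : ℕ → ℕ → ℝ} (h : ∀ k i, 0 ≤ t k i) (a b i : ℕ) : 0 ≤ GP a b t i :=
  prod_nonneg fun k _ => Real.rpow_nonneg (h k i) _

lemma GP_le_one {t : ℕ → ℕ → ℝ} (h : Adm t) (a b i : ℕ) : GP a b t i ≤ 1 :=
  prod_le_one (fun k _ => Real.rpow_nonneg (h.nonneg k i) _) fun k _ =>
    Real.rpow_le_one (h.nonneg k i) (h.le_one k i) (gam_pos k).le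

lemma GP_split {a b c : ℕ} (hab : a ≤ b) (hbc : b ≤ c) (t : ℕ → ℕ → ℝ) (i : ℕ) :
    GP a c t i = GP a b t i * GP b c t i := (prod_Ico_consecutive _ hab hbc).symm

lemma GP_congr {a b : ℕ} {t t' : ℕ → ℕ → ℝ} {i i' : ℕ} (h : ∀ k, a ≤ k → k < b → t k i = t' k i') :
    GP a b t i = GP a b t' i' :=
  prod_congr rfl fun k hk => by rw [h k (mem_Ico.1 hk).1 (mem_Ico.1 hk).2]

lemma GP_const {a b : ℕ} (hab : a ≤ b) {t : ℕ → ℕ → ℝ} {i : ℕ} {c : ℝ} (hc : 0 ≤ c)
    (h : ∀ k, a ≤ k → k < b → t k i = c) : GP a b t i = c ^ (Gam a - Gam b) := by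
  rw [← sum_gam hab, Real.rpow_sum_of_nonneg hc fun k _ => (gam_pos k).le]
  exact prod_congr rfl fun k hk => by rw [h k (mem_Ico.1 hk).1 (mem_Ico.1 hk).2]

lemma GP_mono {a b : ℕ} {t t' : ℕ → ℕ → ℝ} {i : ℕ} (h0 : ∀ k, 0 ≤ t k i)
    (h : ∀ k, a ≤ k → k < b → t k i ≤ t' k i) : GP a b t i ≤ GP a b t' i :=
  prod_le_prod (fun k _ => Real.rpow_nonneg (h0 k) _) fun k hk =>
    Real.rpow_le_rpow (h0 k) (h k (mem_Ico.1 hk).1 (mem_Ico.1 hk).2) (gam_pos k).le

lemma GP_mul {a b : ℕ} {t t' : ℕ → ℕ → ℝ} {i i' : ℕ} (h0 : ∀ k, 0 ≤ t k i)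
    (h0' : ∀ k, 0 ≤ t' k i') :
    GP a b (fun k j => t k j * t' k i') i = GP a b t i * GP a b t' i' := by
  unfold GP
  rw [← prod_mul_distrib]
  exact prod_congr rfl fun k _ => Real.mul_rpow (h0 k) (h0' k)

/-- The ball in which the first `k` factors are merged with a part of `s` into an `l_1` factor. -/
def Bl (k K : ℕ) : Set (ℕ → ℝ) :=
  {x | ∃ (h s : ℕ → ℝ) (t : ℕ → ℕ → ℝ), (∀ i, 0 ≤ h i) ∧ ∑ i ∈ range K, h i ≤ 1 ∧ s ∈ SB 1 ∧
    Adm t ∧ ∀ i < K, x i ^ 2 ≤ h i ^ (1 - Gam k) * s i ^ Gam k * GP k K t i}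

/-- The unit ball at stage `K`. -/
def Ball (K : ℕ) : Set (ℕ → ℝ) :=
  {x | ∃ s ∈ SB 1, ∃ t : ℕ → ℕ → ℝ, Adm t ∧ ∀ i < K, x i ^ 2 ≤ s i * GP 0 K t i}

lemma Bl_zero (K : ℕ) : Bl 0 K = Ball K := by
  ext x
  constructor
  · rintro ⟨h, s, t, -, -, hs, ht, hx⟩
    exact ⟨s, hs, t, ht, by simpa [Gam_zero] using hx⟩
  · rintro ⟨s, hs, t, ht, hx⟩
    exact ⟨0, s, t, fun _ => le_rfl, by simp, hs, ht, by simpa [Gam_zero] using hx⟩

lemma Bl.comb {k K : ℕ} (hk : k ≤ K) {p : ℝ} (hp : 0 < p) (hpk : p / 2 * (1 + Gam k) ≤ 1)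
    {ι : Type*} (J : Finset ι) (w : ι → ℝ) (hw : ∀ j ∈ J, 0 ≤ w j) (hw1 : ∑ j ∈ J, w j ≤ 1)
    (x : ι → ℕ → ℝ) (hx : ∀ j ∈ J, x j ∈ Bl k K) {u : ℕ → ℝ}
    (hu : ∀ i < K, |u i| ^ p ≤ ∑ j ∈ J, w j * |x j i| ^ p) : u ∈ Bl k K := by
  classical
  have hx' : ∀ j, ∃ (h s : ℕ → ℝ) (t : ℕ → ℕ → ℝ), j ∈ J → ((∀ i, 0 ≤ h i) ∧
      ∑ i ∈ range K, h i ≤ 1 ∧ s ∈ SB 1 ∧ Adm t ∧
      ∀ i < K, x j i ^ 2 ≤ h i ^ (1 - Gam k) * s i ^ Gam k * GP k K t i) := by
    intro j
    by_cases hj : j ∈ J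
    · obtain ⟨h, s, t, H⟩ := hx j hj
      exact ⟨h, s, t, fun _ => H⟩
    · exact ⟨0, 0, 0, fun h => absurd h hj⟩
  choose h s t H using hx'
  have hH : ∀ i, 0 ≤ ∑ j ∈ J, w j * h j i :=
    fun i => sum_nonneg fun j hj => mul_nonneg (hw j hj) ((H j hj).1 i)
  have hS : (fun i => ∑ j ∈ J, w j * s j i) ∈ SB 1 :=
    polar.comb J w s hw hw1 fun j hj => (H j hj).2.2.1
  have hT : Adm (fun κ i => ∑ j ∈ J, w j * t j κ i) :=
    fun κ => polar.comb J w (fun j => t j κ) hw hw1 fun j hj => (H j hj).2.2.2.1 κ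
  refine ⟨fun i => ∑ j ∈ J, w j * h j i, _, _, hH, ?_, hS, hT, fun i hi => ?_⟩
  · rw [sum_comm]
    calc _ ≤ ∑ j ∈ J, w j * 1 := sum_le_sum fun j hj => by
          rw [← mul_sum]; exact mul_le_mul_of_nonneg_left (H j hj).2.1 (hw j hj)
      _ ≤ 1 := by simpa using hw1
  · have hG := Gam_pos k
    have hG1 := Gam_le_one k
    have hp2 : 0 < p / 2 := by positivity
    have e : ∀ (a b : ℝ) (c : ℕ → ℕ → ℝ), 0 ≤ a → 0 ≤ b → (∀ κ, 0 ≤ c κ i) →
        (a ^ (1 - Gam k) * b ^ Gam k * GP k K c i) ^ (p / 2) =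
        a ^ ((1 - Gam k) * (p / 2)) * (b ^ (Gam k * (p / 2)) *
          ∏ κ ∈ Ico k K, c κ i ^ (gam κ * (p / 2))) := by
      intro a b c ha hb hc
      have : 0 ≤ GP k K c i := prod_nonneg fun κ _ => Real.rpow_nonneg (hc κ) _
      rw [Real.mul_rpow (by positivity) this, Real.mul_rpow (by positivity) (by positivity),
        Real.rpow_mul ha, Real.rpow_mul hb, mul_assoc]
      congr 2
      unfold GP
      rw [← Real.finsetProd_rpow _ _ fun κ _ => Real.rpow_nonneg (hc κ) _]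
      exact prod_congr rfl fun κ _ => (Real.rpow_mul (hc κ) _ _).symm
    have e2 : ∀ a : ℝ, |a| ^ p = (a ^ 2) ^ (p / 2) := by
      intro a
      rw [← sq_abs, ← Real.rpow_natCast, ← Real.rpow_mul (abs_nonneg a)]
      congr 1; push_cast; ring
    have key := gm_concave J w hw hw1 (insertNone (insertNone (Ico k K)))
      (fun o => o.elim ((1 - Gam k) * (p / 2)) fun o' => o'.elim (Gam k * (p / 2))
        fun κ => gam κ * (p / 2))
      (by
        rintro (_ | _ | κ) _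
        · exact mul_nonneg (by linarith) hp2.le
        · exact mul_nonneg hG.le hp2.le
        · exact mul_nonneg (gam_pos κ).le hp2.le)
      (by
        simp only [sum_insertNone, Option.elim_none, Option.elim_some]
        rw [← sum_mul, sum_gam hk]
        nlinarith [Gam_pos K])
      (fun j o => o.elim (h j i) fun o' => o'.elim (s j i) fun κ => t j κ i)
      (by
        rintro j hj (_ | _ | κ) _
        · exact (H j hj).1 i
        · exact (H j hj).2.2.1.1 i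
        · exact (H j hj).2.2.2.1.nonneg κ i)
    simp only [prod_insertNone, Option.elim_none, Option.elim_some] at key
    have h1 : (u i ^ 2) ^ (p / 2) ≤ ((∑ j ∈ J, w j * h j i) ^ (1 - Gam k) *
        (∑ j ∈ J, w j * s j i) ^ Gam k *
        GP k K (fun κ i => ∑ j ∈ J, w j * t j κ i) i) ^ (p / 2) := by
      rw [← e2, e _ _ _ (hH i) (hS.1 i) fun κ => hT.nonneg κ i]
      refine (hu i hi).trans (le_trans (sum_le_sum fun j hj => ?_) key)
      refine mul_le_mul_of_nonneg_left ?_ (hw j hj)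
      rw [← e _ _ _ ((H j hj).1 i) ((H j hj).2.2.1.1 i) fun κ => (H j hj).2.2.2.1.nonneg κ i, e2]
      exact Real.rpow_le_rpow (sq_nonneg _) ((H j hj).2.2.2.2 i hi) hp2.le
    exact (Real.rpow_le_rpow_iff (sq_nonneg _) (mul_nonneg (mul_nonneg
      (Real.rpow_nonneg (hH i) _) (Real.rpow_nonneg (hS.1 i) _))
      (GP_nonneg hT.nonneg _ _ _)) hp2).1 h1

lemma geom2_le {a b θ : ℝ} (ha : 0 ≤ a) (hb : 0 ≤ b) (h0 : 0 ≤ θ) (h1 : θ ≤ 1) :
    a ^ (1 - θ) * b ^ θ ≤ (1 - θ) * a + θ * b :=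
  Real.geom_mean_le_arith_mean2_weighted (by linarith) h0 ha hb (by ring)

lemma Bl_subset {k K : ℕ} (hk : k ≤ K) : Bl k K ⊆ Ball K := by
  rintro x ⟨h, s, t, h0, h1, hs, ht, hx⟩
  obtain ⟨s', hs', t', ht', e⟩ := lozanovskii h0 (range K) h1
  have hG := Gam_pos k
  have hG1 := Gam_le_one k
  refine ⟨fun i => (1 - Gam k) * s' i + Gam k * s i,
    polar.comb2 (by linarith) hG.le (by linarith) hs' hs,
    fun κ => if κ < k then t' else t κ, fun κ => ?_, fun i hi => ?_⟩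
  · by_cases hκ : κ < k
    · simp only [hκ, if_true]; exact BB_mono (nk_pos κ) ht'
    · simp only [hκ, if_false]; exact ht κ
  · refine (hx i hi).trans ?_
    have e0 : GP k K (fun κ => if κ < k then t' else t κ) i = GP k K t i :=
      GP_congr fun κ hκ _ => by simp only [show ¬ κ < k by omega, if_false]
    rw [GP_split (Nat.zero_le k) hk, GP_const (Nat.zero_le k) (ht'.1 i)
      (fun κ _ hκ => by simp only [hκ, if_true]), e0, e i (mem_range.2 hi),
      Real.mul_rpow (hs'.1 i) (ht'.1 i), Gam_zero]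
    have h2 := geom2_le (hs'.1 i) (hs.1 i) hG.le hG1
    have h3 : 0 ≤ t' i ^ (1 - Gam k) * GP k K t i :=
      mul_nonneg (Real.rpow_nonneg (ht'.1 i) _) (GP_nonneg ht.nonneg _ _ _)
    calc _ = (s' i ^ (1 - Gam k) * s i ^ Gam k) * (t' i ^ (1 - Gam k) * GP k K t i) := by ring
      _ ≤ _ := mul_le_mul_of_nonneg_right h2 h3

lemma Ball_subset {k K : ℕ} (hk1 : 1 ≤ k) (hk : k ≤ K) {x : ℕ → ℝ} (hx : x ∈ Ball K) :
    (fun i => (1 / 2 : ℝ) ^ dk k * x i) ∈ Bl k K := by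
  obtain ⟨s, hs, t, ht, hx⟩ := hx
  have hG := Gam_pos k
  have hG1 : Gam k ≤ 1 / 2 := (Gam_anti hk1).trans Gam_one_le
  have hg : 0 < 1 - Gam k := by linarith
  have hsum : ∑ κ ∈ Ico 0 k, gam κ / (1 - Gam k) = 1 := by
    rw [← sum_div, sum_gam (Nat.zero_le k), Gam_zero, div_self hg.ne']
  have htb : (fun i => ∑ κ ∈ Ico 0 k, gam κ / (1 - Gam k) * t κ i) ∈ BB (R (dk k)) :=
    polar.comb _ _ _ (fun κ _ => div_nonneg (gam_pos κ).le hg.le) hsum.le
      fun κ hκ => BB_mono (nk_mono (mem_Ico.1 hκ).2.le) (ht κ)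
  have htc := BB.shrink htb
  set c : ℝ := (1 / 2 : ℝ) ^ dk k with hc
  have hc0 : 0 < c := by positivity
  have hc1 : c ≤ 1 := pow_le_one₀ (by norm_num) (by norm_num)
  refine ⟨fun i => s i * (c * ∑ κ ∈ Ico 0 k, gam κ / (1 - Gam k) * t κ i), s, t,
    fun i => mul_nonneg (hs.1 i) (htc.1 i), pair_le_one hs htc _, hs, ht, fun i hi => ?_⟩
  set τ := ∑ κ ∈ Ico 0 k, gam κ / (1 - Gam k) * t κ i with hτ
  have hτ0 : 0 ≤ τ := htb.1 i
  have h1 : GP 0 k t i ≤ τ ^ (1 - Gam k) := by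
    have h2 := amgm (Ico 0 k) (fun κ => gam κ / (1 - Gam k)) (fun κ => t κ i)
      (fun κ _ => div_nonneg (gam_pos κ).le hg.le) hsum.le fun κ _ => ht.nonneg κ i
    rw [hsum, sub_self, add_zero] at h2
    refine le_trans (le_of_eq ?_) (Real.rpow_le_rpow
      (prod_nonneg fun κ _ => Real.rpow_nonneg (ht.nonneg κ i) _) h2 hg.le)
    rw [← Real.finsetProd_rpow _ _ fun κ _ => Real.rpow_nonneg (ht.nonneg κ i) _]
    refine prod_congr rfl fun κ _ => ?_
    rw [← Real.rpow_mul (ht.nonneg κ i), div_mul_cancel₀ _ hg.ne']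
  have h3 : s i = s i ^ (1 - Gam k) * s i ^ Gam k := by
    rw [← Real.rpow_add' (hs.1 i) (by simp)]; simp
  have h4 : c ^ 2 ≤ c ^ (1 - Gam k) := by
    rw [← Real.rpow_natCast]
    exact Real.rpow_le_rpow_of_exponent_ge hc0 hc1 (by push_cast; linarith)
  have h5 := GP_nonneg ht.nonneg k K i
  have h6 := hs.1 i
  rw [mul_pow, Real.mul_rpow h6 (mul_nonneg hc0.le hτ0), Real.mul_rpow hc0.le hτ0]
  calc c ^ 2 * x i ^ 2 ≤ c ^ (1 - Gam k) * (s i * (GP 0 k t i * GP k K t i)) := by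
        rw [← GP_split (Nat.zero_le k) hk]
        exact mul_le_mul h4 (hx i hi) (sq_nonneg _) (by positivity)
    _ ≤ c ^ (1 - Gam k) * (s i * (τ ^ (1 - Gam k) * GP k K t i)) := by gcongr
    _ = _ := by
        conv_lhs => rw [h3]
        ring

lemma Bl.theta {k K : ℕ} {x h s θ : ℕ → ℝ} {t : ℕ → ℕ → ℝ} (h0 : ∀ i, 0 ≤ h i)
    (h1 : ∑ i ∈ range K, h i ≤ 1) (hs : s ∈ SB 1) (ht : Adm t) (hθ : ∀ i, 0 ≤ θ i) {a η : ℝ}
    (ha : 0 < a) (hak : a ≤ 1 - Gam k) (hη : 0 < η) (hη' : ∑ i ∈ range K, h i * θ i ≤ η)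
    (hx : ∀ i < K, x i ^ 2 ≤ θ i ^ a * (h i ^ (1 - Gam k) * s i ^ Gam k * GP k K t i)) :
    (fun i => (η ^ (a / 2))⁻¹ * x i) ∈ Bl k K := by
  have hg : 0 < 1 - Gam k := lt_of_lt_of_le ha hak
  set b := a / (1 - Gam k) with hb
  have hb0 : 0 ≤ b := by positivity
  have hb1 : b ≤ 1 := (div_le_one hg).2 hak
  refine ⟨fun i => (1 - b) * h i + b * (h i * θ i / η), s, t, fun i => ?_, ?_, hs, ht,
    fun i hi => ?_⟩
  · have := h0 i; have := hθ i
    have : 0 ≤ 1 - b := by linarith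
    positivity
  · rw [sum_add_distrib, ← mul_sum, ← mul_sum, ← sum_div]
    have : (∑ i ∈ range K, h i * θ i) / η ≤ 1 := (div_le_one hη).2 hη'
    nlinarith
  · have h2 := h0 i
    have h3 := hθ i
    have h4 := geom2_le h2 (show 0 ≤ h i * θ i / η by positivity) hb0 hb1
    have h5 : θ i ^ a * h i ^ (1 - Gam k) / η ^ a ≤
        ((1 - b) * h i + b * (h i * θ i / η)) ^ (1 - Gam k) := by
      refine le_trans (le_of_eq ?_) (Real.rpow_le_rpow (by positivity) h4 hg.le)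
      have e1 : b * (1 - Gam k) = a := div_mul_cancel₀ _ hg.ne'
      rw [Real.mul_rpow (by positivity) (by positivity), ← Real.rpow_mul h2,
        ← Real.rpow_mul (by positivity), e1, Real.div_rpow (by positivity) hη.le,
        Real.mul_rpow h2 h3]
      have e2 : h i ^ (1 - Gam k) = h i ^ ((1 - b) * (1 - Gam k)) * h i ^ a := by
        rw [← Real.rpow_add' h2 (by rw [← e1]; ring_nf; linarith)]
        congr 1; rw [← e1]; ring
      rw [e2]; ring
    have h6 : ((η ^ (a / 2))⁻¹) ^ 2 = (η ^ a)⁻¹ := by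
      rw [inv_pow, ← Real.rpow_natCast, ← Real.rpow_mul hη.le]
      congr 2; push_cast; ring
    have h7 : 0 ≤ s i ^ Gam k * GP k K t i :=
      mul_nonneg (Real.rpow_nonneg (hs.1 i) _) (GP_nonneg ht.nonneg _ _ _)
    have h8 : 0 < η ^ a := Real.rpow_pos_of_pos hη a
    rw [mul_pow, h6]
    calc _ ≤ (η ^ a)⁻¹ * (θ i ^ a * (h i ^ (1 - Gam k) * s i ^ Gam k * GP k K t i)) := by
          have := hx i hi
          gcongr
      _ = θ i ^ a * h i ^ (1 - Gam k) / η ^ a * (s i ^ Gam k * GP k K t i) := by ring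
      _ ≤ _ := by rw [mul_assoc]; exact mul_le_mul_of_nonneg_right h5 h7

end Pool.Agent.MP_650c5e_an

end

section

/-! The lattice seminorms `NK K` and their supremum `NN`. -/

namespace Pool.Agent.MP_650c5e_an

open Finset

lemma Ball.solid {K : ℕ} {x x' : ℕ → ℝ} (hx : x ∈ Ball K) (h : ∀ i < K, |x' i| ≤ |x i|) :
    x' ∈ Ball K := by
  obtain ⟨s, hs, t, ht, hx⟩ := hx
  exact ⟨s, hs, t, ht, fun i hi => (sq_le_sq.2 (h i hi)).trans (hx i hi)⟩

lemma mem_Ball_of_sum {K : ℕ} {x : ℕ → ℝ} (h : ∑ i ∈ range K, |x i| ≤ 1) : x ∈ Ball K := by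
  have h0 : ∀ i, 0 ≤ res (range K) (fun i => |x i|) i := res_nonneg fun i => abs_nonneg _
  have h1 : ∀ D : Finset ℕ, ∑ i ∈ D, res (range K) (fun i => |x i|) i ≤ 1 := by
    intro D
    have := sum_res_mul (E := D) (W := range K) (fun i => |x i|) (fun _ => 1)
    simp only [mul_one] at this
    rw [this]
    exact (sum_le_sum_of_subset_of_nonneg inter_subset_right fun i _ _ => abs_nonneg _).trans h
  refine ⟨_, mem_SB_of_sum_le h0 h1, fun _ => res (range K) (fun i => |x i|),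
    fun k => mem_BB_of_sum_le (nk_pos k) h0 h1, fun i hi => ?_⟩
  have h2 : |x i| ≤ 1 := by simpa [res_of_mem (mem_range.2 hi)] using h1 {i}
  rw [GP_const (Nat.zero_le K) (abs_nonneg (x i)) (fun _ _ _ => res_of_mem (mem_range.2 hi)),
    res_of_mem (mem_range.2 hi), ← sq_abs, sq]
  refine mul_le_mul_of_nonneg_left ?_ (abs_nonneg _)
  rcases (abs_nonneg (x i)).eq_or_lt with e | e
  · rw [← e]; exact Real.rpow_nonneg le_rfl _
  · have := Real.rpow_le_rpow_of_exponent_ge e h2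
      (show Gam 0 - Gam K ≤ 1 by linarith [Gam_zero, Gam_pos K])
    simpa using this

lemma Ball.abs_le {K : ℕ} {x : ℕ → ℝ} (hx : x ∈ Ball K) {i : ℕ} (hi : i < K) : |x i| ≤ 1 := by
  obtain ⟨s, hs, t, ht, hx⟩ := hx
  rw [← sq_le_one_iff_abs_le_one]
  exact (hx i hi).trans (mul_le_one₀ (SB_le_one le_rfl s hs i) (GP_nonneg ht.nonneg _ _ _)
    (GP_le_one ht _ _ _))

lemma Ball.of_succ {K : ℕ} {x : ℕ → ℝ} (hx : x ∈ Ball (K + 1)) : x ∈ Ball K := by
  obtain ⟨s, hs, t, ht, hx⟩ := hx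
  refine ⟨s, hs, t, ht, fun i hi => (hx i (by omega)).trans ?_⟩
  rw [GP_split (Nat.zero_le K) (Nat.le_succ K)]
  exact mul_le_mul_of_nonneg_left (mul_le_of_le_one_right (GP_nonneg ht.nonneg _ _ _)
    (GP_le_one ht _ _ _)) (hs.1 i)

lemma GP_extend {K K' : ℕ} (t : ℕ → ℕ → ℝ) {i : ℕ} (hi : i < K) (hK : K ≤ K') :
    GP 0 K' (fun k => if k < K then t k else res (range K) 1) i = GP 0 K t i := by
  rw [GP_split (Nat.zero_le K) hK, GP_const hK zero_le_one
    (fun k hk _ => by simp only [show ¬ k < K by omega, if_false, res_of_mem (mem_range.2 hi)]; rfl),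
    Real.one_rpow, mul_one]
  exact GP_congr fun k _ hk => by simp only [hk, if_true]

lemma Adm.extend {t : ℕ → ℕ → ℝ} (ht : Adm t) (K : ℕ) :
    Adm (fun k => if k < K then t k else res (range K) 1) := by
  intro k
  by_cases hk : k < K
  · simp only [hk, if_true]; exact ht k
  · simp only [hk, if_false]
    exact VS_subset_BB _ (one_mem_VS ((not_lt.1 hk).trans (le_nk k)))

lemma Ball.extend {K K' : ℕ} {x : ℕ → ℝ} (hx : x ∈ Ball K) (hK : K ≤ K')
    (h0 : ∀ i, K ≤ i → x i = 0) : x ∈ Ball K' := by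
  obtain ⟨s, hs, t, ht, hx⟩ := hx
  refine ⟨s, hs, _, ht.extend K, fun i _ => ?_⟩
  by_cases hi : i < K
  · rw [GP_extend t hi hK]; exact hx i hi
  · rw [h0 i (not_lt.1 hi)]
    simpa using mul_nonneg (hs.1 i) (GP_nonneg (ht.extend K).nonneg _ _ _)

lemma Ball.shR {K : ℕ} {x : ℕ → ℝ} (hx : x ∈ Ball K) : shR x ∈ Ball K := by
  obtain ⟨s, hs, t, ht, hx⟩ := hx
  refine ⟨_, SB.shR hs, fun k => MP_650c5e_an.shR (t k), fun k => BB.shR (ht k), fun i hi => ?_⟩
  cases i with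
  | zero => simp [MP_650c5e_an.shR]
  | succ i => exact hx i (by omega)

lemma Ball.shL {K : ℕ} {x : ℕ → ℝ} (hx : x ∈ Ball (K + 1)) : shL x ∈ Ball K := by
  obtain ⟨s, hs, t, ht, hx⟩ := hx
  refine ⟨_, SB.shL hs, fun k => MP_650c5e_an.shL (t k), fun k => BB.shL (ht k), fun i hi => ?_⟩
  refine (hx (i + 1) (by omega)).trans ?_
  rw [GP_split (Nat.zero_le K) (Nat.le_succ K)]
  exact mul_le_mul_of_nonneg_left (mul_le_of_le_one_right (GP_nonneg ht.nonneg _ _ _)
    (GP_le_one ht _ _ _)) (hs.1 _)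

lemma Ball_subset' {k K : ℕ} (hk : k ≤ K) {x : ℕ → ℝ} (hx : x ∈ Ball K) :
    (fun i => (1 / 2 : ℝ) ^ dk k * x i) ∈ Bl k K := by
  rcases Nat.eq_zero_or_pos k with rfl | h
  · simpa [Bl_zero, dk_zero] using hx
  · exact Ball_subset h hk hx

/-- The seminorm at stage `K`. -/
noncomputable def NK (K : ℕ) (x : ℕ → ℝ) : ℝ :=
  sInf {l : ℝ | 0 < l ∧ (fun i => l⁻¹ * x i) ∈ Ball K}

lemma NK_le {K : ℕ} {x : ℕ → ℝ} {l : ℝ} (hl : 0 < l) (h : (fun i => l⁻¹ * x i) ∈ Ball K) :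
    NK K x ≤ l := csInf_le ⟨0, fun _ h => h.1.le⟩ ⟨hl, h⟩

lemma NK_nonneg (K : ℕ) (x : ℕ → ℝ) : 0 ≤ NK K x := Real.sInf_nonneg fun _ h => h.1.le

lemma mem_of_sum_lt {K : ℕ} {x : ℕ → ℝ} {l : ℝ} (h : ∑ i ∈ range K, |x i| < l) :
    (fun i => l⁻¹ * x i) ∈ Ball K := by
  have hl : 0 < l := lt_of_le_of_lt (sum_nonneg fun i _ => abs_nonneg _) h
  refine mem_Ball_of_sum ?_
  simp_rw [abs_mul, ← mul_sum, abs_of_pos (inv_pos.2 hl)]
  rw [inv_mul_le_iff₀ hl]; simpa using h.le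

lemma mem_of_NK_lt {K : ℕ} {x : ℕ → ℝ} {l : ℝ} (h : NK K x < l) :
    (fun i => l⁻¹ * x i) ∈ Ball K := by
  have hne : {l : ℝ | 0 < l ∧ (fun i => l⁻¹ * x i) ∈ Ball K}.Nonempty :=
    ⟨∑ i ∈ range K, |x i| + 1, by positivity, mem_of_sum_lt (by linarith)⟩
  obtain ⟨l', ⟨h0, hl'⟩, hlt⟩ := exists_lt_of_csInf_lt hne h
  refine Ball.solid hl' fun i _ => ?_
  rw [abs_mul, abs_mul, abs_of_pos (inv_pos.2 h0), abs_of_pos (inv_pos.2 (h0.trans hlt))]
  exact mul_le_mul_of_nonneg_right (inv_anti₀ h0 hlt.le) (abs_nonneg _)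

lemma NK_le_sum (K : ℕ) (x : ℕ → ℝ) : NK K x ≤ ∑ i ∈ range K, |x i| :=
  le_of_forall_gt_imp_ge_of_dense fun _ hl =>
    NK_le (lt_of_le_of_lt (sum_nonneg fun _ _ => abs_nonneg _) hl) (mem_of_sum_lt hl)

lemma NK_le_NK {K K' : ℕ} {x x' : ℕ → ℝ}
    (h : ∀ l : ℝ, 0 < l → (fun i => l⁻¹ * x i) ∈ Ball K → (fun i => l⁻¹ * x' i) ∈ Ball K') :
    NK K' x' ≤ NK K x :=
  le_of_forall_gt_imp_ge_of_dense fun l hl =>
    have h0 := lt_of_le_of_lt (NK_nonneg K x) hl
    NK_le h0 (h l h0 (mem_of_NK_lt hl))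

lemma NK_mono {K : ℕ} {x x' : ℕ → ℝ} (h : ∀ i < K, |x' i| ≤ |x i|) : NK K x' ≤ NK K x :=
  NK_le_NK fun l _ hx => Ball.solid hx fun i hi => by
    rw [abs_mul, abs_mul]; exact mul_le_mul_of_nonneg_left (h i hi) (abs_nonneg _)

lemma abs_le_NK {K : ℕ} (x : ℕ → ℝ) {i : ℕ} (hi : i < K) : |x i| ≤ NK K x :=
  le_of_forall_gt_imp_ge_of_dense fun l hl => by
    have h0 := lt_of_le_of_lt (NK_nonneg K x) hl
    have := Ball.abs_le (mem_of_NK_lt hl) hi
    rw [abs_mul, abs_of_pos (inv_pos.2 h0), inv_mul_le_iff₀ h0] at this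
    simpa using this

lemma NK_mono_K (x : ℕ → ℝ) : Monotone fun K => NK K x :=
  monotone_nat_of_le_succ fun _ => NK_le_NK fun _ _ h => Ball.of_succ h

lemma NK_stab {K K' : ℕ} {x : ℕ → ℝ} (hK : K ≤ K') (h0 : ∀ i, K ≤ i → x i = 0) :
    NK K' x = NK K x :=
  le_antisymm (NK_le_NK fun _ _ h => Ball.extend h hK fun i hi => by rw [h0 i hi, mul_zero])
    (NK_mono_K x hK)

lemma NK_shR (K : ℕ) (x : ℕ → ℝ) : NK K (shR x) ≤ NK K x :=
  NK_le_NK fun l _ h => by
    have : (fun i => l⁻¹ * shR x i) = shR fun i => l⁻¹ * x i := by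
      funext i; cases i <;> simp [shR]
    rw [this]; exact Ball.shR h

lemma NK_shL (K : ℕ) (x : ℕ → ℝ) : NK K (shL x) ≤ NK (K + 1) x :=
  NK_le_NK fun _ _ h => Ball.shL h

lemma NK_smul_le (K : ℕ) (c : ℝ) (x : ℕ → ℝ) : NK K (fun i => c * x i) ≤ |c| * NK K x := by
  rcases eq_or_ne c 0 with rfl | hc
  · simpa using NK_le_sum K (fun _ => 0)
  have hc' : 0 < |c| := abs_pos.2 hc
  rw [← inv_mul_le_iff₀ hc']
  refine le_of_forall_gt_imp_ge_of_dense fun l hl => ?_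
  have h0 := lt_of_le_of_lt (NK_nonneg K x) hl
  rw [inv_mul_le_iff₀ hc']
  refine NK_le (by positivity) (Ball.solid (mem_of_NK_lt hl) fun i _ => le_of_eq ?_)
  simp only [abs_mul, abs_inv, abs_abs]
  field_simp

lemma NK_smul (K : ℕ) (c : ℝ) (x : ℕ → ℝ) : NK K (fun i => c * x i) = |c| * NK K x := by
  refine le_antisymm (NK_smul_le K c x) ?_
  rcases eq_or_ne c 0 with rfl | hc
  · simpa using NK_nonneg K (fun _ => 0)
  have hc' : 0 < |c| := abs_pos.2 hc
  have := NK_smul_le K c⁻¹ (fun i => c * x i)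
  simp only [inv_mul_cancel_left₀ hc, abs_inv] at this
  rwa [← le_inv_mul_iff₀ hc']

/-- Lattice `p`-convexity. -/
lemma NK_pconvex {k K : ℕ} (hk : k ≤ K) {p : ℝ} (hp : 0 < p) (hpk : p / 2 * (1 + Gam k) ≤ 1)
    {ι : Type*} (J : Finset ι) (x : ι → ℕ → ℝ) {u : ℕ → ℝ}
    (hu : ∀ i < K, |u i| ^ p ≤ ∑ j ∈ J, |x j i| ^ p) :
    NK K u ^ p ≤ (2 ^ dk k) ^ p * ∑ j ∈ J, NK K (x j) ^ p := by
  set c : ℝ := (1 / 2 : ℝ) ^ dk k with hc
  have hc0 : 0 < c := by positivity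
  have hcC : c * 2 ^ dk k = 1 := by rw [hc, ← mul_pow]; norm_num
  have key : ∀ δ : ℝ, 0 < δ →
      NK K u ^ p ≤ (2 ^ dk k) ^ p * (∑ j ∈ J, (NK K (x j) + δ) ^ p + δ) := by
    intro δ hδ
    have hl : ∀ j, 0 < NK K (x j) + δ := fun j => by linarith [NK_nonneg K (x j)]
    have hs0 : 0 ≤ ∑ j ∈ J, (NK K (x j) + δ) ^ p :=
      sum_nonneg fun j _ => Real.rpow_nonneg (hl j).le _
    set S := ∑ j ∈ J, (NK K (x j) + δ) ^ p + δ with hS
    have hS0 : 0 < S := by positivity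
    have hSp : 0 < S ^ p⁻¹ := Real.rpow_pos_of_pos hS0 _
    have hSpp : (S ^ p⁻¹) ^ p = S := Real.rpow_inv_rpow hS0.le hp.ne'
    have h1 : (fun i => (2 ^ dk k * S ^ p⁻¹)⁻¹ * u i) ∈ Bl k K := by
      refine Bl.comb hk hp hpk J (fun j => (NK K (x j) + δ) ^ p / S)
        (fun j _ => div_nonneg (Real.rpow_nonneg (hl j).le _) hS0.le) ?_
        (fun j i => c * ((NK K (x j) + δ)⁻¹ * x j i))
        (fun j _ => Ball_subset' hk (mem_of_NK_lt (by linarith))) fun i hi => ?_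
      · rw [← sum_div, div_le_one hS0]; linarith
      · have e1 : |(2 ^ dk k * S ^ p⁻¹)⁻¹ * u i| ^ p = c ^ p / S * |u i| ^ p := by
          have : ((2 : ℝ) ^ dk k * S ^ p⁻¹)⁻¹ = c / S ^ p⁻¹ := by
            field_simp; linarith
          rw [this, abs_mul, abs_of_pos (by positivity),
            Real.mul_rpow (by positivity) (abs_nonneg _), Real.div_rpow hc0.le hSp.le, hSpp]
        have e2 : ∀ j, (NK K (x j) + δ) ^ p / S * |c * ((NK K (x j) + δ)⁻¹ * x j i)| ^ p =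
            c ^ p / S * |x j i| ^ p := by
          intro j
          have := hl j
          have h3 : 0 < (NK K (x j) + δ) ^ p := Real.rpow_pos_of_pos this _
          rw [abs_mul, abs_mul, abs_of_pos hc0, abs_of_pos (inv_pos.2 this),
            Real.mul_rpow hc0.le (by positivity), Real.mul_rpow (by positivity) (abs_nonneg _),
            Real.inv_rpow this.le]
          field_simp
        simp_rw [e1, e2, ← mul_sum]
        exact mul_le_mul_of_nonneg_left (hu i hi) (by positivity)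
    have h2 := NK_le (by positivity) (Bl_subset hk h1)
    calc NK K u ^ p ≤ (2 ^ dk k * S ^ p⁻¹) ^ p := Real.rpow_le_rpow (NK_nonneg _ _) h2 hp.le
      _ = _ := by rw [Real.mul_rpow (by positivity) hSp.le, hSpp]
  have hlim : Filter.Tendsto
      (fun δ : ℝ => ((2 : ℝ) ^ dk k) ^ p * (∑ j ∈ J, (NK K (x j) + δ) ^ p + δ))
      (nhdsWithin 0 (Set.Ioi 0))
      (nhds (((2 : ℝ) ^ dk k) ^ p * (∑ j ∈ J, (NK K (x j) + 0) ^ p + 0))) := by
    refine Filter.Tendsto.mono_left (Continuous.tendsto ?_ 0) nhdsWithin_le_nhds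
    refine continuous_const.mul (Continuous.add (continuous_finsetSum _ fun j _ => ?_)
      continuous_id)
    exact (Real.continuous_rpow_const hp.le).comp (continuous_const.add continuous_id)
  simp only [add_zero] at hlim
  exact ge_of_tendsto hlim (eventually_nhdsWithin_of_forall key)

lemma NK_sum_le {K : ℕ} {ι : Type*} (J : Finset ι) (x : ι → ℕ → ℝ) {u : ℕ → ℝ}
    (hu : ∀ i < K, |u i| ≤ ∑ j ∈ J, |x j i|) : NK K u ≤ ∑ j ∈ J, NK K (x j) := by
  have := NK_pconvex (Nat.zero_le K) one_pos (by rw [Gam_zero]; norm_num) J x (u := u)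
    (by simpa using hu)
  simpa [dk_zero] using this

lemma NK_add_le {K : ℕ} {x x' u : ℕ → ℝ} (hu : ∀ i < K, |u i| ≤ |x i| + |x' i|) :
    NK K u ≤ NK K x + NK K x' := by
  have := NK_sum_le (K := K) (univ : Finset Bool) (fun b => if b then x else x') (u := u)
    (by simpa using hu)
  simpa using this

/-- Lattice `q`-concavity. -/
lemma NK_qconcave {k K : ℕ} (hk : k ≤ K) {q : ℝ} (hq : 0 < q) (hqk : 2 / q ≤ 1 - Gam k)
    {ι : Type*} (J : Finset ι) (x : ι → ℕ → ℝ) {u : ℕ → ℝ}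
    (hu : ∀ i < K, ∑ j ∈ J, |x j i| ^ q ≤ |u i| ^ q) :
    ∑ j ∈ J, NK K (x j) ^ q ≤ 2 * (2 ^ dk k) ^ q * NK K u ^ q := by
  set c : ℝ := (1 / 2 : ℝ) ^ dk k with hc
  have hc0 : 0 < c := by positivity
  have hcC : c * 2 ^ dk k = 1 := by rw [hc, ← mul_pow]; norm_num
  have key : ∀ δ : ℝ, 0 < δ →
      ∑ j ∈ J, NK K (x j) ^ q ≤ 2 * (2 ^ dk k) ^ q * (NK K u + δ) ^ q := by
    intro δ hδ
    set l := NK K u + δ with hl
    have hl0 : 0 < l := by linarith [NK_nonneg K u]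
    obtain ⟨h, s, t, h0, h1, hs, ht, H⟩ :=
      Ball_subset' hk (mem_of_NK_lt (show NK K u < l by linarith))
    set θ : ι → ℕ → ℝ := fun j i => |x j i| ^ q / |u i| ^ q with hθ
    have hθ0 : ∀ j i, 0 ≤ θ j i := fun j i => by positivity
    set η : ι → ℝ := fun j => ∑ i ∈ range K, h i * θ j i + 1 / (J.card + 1) with hη
    have hη0 : ∀ j, 0 < η j := fun j => by
      have : 0 ≤ ∑ i ∈ range K, h i * θ j i := sum_nonneg fun i _ => mul_nonneg (h0 i) (hθ0 j i)
      positivity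
    have h2 : ∀ j ∈ J, NK K (x j) ^ q ≤ η j * ((2 ^ dk k) ^ q * l ^ q) := by
      intro j hj
      have h3 := Bl.theta (k := k) (K := K) (x := fun i => c * (l⁻¹ * x j i)) h0 h1 hs ht (hθ0 j)
        (show 0 < 2 / q by positivity) hqk (hη0 j)
        (le_add_of_nonneg_right (by positivity)) (fun i hi => by
          refine le_trans (le_of_eq ?_) (mul_le_mul_of_nonneg_left (H i hi)
            (Real.rpow_nonneg (hθ0 j i) _))
          have e : ∀ a : ℝ, (|a| ^ q) ^ (2 / q) = a ^ 2 := fun a => by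
            rw [← Real.rpow_mul (abs_nonneg a), mul_div_cancel₀ _ hq.ne', ← sq_abs]
            exact Real.rpow_two _
          simp only [hθ]
          rw [Real.div_rpow (by positivity) (by positivity), e, e]
          rcases eq_or_ne (u i) 0 with hu0 | hu0
          · have h4 : |x j i| ^ q ≤ 0 := by
              have := (single_le_sum (f := fun j => |x j i| ^ q)
                (fun j _ => by positivity) hj).trans (hu i hi)
              rwa [hu0, abs_zero, Real.zero_rpow hq.ne'] at this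
            have h5 : x j i = 0 := by
              by_contra h6
              exact absurd h4 (not_le.2 (Real.rpow_pos_of_pos (abs_pos.2 h6) _))
            simp [h5]
          · rw [← hc]; field_simp)
      have h4 : 0 < η j ^ (2 / q / 2) := Real.rpow_pos_of_pos (hη0 j) _
      have h5 : NK K (x j) ≤ η j ^ (2 / q / 2) * (2 ^ dk k * l) := by
        refine NK_le (by positivity) ?_
        have : (fun i => (η j ^ (2 / q / 2) * (2 ^ dk k * l))⁻¹ * x j i) =
            fun i => (η j ^ (2 / q / 2))⁻¹ * (c * (l⁻¹ * x j i)) := by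
          funext i
          have : c = (2 ^ dk k)⁻¹ := by rw [hc, one_div, inv_pow]
          rw [this]; field_simp
        rw [this]; exact Bl_subset hk h3
      refine (Real.rpow_le_rpow (NK_nonneg _ _) h5 hq.le).trans (le_of_eq ?_)
      rw [Real.mul_rpow h4.le (by positivity), Real.mul_rpow (by positivity) hl0.le,
        ← Real.rpow_mul (hη0 j).le, show 2 / q / 2 * q = 1 by field_simp, Real.rpow_one]
    have h6 : ∑ j ∈ J, η j ≤ 2 := by
      simp only [hη]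
      rw [sum_add_distrib, sum_comm, sum_const, nsmul_eq_mul]
      have h7 : (J.card : ℝ) * (1 / (J.card + 1)) ≤ 1 := by
        rw [mul_one_div, div_le_one (by positivity)]; linarith
      have h8 : ∑ i ∈ range K, ∑ j ∈ J, h i * θ j i ≤ ∑ i ∈ range K, h i := by
        refine sum_le_sum fun i hi => ?_
        rw [← mul_sum]
        refine mul_le_of_le_one_right (h0 i) ?_
        simp only [hθ]
        rw [← sum_div]
        exact div_le_one_of_le₀ (hu i (mem_range.1 hi)) (by positivity)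
      linarith
    calc _ ≤ ∑ j ∈ J, η j * ((2 ^ dk k) ^ q * l ^ q) := sum_le_sum h2
      _ = (∑ j ∈ J, η j) * ((2 ^ dk k) ^ q * l ^ q) := by rw [sum_mul]
      _ ≤ 2 * ((2 ^ dk k) ^ q * l ^ q) := by gcongr
      _ = _ := by ring
  have hlim : Filter.Tendsto
      (fun δ : ℝ => 2 * ((2 : ℝ) ^ dk k) ^ q * (NK K u + δ) ^ q)
      (nhdsWithin 0 (Set.Ioi 0)) (nhds (2 * ((2 : ℝ) ^ dk k) ^ q * (NK K u + 0) ^ q)) := by
    refine Filter.Tendsto.mono_left (Continuous.tendsto ?_ 0) nhdsWithin_le_nhds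
    exact continuous_const.mul
      ((Real.continuous_rpow_const hq.le).comp (continuous_const.add continuous_id))
  simp only [add_zero] at hlim
  exact ge_of_tendsto hlim (eventually_nhdsWithin_of_forall key)

/-- A norming functional. -/
lemma exists_norming (K : ℕ) {U : ℕ → ℝ} (hU : ∀ i, 0 ≤ U i) :
    ∃ f : ℕ → ℝ, (∀ i, 0 ≤ f i) ∧ (∀ x : ℕ → ℝ, ∑ i ∈ range K, f i * |x i| ≤ NK K x) ∧
      ∑ i ∈ range K, f i * U i = NK K U := by
  rcases eq_or_ne U 0 with rfl | hU0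
  · exact ⟨0, fun _ => le_rfl, fun x => by simpa using NK_nonneg K x,
      by simpa using le_antisymm (NK_nonneg K 0) (by simpa using NK_le_sum K 0)⟩
  obtain ⟨g, hg1, hg2⟩ := exists_extension_of_le_sublinear
    (LinearPMap.mkSpanSingleton (K := ℝ) U (NK K U) hU0) (NK K)
    (fun c hc x => by
      have := NK_smul K c x
      rwa [abs_of_pos hc] at this)
    (fun x y => NK_add_le fun i _ => abs_add_le _ _)
    (by
      rintro ⟨x, hx⟩
      obtain ⟨c, rfl⟩ := Submodule.mem_span_singleton.1 hx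
      rw [LinearPMap.mkSpanSingleton'_apply]
      have := NK_smul K c U
      have h2 := mul_le_mul_of_nonneg_right (le_abs_self c) (NK_nonneg K U)
      exact h2.trans (le_of_eq this.symm))
  have hgU : g U = NK K U := by
    have := hg1 ⟨U, Submodule.mem_span_singleton_self U⟩
    rw [LinearPMap.mkSpanSingleton_apply] at this
    exact this
  have hres : ∀ x : ℕ → ℝ, g (res (range K) x) = ∑ i ∈ range K, g (Pi.single i 1) * x i := by
    intro x
    have : res (range K) x = ∑ i ∈ range K, x i • (Pi.single i 1 : ℕ → ℝ) := by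
      funext j
      rw [Finset.sum_apply]
      by_cases hj : j ∈ range K
      · rw [res_of_mem hj, sum_eq_single_of_mem j hj]
        · simp
        · intro b _ hb; simp [Ne.symm hb]
      · rw [res_of_notMem hj, sum_eq_zero]
        intro i hi
        have : j ≠ i := fun h => hj (h ▸ hi)
        simp [this]
    rw [this, map_sum]
    exact sum_congr rfl fun i _ => by rw [map_smul, smul_eq_mul, mul_comm]
  have h1 : ∀ x : ℕ → ℝ, ∑ i ∈ range K, |g (Pi.single i 1)| * |x i| ≤ NK K x := by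
    intro x
    have h2 := hg2 (res (range K) fun i => SignType.sign (g (Pi.single i 1)) * |x i|)
    rw [hres] at h2
    refine le_trans (le_of_eq (sum_congr rfl fun i _ => ?_)) (h2.trans (NK_mono fun i hi => ?_))
    · rw [← mul_assoc, self_mul_sign]
    · rw [res_of_mem (mem_range.2 hi), abs_mul, abs_abs]
      refine mul_le_of_le_one_left (abs_nonneg _) ?_
      rcases lt_trichotomy (g (Pi.single i 1)) 0 with h | h | h <;> simp [h]
  refine ⟨fun i => |g (Pi.single i 1)|, fun i => abs_nonneg _, h1, le_antisymm ?_ ?_⟩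
  · simpa only [abs_of_nonneg (hU _)] using h1 U
  · have h2 : g (U - res (range K) U) ≤ 0 := by
      refine (hg2 _).trans ((NK_le_sum K _).trans (le_of_eq (sum_eq_zero fun i hi => ?_)))
      simp [res_of_mem hi]
    rw [map_sub, hgU, hres] at h2
    refine le_trans (by linarith) (sum_le_sum (f := fun i => g (Pi.single i 1) * U i)
      fun i _ => mul_le_mul_of_nonneg_right (le_abs_self _) (hU i))

end Pool.Agent.MP_650c5e_an

end
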