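import Pool.Agent.Mg.F650c5e.G0c7388

section

/-! The lattice has no asymptotically Euclidean block sequence. -/

namespace Pool.Agent.MP_650c5e_an

open Finset

/-- The lattice norm. -/
noncomputable def NN (z : ℕ → ℝ) : ℝ := ⨆ K, NK K z

lemma NN_eq {K : ℕ} {z : ℕ → ℝ} (h : ∀ i, K ≤ i → z i = 0) : NN z = NK K z := by
  have h1 : ∀ K', NK K' z ≤ NK K z := fun K' =>
    (NK_mono_K z (le_max_left K' K)).trans (NK_stab (le_max_right K' K) h).le
  exact le_antisymm (ciSup_le h1) (le_ciSup ⟨_, by rintro _ ⟨K', rfl⟩; exact h1 K'⟩ K)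

lemma NN_res {K : ℕ} {D : Finset ℕ} (hD : ∀ i ∈ D, i < K) (z : ℕ → ℝ) :
    NN (res D z) = NK K (res D z) :=
  NN_eq fun i hi => res_of_notMem fun h => absurd (hD i h) (not_lt.2 hi)

lemma NK_sq_le {K : ℕ} {x s : ℕ → ℝ} {t : ℕ → ℕ → ℝ} (hs : s ∈ SB 1) (ht : Adm t) {l : ℝ}
    (hl : 0 < l) (h : ∀ i < K, x i ^ 2 ≤ l * (s i * GP 0 K t i)) : NK K x ^ 2 ≤ l := by
  have h1 : NK K x ≤ √l := NK_le (Real.sqrt_pos.2 hl) ⟨s, hs, t, ht, fun i hi => by
    rw [mul_pow, inv_pow, Real.sq_sqrt hl.le, inv_mul_le_iff₀ hl]; exact h i hi⟩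
  calc _ ≤ √l ^ 2 := pow_le_pow_left₀ (NK_nonneg _ _) h1 2
    _ = l := Real.sq_sqrt hl.le

lemma exists_good_block {Z : ℕ → ℝ} (hZ : ∀ i, 0 ≤ Z i) {a : ℕ → ℕ} (ha : Monotone a) {C : ℝ}
    (hC : 0 < C)
    (h1 : ∀ n, ∃ i0, ∀ b, i0 ≤ b → ∀ l : ℕ, 0 < l → l ≤ n →
      l ≤ C * NN (res (Ico (a b) (a (b + l))) Z) ^ 2 ∧
      NN (res (Ico (a b) (a (b + l))) Z) ^ 2 ≤ C * l) (k b0 : ℕ) :
    ∃ (b e : ℕ) (G : Finset ℕ) (s' : ℕ → ℝ) (t' : ℕ → ℕ → ℝ), b0 ≤ b ∧ b ≤ e ∧
      0 < NN (res (Ico (a b) (a e)) Z) ∧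
      G ⊆ Ico (a b) (a e) ∧ s' ∈ SB (nk k) ∧ Adm t' ∧ (∀ κ ≤ k, t' κ ∈ BB 1) ∧
      (∀ K, ∀ i ∈ G, Z i ^ 2 ≤ 64 * NN (res (Ico (a b) (a e)) Z) ^ 2 * (s' i * GP 0 K t' i)) ∧
      NN (fun i => if i ∈ G then 0 else res (Ico (a b) (a e)) Z i) ^ 4 ≤
        10000 / (k + 1) * NN (res (Ico (a b) (a e)) Z) ^ 4 := by
  set ε : ℝ := 1 / (k + 1) with hε
  have hε0 : 0 < ε := by positivity
  set N := dw k with hN
  set M := Mk k with hM
  have hM1 : 1 ≤ M := Mk_pos k
  obtain ⟨P, hP⟩ := pow_unbounded_of_one_lt (C ^ 2) (show 1 < 1 + ε by linarith)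
  obtain ⟨i0, hi0⟩ := h1 (M ^ (P + 1))
  set β : ℕ → ℕ → ℝ := fun b l => NN (res (Ico (a b) (a (b + l))) Z) ^ 2 with hβ
  have hdiv : ∀ l ≤ N ^ 2, pat N l * (M / pat N l) = M := fun l hl =>
    Nat.mul_div_cancel' (pat_dvd N hl)
  have hdpos : ∀ l ≤ N ^ 2, 0 < M / pat N l := fun l hl =>
    Nat.pos_of_ne_zero fun h => by have := hdiv l hl; rw [h] at this; omega
  have hchain : ∃ b l0, max b0 i0 ≤ b ∧ 0 < l0 ∧ l0 * M ≤ M ^ (P + 1) ∧
      ∀ l ≤ N ^ 2, ∀ r < pat N l,
        β (b + r * (l0 * (M / pat N l))) (l0 * (M / pat N l)) * pat N l ≤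
          (1 + ε) * β b (l0 * M) := by
    by_contra hcon
    push Not at hcon
    have key : ∀ p ≤ P, ∃ b q, max b0 i0 ≤ b ∧ 0 < q ∧ M ^ (P - p) * q * M ≤ M ^ (P + 1) ∧
        (M ^ (P - p) * q * M : ℕ) * (1 + ε) ^ p ≤ C * β b (M ^ (P - p) * q * M) := by
      intro p
      induction p with
      | zero =>
        intro _
        refine ⟨max b0 i0, 1, le_rfl, one_pos, by simp [pow_succ], ?_⟩
        rw [pow_zero, mul_one]
        exact (hi0 _ (le_max_right _ _) _ (by positivity) (by simp [pow_succ])).1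
      | succ p ih =>
        intro hp
        obtain ⟨b, q, hb, hq, hlen, hα⟩ := ih (by omega)
        obtain ⟨l, hl, r, hr, hlt⟩ := hcon b (M ^ (P - p) * q) hb (by positivity) hlen
        have e1 : M ^ (P - p) * q * (M / pat N l) = M ^ (P - (p + 1)) * (q * (M / pat N l)) * M := by
          rw [show P - p = P - (p + 1) + 1 by omega, pow_succ]; ring
        have e2 : M ^ (P - p) * q * (M / pat N l) * pat N l = M ^ (P - p) * q * M := by
          rw [mul_assoc, mul_comm (M / pat N l), hdiv l hl]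
        have hpl : 1 ≤ pat N l := pat_pos (dw_pos k) l
        refine ⟨b + r * (M ^ (P - p) * q * (M / pat N l)), q * (M / pat N l), by omega,
          Nat.mul_pos hq (hdpos l hl), ?_, ?_⟩
        · rw [← e1]
          refine le_trans ?_ hlen
          rw [← e2]; exact Nat.le_mul_of_pos_right _ hpl
        · rw [← e1]
          rw [← e2] at hα
          have hplR : (0 : ℝ) < pat N l := by exact_mod_cast hpl
          refine le_of_mul_le_mul_right ?_ hplR
          rw [e2] at hα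
          have e3 : ((M ^ (P - p) * q * (M / pat N l) : ℕ) : ℝ) * pat N l =
              (M ^ (P - p) * q * M : ℕ) := by exact_mod_cast e2
          calc _ = (((M ^ (P - p) * q * (M / pat N l) : ℕ) : ℝ) * pat N l * (1 + ε) ^ p) *
                (1 + ε) := by ring
            _ ≤ C * β b (M ^ (P - p) * q * M) * (1 + ε) := by rw [e3]; gcongr
            _ = C * ((1 + ε) * β b (M ^ (P - p) * q * M)) := by ring
            _ ≤ _ := (mul_le_mul_of_nonneg_left hlt.le hC.le).trans (le_of_eq (mul_assoc _ _ _).symm)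
    obtain ⟨b, q, hb, hq, hlen, hα⟩ := key P le_rfl
    have hpos : 0 < M ^ (P - P) * q * M := by positivity
    have h2 := (hi0 b ((le_max_right _ _).trans hb) _ hpos hlen).2
    have h3 : (0 : ℝ) < (M ^ (P - P) * q * M : ℕ) := by exact_mod_cast hpos
    have h4 := hα.trans (mul_le_mul_of_nonneg_left h2 hC.le)
    nlinarith
  obtain ⟨b, l0, hb, hl0, hlen, hgood⟩ := hchain
  set A : ℕ → ℕ → ℕ := fun l r => a (b + r * (l0 * (M / pat N l))) with hAdef
  have hA : ∀ l, Monotone (A l) := fun l r r' h =>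
    ha (Nat.add_le_add_left (Nat.mul_le_mul_right _ h) _)
  have hAs : ∀ l < N ^ 2, ∀ r, A l r = A (l + 1) (r * (pat N l * N ^ 2)) := by
    intro l hl r
    have e1 : M / pat N l = pat N l * N ^ 2 * (M / pat N (l + 1)) := by
      refine Nat.eq_of_mul_eq_mul_left (pat_pos (dw_pos k) l) ?_
      rw [hdiv l hl.le]
      conv_lhs => rw [← hdiv (l + 1) hl]
      show (pat N l * N) ^ 2 * _ = _
      ring
    simp only [hAdef]
    rw [e1]; congr 2; ring
  have hends := pattern_ends hAs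
  have hA' : ∀ l r, A l (r + 1) = a (b + r * (l0 * (M / pat N l)) + l0 * (M / pat N l)) := by
    intro l r; simp only [hAdef]; congr 1; ring
  have hA00 : A 0 0 = a b := by simp [hAdef]
  have hA01 : A 0 1 = a (b + l0 * M) := by simp [hAdef, pat]
  set K := max (k + 1) (A 0 1) with hK
  have hNK : ∀ l ≤ N ^ 2, ∀ r < pat N l, ∀ i ∈ Ico (A l r) (A l (r + 1)), i < K := by
    intro l hl r hr i hi
    have := hA l (show r + 1 ≤ pat N l from hr)
    rw [(hends l hl).2] at this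
    exact lt_of_lt_of_le (mem_Ico.1 hi).2 (this.trans (le_max_right _ _))
  have hposN : ∀ l ≤ N ^ 2, ∀ r < pat N l, 0 < NN (res (Ico (A l r) (A l (r + 1))) Z) := by
    intro l hl r hr
    have hp : 0 < l0 * (M / pat N l) := Nat.mul_pos hl0 (hdpos l hl)
    have h2 := (hi0 (b + r * (l0 * (M / pat N l))) (by omega) _ hp
      ((Nat.mul_le_mul_left _ (Nat.div_le_self _ _)).trans hlen)).1
    rw [← hA'] at h2
    have h3 : (0 : ℝ) < (l0 * (M / pat N l) : ℕ) := by exact_mod_cast hp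
    refine lt_of_le_of_ne (NN_res (hNK l hl r hr) Z ▸ NK_nonneg _ _) fun e => ?_
    have e' : NN (res (Ico (a (b + r * (l0 * (M / pat N l)))) (A l (r + 1))) Z) = 0 := e.symm
    rw [e'] at h2
    linarith
  obtain ⟨l, hl, r, hr, G, s', t', hG, hs', ht', ht1, hx, hbad⟩ := good_vector
    (le_max_left (k + 1) (A 0 1)) hZ A hA hAs (le_max_right _ _)
    (fun l hl r hr => NN_res (hNK l hl r hr) Z ▸ hposN l hl r hr)
    (fun l hl r hr => by
      have h2 := hgood l hl r hr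
      simp only [hβ] at h2
      rw [← hA', ← hA00, ← hA01] at h2
      rw [← NN_res (hNK l hl r hr) Z, ← NN_res (hNK 0 (Nat.zero_le _) 0 Nat.one_pos) Z]
      exact h2)
  rw [← NN_res (hNK l hl r hr) Z] at hx hbad
  refine ⟨b + r * (l0 * (M / pat N l)), b + (r + 1) * (l0 * (M / pat N l)), G, s', _, by omega,
    Nat.add_le_add_left (Nat.mul_le_mul_right _ (Nat.le_succ r)) _, hposN l hl r hr, hG, hs',
    ht'.extend K, fun κ hκ => ?_, fun K' i hi => ?_, ?_⟩
  · simp only [show κ < K from lt_of_lt_of_le (Nat.lt_succ_of_le hκ) (le_max_left _ _), if_true]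
    exact ht1 κ hκ
  · refine (hx i hi).trans (mul_le_mul_of_nonneg_left (mul_le_mul_of_nonneg_left ?_ (hs'.1 i))
      (by positivity))
    have hiK := hNK l hl r hr i (hG hi)
    rw [← GP_extend t' hiK (le_max_left K K'), GP_split (Nat.zero_le K') (le_max_right K K')]
    exact mul_le_of_le_one_right (GP_nonneg (ht'.extend K).nonneg _ _ _)
      (GP_le_one (ht'.extend K) _ _ _)
  · rw [NN_eq (K := K) fun i hi => by
      have : res (Ico (A l r) (A l (r + 1))) Z i = 0 :=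
        res_of_notMem fun h => absurd (hNK l hl r hr i h) (not_lt.2 hi)
      split_ifs
      · rfl
      · exact this]
    exact hbad

theorem no_asymptotic {Z : ℕ → ℝ} (hZ : ∀ i, 0 ≤ Z i) {a : ℕ → ℕ} (ha : Monotone a) {C : ℝ}
    (hC : 0 < C)
    (h1 : ∀ n, ∃ i0, ∀ b, i0 ≤ b → ∀ l : ℕ, 0 < l → l ≤ n →
      l ≤ C * NN (res (Ico (a b) (a (b + l))) Z) ^ 2 ∧
      NN (res (Ico (a b) (a (b + l))) Z) ^ 2 ≤ C * l)
    (h2 : ∀ n, ∃ i0, ∀ (b e : ℕ → ℕ) (c : ℕ → ℝ), i0 ≤ b 0 → (∀ j, b j ≤ e j) →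
      (∀ j, e j ≤ b (j + 1)) → (∀ j, 0 ≤ c j) →
      ∑ j ∈ range n, NN (fun i => c j * res (Ico (a (b j)) (a (e j))) Z i) ^ 2 ≤
        C * NN (fun i => ∑ j ∈ range n, c j * res (Ico (a (b j)) (a (e j))) Z i) ^ 2) :
    False := by
  obtain ⟨k, hk⟩ := pow_unbounded_of_one_lt (1 + 3072 * C) (show (1 : ℝ) < 2 by norm_num)
  have hk1 : 1 ≤ k := by
    rcases Nat.eq_zero_or_pos k with rfl | h
    · simp at hk; linarith
    · exact h
  set d := dk k with hd
  have hd1 : 1 ≤ d := hk1.trans (le_dk k)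
  set n := R d with hn
  have hn0 : (0 : ℝ) < n := by exact_mod_cast R_pos d
  obtain ⟨i0, hi0⟩ := h2 n
  obtain ⟨k1, hk1'⟩ := exists_nat_gt (10000 * (8 * C * n) ^ 2)
  choose bb ee GG ss tt H using exists_good_block hZ ha hC h1
  set E : ℕ → ℕ := fun j => Nat.rec i0 (fun _ x => ee (max (max k k1) (a x)) x) j with hE
  set kk : ℕ → ℕ := fun j => max (max k k1) (a (E j)) with hkk
  have hEs : ∀ j, E (j + 1) = ee (kk j) (E j) := fun j => rfl
  set b : ℕ → ℕ := fun j => bb (kk j) (E j) with hb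
  have hb1 : ∀ j, E j ≤ b j := fun j => (H _ _).1
  have hb2 : ∀ j, b j ≤ E (j + 1) := fun j => (H _ _).2.1
  have hEm : Monotone E := monotone_nat_of_le_succ fun j => (hb1 j).trans (hb2 j)
  set A : ℕ → ℕ := fun j => a (E j) with hA
  have hAm : Monotone A := ha.comp hEm
  set I : ℕ → Finset ℕ := fun j => Ico (a (b j)) (a (E (j + 1))) with hI
  have hIW : ∀ j, I j ⊆ Ico (A j) (A (j + 1)) := fun j => Ico_subset_Ico (ha (hb1 j)) le_rfl
  set Nj : ℕ → ℝ := fun j => NN (res (I j) Z) with hNj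
  have hN0 : ∀ j, 0 < Nj j := fun j => (H (kk j) (E j)).2.2.1
  set G : ℕ → Finset ℕ := fun j => GG (kk j) (E j) with hG
  set s : ℕ → ℕ → ℝ := fun j => ss (kk j) (E j) with hs
  set t : ℕ → ℕ → ℕ → ℝ := fun j => tt (kk j) (E j) with ht
  have hGI : ∀ j, G j ⊆ I j := fun j => (H (kk j) (E j)).2.2.2.1
  have hs1 : ∀ j, s j ∈ SB (R (A j)) := fun j =>
    SB_anti (R_mono ((le_max_right _ _).trans (le_dk (kk j)))) (H (kk j) (E j)).2.2.2.2.1
  have ht1 : ∀ j, Adm (t j) := fun j => (H (kk j) (E j)).2.2.2.2.2.1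
  have ht2 : ∀ j, ∀ κ ≤ k, t j κ ∈ BB 1 := fun j κ hκ =>
    (H (kk j) (E j)).2.2.2.2.2.2.1 κ (hκ.trans ((le_max_left _ _).trans (le_max_left _ _)))
  have hx : ∀ j K, ∀ i ∈ G j, Z i ^ 2 ≤ 64 * Nj j ^ 2 * (s j i * GP 0 K (t j) i) :=
    fun j => (H (kk j) (E j)).2.2.2.2.2.2.2.1
  have hbad : ∀ j, NN (fun i => if i ∈ G j then 0 else res (I j) Z i) ^ 4 ≤
      10000 / (kk j + 1) * Nj j ^ 4 := fun j => (H (kk j) (E j)).2.2.2.2.2.2.2.2
  set K := max (k + 1) (A n) with hK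
  have hkK : k + 1 ≤ K := le_max_left _ _
  have hIK : ∀ j < n, ∀ i ∈ I j, i < K := fun j hj i hi =>
    lt_of_lt_of_le (mem_Ico.1 (hIW j hi)).2 ((hAm hj).trans (le_max_right _ _))
  have hlow := hi0 b (fun j => E (j + 1)) (fun j => (Nj j)⁻¹) (hb1 0) hb2 (fun j => hb1 (j + 1))
    fun j => (inv_pos.2 (hN0 j)).le
  have e1 : ∑ j ∈ range n, NN (fun i => (Nj j)⁻¹ * res (I j) Z i) ^ 2 = n := by
    rw [sum_congr rfl (g := fun _ => (1 : ℝ))]
    · simp
    · intro j hj
      rw [NN_eq (K := K) fun i hi => by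
        rw [res_of_notMem fun h => absurd (hIK j (mem_range.1 hj) i h) (not_lt.2 hi), mul_zero],
        NK_smul, ← NN_res (hIK j (mem_range.1 hj)), abs_of_pos (inv_pos.2 (hN0 j)),
        inv_mul_cancel₀ (hN0 j).ne', one_pow]
  change ∑ j ∈ range n, NN (fun i => (Nj j)⁻¹ * res (I j) Z i) ^ 2 ≤
    C * NN (fun i => ∑ j ∈ range n, (Nj j)⁻¹ * res (I j) Z i) ^ 2 at hlow
  rw [e1, NN_eq (K := K) fun i hi => sum_eq_zero fun j hj => by
    rw [res_of_notMem fun h => absurd (hIK j (mem_range.1 hj) i h) (not_lt.2 hi), mul_zero]]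
    at hlow
  set g : ℕ → ℝ := fun i => ∑ j ∈ range n, (Nj j)⁻¹ * res (G j) Z i with hg
  set bad : ℕ → ℕ → ℝ := fun j i => (Nj j)⁻¹ * (if i ∈ G j then 0 else res (I j) Z i) with hbd
  have htri : NK K (fun i => ∑ j ∈ range n, (Nj j)⁻¹ * res (I j) Z i) ≤
      NK K g + ∑ j ∈ range n, NK K (bad j) := by
    refine le_trans (NK_add_le (x := g) (x' := fun i => ∑ j ∈ range n, bad j i) fun i _ => ?_)
      (add_le_add le_rfl (NK_sum_le _ bad fun i _ => abs_sum_le_sum_abs _ _))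
    refine le_trans (le_of_eq ?_) (abs_add_le _ _)
    congr 1
    simp only [hg, hbd]
    rw [← sum_add_distrib]
    refine sum_congr rfl fun j _ => ?_
    by_cases h : i ∈ G j
    · rw [if_pos h, res_of_mem h, res_of_mem (hGI j h)]; ring
    · rw [if_neg h, res_of_notMem h]; ring
  have hb3 : ∀ j ∈ range n, NK K (bad j) ^ 2 ≤ 1 / (8 * C * n) := by
    intro j hj
    have h3 := hbad j
    rw [NN_eq (K := K) fun i hi => by
      have : res (I j) Z i = 0 :=
        res_of_notMem fun h => absurd (hIK j (mem_range.1 hj) i h) (not_lt.2 hi)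
      split_ifs
      · rfl
      · exact this] at h3
    have h4 : (10000 : ℝ) / (kk j + 1) ≤ (1 / (8 * C * n)) ^ 2 := by
      have h5 : (k1 : ℝ) ≤ kk j := by
        exact_mod_cast (le_max_right k k1).trans (le_max_left _ _)
      rw [div_pow, div_le_div_iff₀ (by positivity) (by positivity)]
      linarith
    refine (abs_le_of_sq_le_sq' ?_ (by positivity)).2
    have hp := hN0 j
    simp only [hbd]
    rw [NK_smul, abs_of_pos (inv_pos.2 hp), ← pow_mul, mul_pow, inv_pow,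
      inv_mul_le_iff₀ (by positivity)]
    refine h3.trans ?_
    rw [mul_comm]
    gcongr
  have hb4 : (∑ j ∈ range n, NK K (bad j)) ^ 2 ≤ n / (8 * C) := by
    refine (sq_sum_le_card_mul_sum_sq).trans ?_
    calc _ ≤ (#(range n) : ℝ) * ∑ j ∈ range n, 1 / (8 * C * n) := by
          gcongr with j hj
          exact hb3 j hj
      _ = _ := by
          rw [sum_const, card_range, nsmul_eq_mul]; field_simp
  have hS := ris hd1 hAm (σ := s) fun j _ => hs1 j
  set cc : ℕ → ℝ := fun κ => if κ < k then (1 / 2 : ℝ) ^ d else if κ = k then 1 else 1 / n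
    with hcc
  have hcc0 : ∀ κ, 0 ≤ cc κ := fun κ => by simp only [hcc]; split_ifs <;> positivity
  set T : ℕ → ℕ → ℝ := fun κ i =>
    cc κ * ∑ j ∈ range n, res (Ico (A j) (A (j + 1))) (t j κ) i with hT
  have hT1 : Adm T := fun κ => by
    rcases lt_trichotomy κ k with h | h | h
    · simp only [hT, hcc, h, if_true]
      exact BB_mono (nk_pos κ) (BB.shrink (merge hAm n fun j _ => ht2 j κ h.le))
    · subst h
      simp only [hT, hcc, lt_irrefl, if_true, if_false, one_mul]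
      exact merge hAm n fun j _ => ht2 j κ le_rfl
    · simp only [hT, hcc, show ¬ κ < k by omega, h.ne', if_false, mul_sum]
      refine polar.comb (range n) (fun _ => 1 / (n : ℝ)) _ (fun _ _ => by positivity)
        (by rw [sum_const, card_range, nsmul_eq_mul, mul_one_div_cancel hn0.ne']) fun j _ => ?_
      have := ht1 j κ
      exact BB.solid this (res_nonneg this.1) (res_le this.1)
  have hgain : (2 : ℝ) ^ k / 3 ≤ 2 ^ d * GP 0 K (fun κ _ => cc κ) 0 := by
    rw [GP_split (Nat.zero_le k) (by omega), GP_split (Nat.le_succ k) hkK,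
      GP_const (Nat.zero_le k) (c := (1 / 2 : ℝ) ^ d) (by positivity)
        (fun κ _ h => by simp only [hcc, h, if_true]),
      GP_const (Nat.le_succ k) (c := 1) zero_le_one
        (fun κ h h' => by simp only [hcc, show κ = k by omega, lt_irrefl, if_true, if_false]),
      GP_const hkK (c := 1 / n) (by positivity)
        (fun κ h _ => by
          simp only [hcc, show ¬ κ < k by omega, show κ ≠ k by omega, if_false]),
      Real.one_rpow, one_mul, Gam_zero]
    have f1 : (2 : ℝ) ^ k ≤ 2 ^ d * ((1 / 2 : ℝ) ^ d) ^ (1 - Gam k) := by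
      rw [one_div, inv_pow, Real.inv_rpow (by positivity), ← Real.rpow_neg (by positivity),
        ← Real.rpow_one_add' (by positivity) (by linarith [Gam_pos k]), ← Real.rpow_natCast,
        ← Real.rpow_natCast, ← Real.rpow_mul (by norm_num)]
      refine Real.rpow_le_rpow_of_exponent_le (by norm_num) ?_
      have h3 := le_dk_mul_gam k
      have h4 : gam k ≤ Gam k := by unfold gam; linarith [Gam_pos (k + 1)]
      have h5 : (dk k : ℝ) * gam k ≤ dk k * Gam k := by gcongr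
      simp only [hd]; linarith
    have f2 : (1 : ℝ) / 3 ≤ (1 / n) ^ (Gam (k + 1) - Gam K) := by
      rw [one_div (n : ℝ), Real.inv_rpow hn0.le, one_div]
      refine inv_anti₀ (by positivity) ?_
      rw [Real.rpow_def_of_pos hn0]
      refine le_trans (Real.exp_le_exp.2 ?_) (Real.exp_one_lt_d9.le.trans (by norm_num))
      have h3 : Gam (k + 1) * n ≤ 1 := Gam_succ_mul_n k
      have h4 := Real.log_le_sub_one_of_pos hn0
      have h5 : 0 ≤ Real.log n := Real.log_natCast_nonneg n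
      have h6 := Gam_pos K
      have h7 := Gam_pos (k + 1)
      nlinarith
    calc (2 : ℝ) ^ k / 3 = 2 ^ k * (1 / 3) := by ring
      _ ≤ (2 ^ d * ((1 / 2 : ℝ) ^ d) ^ (1 - Gam k)) * (1 / n) ^ (Gam (k + 1) - Gam K) := by
          gcongr
      _ = _ := by ring
  have hg2 : NK K g ^ 2 ≤ 384 * n / 2 ^ k := by
    refine NK_sq_le hS hT1 (by positivity) fun i _ => ?_
    have hnn := mul_nonneg (hS.1 i) (GP_nonneg hT1.nonneg 0 K i)
    by_cases hex : ∃ j < n, i ∈ G j
    · obtain ⟨j, hj, hij⟩ := hex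
      have hiW := hIW j (hGI j hij)
      have e2 : g i = (Nj j)⁻¹ * Z i := by
        simp only [hg]
        rw [sum_eq_single_of_mem j (mem_range.2 hj), res_of_mem hij]
        intro j' _ hj'
        rw [res_of_notMem fun h => hj' (succ_unique hAm (mem_Ico.1 (hIW j' (hGI j' h)))
          (mem_Ico.1 hiW)), mul_zero]
      have e3 : GP 0 K T i = GP 0 K (t j) i * GP 0 K (fun κ _ => cc κ) 0 := by
        rw [← GP_mul (fun κ => (ht1 j).nonneg κ i) hcc0]
        exact GP_congr fun κ _ _ => by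
          simp only [hT]
          rw [glue hAm hj hiW (fun j => t j κ), mul_comm]
      have hp := hN0 j
      have h3 := hx j K i hij
      have h4 : 0 ≤ s j i * GP 0 K (t j) i :=
        mul_nonneg ((hs1 j).1 i) (GP_nonneg (ht1 j).nonneg _ _ _)
      rw [e2, e3, glue hAm hj hiW s, mul_pow, inv_pow, inv_mul_le_iff₀ (by positivity)]
      refine h3.trans ?_
      calc 64 * Nj j ^ 2 * (s j i * GP 0 K (t j) i)
          = Nj j ^ 2 * (192 / 2 ^ k * (s j i * GP 0 K (t j) i) * (2 ^ k / 3)) := by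
            field_simp; ring
        _ ≤ Nj j ^ 2 * (192 / 2 ^ k * (s j i * GP 0 K (t j) i) *
            (2 ^ d * GP 0 K (fun κ _ => cc κ) 0)) := by gcongr
        _ = _ := by
            have : (R d : ℝ) ≠ 0 := hn0.ne'
            simp only [hn]
            field_simp; ring
    · push Not at hex
      have e2 : g i = 0 := sum_eq_zero fun j hj => by
        rw [res_of_notMem (hex j (mem_range.1 hj)), mul_zero]
      rw [e2, sq, mul_zero]
      exact mul_nonneg (by positivity) hnn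
  have hfin : NK K (fun i => ∑ j ∈ range n, (Nj j)⁻¹ * res (I j) Z i) ^ 2 ≤
      2 * (384 * n / 2 ^ k) + 2 * (n / (8 * C)) := by
    refine (pow_le_pow_left₀ (NK_nonneg _ _) htri 2).trans ?_
    nlinarith [sq_nonneg (NK K g - ∑ j ∈ range n, NK K (bad j))]
  have h5 : C * (2 * (384 * n / 2 ^ k) + 2 * (n / (8 * C))) = n * (768 * C / 2 ^ k + 1 / 4) := by
    field_simp; ring
  have h6 : 768 * C / 2 ^ k ≤ 1 / 4 := by
    rw [div_le_iff₀ (by positivity)]; linarith
  have h7 := hlow.trans (mul_le_mul_of_nonneg_left hfin hC.le)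
  nlinarith

end Pool.Agent.MP_650c5e_an

end

section

/-! The symmetric norm built from the `K`-functional. -/

namespace Pool.Agent.MP_650c5e_an

open Finset

/-- Real powers of two. -/
noncomputable def tw (e : ℝ) : ℝ := (2 : ℝ) ^ e

lemma tw_pos (e : ℝ) : 0 < tw e := Real.rpow_pos_of_pos two_pos e

lemma tw_add (a b : ℝ) : tw (a + b) = tw a * tw b := Real.rpow_add two_pos a b

lemma tw_rpow (a p : ℝ) : tw a ^ p = tw (a * p) := (Real.rpow_mul zero_le_two a p).symm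

lemma tw_nat (n : ℕ) : tw n = 2 ^ n := Real.rpow_natCast 2 n

lemma tw_zero : tw 0 = 1 := Real.rpow_zero 2

lemma tw_one : tw 1 = 2 := Real.rpow_one 2

lemma tw_mono {a b : ℝ} (h : a ≤ b) : tw a ≤ tw b :=
  Real.rpow_le_rpow_of_exponent_le one_le_two h

lemma tw_lt_one {a : ℝ} (h : a < 0) : tw a < 1 :=
  Real.rpow_lt_one_of_one_lt_of_neg one_lt_two h

lemma tw_geom {β : ℝ} (hβ : 0 < β) (a K : ℕ) :
    ∑ r ∈ Ico a K, tw (-(β * r)) ≤ tw (-(β * a)) / (1 - tw (-β)) := by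
  have h : ∀ r : ℕ, tw (-(β * r)) = tw (-β) ^ r := fun r => by
    rw [← Real.rpow_natCast, tw_rpow]; congr 1; ring
  simp_rw [h]
  exact geom_sum_Ico_le_of_lt_one (tw_pos _).le (tw_lt_one (by linarith))

lemma tw_geom' {β : ℝ} (hβ : 0 < β) (K : ℕ) :
    ∑ r ∈ range K, tw (-(β * r)) ≤ 1 / (1 - tw (-β)) := by
  simpa [tw_zero] using tw_geom hβ 0 K

lemma tw_half : 1 / (1 - tw (-(1 / 2))) ≤ 4 := by
  have h1 : tw (-(1 / 2)) * tw (-(1 / 2)) = 1 / 2 := by
    rw [← tw_add, show -(1 / 2 : ℝ) + -(1 / 2) = -1 by ring]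
    simp [tw, Real.rpow_neg_one]
  have h2 := tw_pos (-(1 / 2))
  have h3 : tw (-(1 / 2)) ≤ 3 / 4 := by nlinarith
  rw [div_le_iff₀ (by linarith)]; linarith

lemma sum_rpow_le_rpow_sum {ι : Type*} (J : Finset ι) {a : ι → ℝ} (ha : ∀ j ∈ J, 0 ≤ a j) {p : ℝ}
    (hp : 1 ≤ p) : ∑ j ∈ J, a j ^ p ≤ (∑ j ∈ J, a j) ^ p := by
  classical
  induction J using Finset.induction_on with
  | empty => simpa using Real.rpow_nonneg le_rfl p
  | insert j J hj ih =>
    rw [sum_insert hj, sum_insert hj]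
    have h1 := ih fun i hi => ha i (mem_insert_of_mem hi)
    have h2 := Real.add_rpow_le_rpow_add (ha j (mem_insert_self _ _))
      (sum_nonneg fun i hi => ha i (mem_insert_of_mem hi)) hp
    linarith

lemma rpow_sum_le_sum_rpow {ι : Type*} (J : Finset ι) {a : ι → ℝ} (ha : ∀ j ∈ J, 0 ≤ a j) {p : ℝ}
    (hp0 : 0 < p) (hp : p ≤ 1) : (∑ j ∈ J, a j) ^ p ≤ ∑ j ∈ J, a j ^ p := by
  classical
  induction J using Finset.induction_on with
  | empty => simp [Real.zero_rpow hp0.ne']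
  | insert j J hj ih =>
    rw [sum_insert hj, sum_insert hj]
    have h1 := ih fun i hi => ha i (mem_insert_of_mem hi)
    have h2 := Real.rpow_add_le_add_rpow (ha j (mem_insert_self _ _))
      (sum_nonneg fun i hi => ha i (mem_insert_of_mem hi)) hp0.le hp
    linarith

/-- Iterated right shift. -/
def shRn (r : ℕ) (z : ℕ → ℝ) : ℕ → ℝ := fun l => if r ≤ l then z (l - r) else 0

lemma NK_shRn (K r : ℕ) (z : ℕ → ℝ) : NK K (shRn r z) ≤ NK K z := by
  induction r with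
  | zero => exact le_of_eq (by congr 1)
  | succ r ih =>
    have : shRn (r + 1) z = shR (shRn r z) := by
      funext l
      cases l with
      | zero => simp [shRn, shR]
      | succ l => simp [shRn, shR]
    rw [this]; exact (NK_shR K _).trans ih

lemma NK_shLn (K r : ℕ) (z : ℕ → ℝ) : NK K (fun l => z (l + r)) ≤ NK (K + r) z := by
  induction r generalizing K z with
  | zero => exact le_rfl
  | succ r ih =>
    have := ih K (shL z)
    exact this.trans (NK_shL (K + r) z)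

lemma conv_le {K l : ℕ} (hl : l < K) (F : ℕ → ℝ → ℝ) (hF : ∀ r a, 0 ≤ F r a) (z : ℕ → ℝ) :
    ∑ m ∈ range (l + 1), F (l - m) (z m) ≤ ∑ r ∈ range K, F r (shRn r z l) := by
  rw [← sum_flip]
  refine le_trans (le_of_eq (sum_congr rfl fun r hr => ?_))
    (sum_le_sum_of_subset_of_nonneg (range_subset_range.2 hl) fun r _ _ => hF _ _)
  have := mem_range.1 hr
  rw [show l - (l - r) = r by omega, shRn, if_pos (by omega)]

/-- The `l_1` norm. -/
noncomputable def l1 (x : ℕ →₀ ℝ) : ℝ := ∑ i ∈ x.support, |x i|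

lemma l1_nonneg (x : ℕ →₀ ℝ) : 0 ≤ l1 x := sum_nonneg fun _ _ => abs_nonneg _

lemma sum_le_l1 (x : ℕ →₀ ℝ) (A : Finset ℕ) : ∑ i ∈ A, |x i| ≤ l1 x := by
  rw [← sum_subset (inter_subset_left (s₁ := A) (s₂ := x.support))]
  · exact sum_le_sum_of_subset_of_nonneg inter_subset_right fun _ _ _ => abs_nonneg _
  · intro i hi hi'
    rw [Finsupp.notMem_support_iff.1 fun h => hi' (mem_inter.2 ⟨hi, h⟩), abs_zero]

/-- The `K`-functional: the sum of the `t` largest absolute values. -/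
noncomputable def KF (t : ℕ) (x : ℕ →₀ ℝ) : ℝ :=
  ⨆ A : {A : Finset ℕ // A.card ≤ t}, ∑ i ∈ A.1, |x i|

instance (t : ℕ) : Nonempty {A : Finset ℕ // A.card ≤ t} := ⟨⟨∅, by simp⟩⟩

lemma le_KF {t : ℕ} (x : ℕ →₀ ℝ) {A : Finset ℕ} (h : A.card ≤ t) : ∑ i ∈ A, |x i| ≤ KF t x :=
  le_ciSup (f := fun A : {A : Finset ℕ // A.card ≤ t} => ∑ i ∈ A.1, |x i|)
    ⟨l1 x, by rintro _ ⟨A, rfl⟩; exact sum_le_l1 x _⟩ ⟨A, h⟩

lemma KF_le {t : ℕ} {x : ℕ →₀ ℝ} {c : ℝ} (h : ∀ A : Finset ℕ, A.card ≤ t → ∑ i ∈ A, |x i| ≤ c) :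
    KF t x ≤ c := ciSup_le fun A => h A.1 A.2

lemma KF_nonneg (t : ℕ) (x : ℕ →₀ ℝ) : 0 ≤ KF t x := by
  simpa using le_KF (t := t) x (A := ∅) (by simp)

lemma KF_le_l1 (t : ℕ) (x : ℕ →₀ ℝ) : KF t x ≤ l1 x := KF_le fun A _ => sum_le_l1 x A

lemma abs_le_KF (x : ℕ →₀ ℝ) (i : ℕ) : |x i| ≤ KF 1 x := by
  simpa using le_KF (t := 1) x (A := {i}) (by simp)

lemma KF_comb {t : ℕ} {ι : Type*} (J : Finset ι) (c : ι → ℝ) (hc : ∀ j ∈ J, 0 ≤ c j)
    (x : ι → ℕ →₀ ℝ) {u : ℕ →₀ ℝ} (hu : ∀ i, |u i| ≤ ∑ j ∈ J, c j * |x j i|) :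
    KF t u ≤ ∑ j ∈ J, c j * KF t (x j) :=
  KF_le fun A hA => by
    refine (sum_le_sum fun i _ => hu i).trans ?_
    rw [sum_comm]
    exact sum_le_sum fun j hj => by
      rw [← mul_sum]; exact mul_le_mul_of_nonneg_left (le_KF _ hA) (hc j hj)

lemma count_lt (x : ℕ →₀ ℝ) (S : Finset ℕ) (j : ℕ) :
    #{i ∈ S | KF (2 ^ j) x / 2 ^ j < |x i|} < 2 ^ j := by
  by_contra h
  obtain ⟨A, hA, hc⟩ := exists_subset_card_eq (not_lt.1 h)
  have h1 := le_KF x hc.le
  have hne : A.Nonempty := card_pos.1 (by rw [hc]; positivity)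
  have h2 : ∑ i ∈ A, KF (2 ^ j) x / 2 ^ j < ∑ i ∈ A, |x i| :=
    sum_lt_sum_of_nonempty hne fun i hi => (mem_filter.1 (hA hi)).2
  rw [sum_const, hc, nsmul_eq_mul] at h2
  push_cast at h2
  rw [mul_div_cancel₀ _ (by positivity)] at h2
  linarith

lemma count_le (x : ℕ →₀ ℝ) (S : Finset ℕ) (j : ℕ) :
    (#{i ∈ S | KF (2 ^ j) x / 2 ^ j < |x i|} : ℝ) ≤ 2 ^ j :=
  (Nat.cast_le.2 (count_lt x S j).le).trans (le_of_eq (by push_cast; rfl))

lemma layer (S : Finset ℕ) (f lam c : ℕ → ℝ) (hf : ∀ i, 0 ≤ f i) (hlam : ∀ j, 0 ≤ lam j) {p : ℝ}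
    (hp : 0 ≤ p) (hc : ∀ j, (#{i ∈ S | lam j < f i} : ℝ) ≤ c j) {a b : ℕ} (hab : a ≤ b) :
    ∑ i ∈ S, (if f i ≤ lam a then f i ^ p else 0) ≤
      ∑ j ∈ Ico a b, c (j + 1) * lam j ^ p + #S * lam b ^ p := by
  have key : ∑ i ∈ S, (if f i ≤ lam a then f i ^ p else 0) ≤
      ∑ j ∈ Ico a b, c (j + 1) * lam j ^ p + ∑ i ∈ S, (if f i ≤ lam b then f i ^ p else 0) := by
    induction b, hab using Nat.le_induction with
    | base => simp
    | succ b hab ih =>
      rw [sum_Ico_succ_top hab]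
      have h1 : ∑ i ∈ S, (if f i ≤ lam b then f i ^ p else 0) ≤
          ∑ i ∈ S, ((if lam (b + 1) < f i then lam b ^ p else 0) +
            (if f i ≤ lam (b + 1) then f i ^ p else 0)) := by
        refine sum_le_sum fun i _ => ?_
        have q1 := Real.rpow_nonneg (hf i) p
        have q2 := Real.rpow_nonneg (hlam b) p
        by_cases h : f i ≤ lam (b + 1)
        · rw [if_neg (not_lt.2 h), if_pos h, zero_add]; split_ifs; exacts [le_rfl, q1]
        · rw [if_pos (not_le.1 h), if_neg h, add_zero]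
          split_ifs with h'
          exacts [Real.rpow_le_rpow (hf i) h' hp, q2]
      rw [sum_add_distrib, ← sum_filter (fun i => lam (b + 1) < f i), sum_const,
        nsmul_eq_mul] at h1
      have h2 := mul_le_mul_of_nonneg_right (hc (b + 1)) (Real.rpow_nonneg (hlam b) p)
      linarith
  refine key.trans (add_le_add le_rfl ?_)
  rw [← nsmul_eq_mul, ← sum_const]
  refine sum_le_sum fun i _ => ?_
  split_ifs with h
  exacts [Real.rpow_le_rpow (hf i) h hp, Real.rpow_nonneg (hlam b) p]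

/-- The dyadic profile. -/
noncomputable def prof (x : ℕ →₀ ℝ) (l : ℕ) : ℝ := tw (-(1 / 2 * l)) * KF (2 ^ l) x

lemma prof_nonneg (x : ℕ →₀ ℝ) (l : ℕ) : 0 ≤ prof x l := mul_nonneg (tw_pos _).le (KF_nonneg _ _)

lemma abs_prof (x : ℕ →₀ ℝ) (l : ℕ) : |prof x l| = prof x l := abs_of_nonneg (prof_nonneg x l)

lemma kappa_eq (x : ℕ →₀ ℝ) (j : ℕ) : KF (2 ^ j) x / 2 ^ j = tw (-(1 / 2 * j)) * prof x j := by
  rw [prof, ← mul_assoc, ← tw_add, ← tw_nat, div_eq_iff (tw_pos _).ne', mul_right_comm, ← tw_add,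
    show -(1 / 2 * (j : ℝ)) + -(1 / 2 * j) + j = 0 by ring, tw_zero, one_mul]

lemma sum_prof_le (x : ℕ →₀ ℝ) (a K : ℕ) :
    ∑ l ∈ Ico a K, prof x l ≤ 4 * tw (-(1 / 2 * a)) * l1 x := by
  calc _ ≤ ∑ l ∈ Ico a K, tw (-(1 / 2 * l)) * l1 x :=
        sum_le_sum fun l _ => mul_le_mul_of_nonneg_left (KF_le_l1 _ _) (tw_pos _).le
    _ ≤ _ := by
        rw [← sum_mul]
        refine mul_le_mul_of_nonneg_right ((tw_geom (by norm_num) a K).trans ?_) (l1_nonneg x)
        rw [div_eq_mul_one_div, mul_comm]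
        exact mul_le_mul_of_nonneg_right tw_half (tw_pos _).le

/-- The symmetric norm. -/
noncomputable def XN (x : ℕ →₀ ℝ) : ℝ := NN (prof x)

lemma NK_prof_le (x : ℕ →₀ ℝ) (K : ℕ) : NK K (prof x) ≤ 4 * l1 x := by
  refine (NK_le_sum K _).trans ?_
  simp_rw [abs_prof]
  simpa [tw_zero] using sum_prof_le x 0 K

lemma le_XN (x : ℕ →₀ ℝ) (K : ℕ) : NK K (prof x) ≤ XN x :=
  le_ciSup (f := fun K => NK K (prof x)) ⟨4 * l1 x, by rintro _ ⟨K, rfl⟩; exact NK_prof_le x K⟩ K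

lemma XN_le {x : ℕ →₀ ℝ} {c : ℝ} (h : ∀ K, NK K (prof x) ≤ c) : XN x ≤ c := ciSup_le h

lemma XN_nonneg (x : ℕ →₀ ℝ) : 0 ≤ XN x := (NK_nonneg 0 _).trans (le_XN x 0)

lemma XN_le_l1 (x : ℕ →₀ ℝ) : XN x ≤ 4 * l1 x := XN_le (NK_prof_le x)

lemma abs_le_XN (x : ℕ →₀ ℝ) (i : ℕ) : |x i| ≤ XN x := by
  refine le_trans ?_ ((abs_le_NK (prof x) Nat.one_pos).trans (le_XN x 1))
  simpa [abs_prof, prof, tw_zero] using (abs_le_KF x i).trans (le_abs_self _)

lemma prof_comb {ι : Type*} (J : Finset ι) (c : ι → ℝ) (hc : ∀ j ∈ J, 0 ≤ c j)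
    (x : ι → ℕ →₀ ℝ) {u : ℕ →₀ ℝ} (hu : ∀ i, |u i| ≤ ∑ j ∈ J, c j * |x j i|) (l : ℕ) :
    prof u l ≤ ∑ j ∈ J, c j * prof (x j) l := by
  refine (mul_le_mul_of_nonneg_left (KF_comb J c hc x hu) (tw_pos _).le).trans (le_of_eq ?_)
  rw [mul_sum]; exact sum_congr rfl fun j _ => by rw [prof]; ring

lemma XN_comb {ι : Type*} (J : Finset ι) (c : ι → ℝ) (hc : ∀ j ∈ J, 0 ≤ c j)
    (x : ι → ℕ →₀ ℝ) {u : ℕ →₀ ℝ} (hu : ∀ i, |u i| ≤ ∑ j ∈ J, c j * |x j i|) :
    XN u ≤ ∑ j ∈ J, c j * XN (x j) :=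
  XN_le fun K => by
    refine (NK_sum_le J (fun j l => c j * prof (x j) l) fun l _ => ?_).trans
      (sum_le_sum fun j hj => ?_)
    · rw [abs_prof]
      exact (prof_comb J c hc x hu l).trans (sum_le_sum fun j _ => le_abs_self _)
    · rw [NK_smul, abs_of_nonneg (hc j hj)]
      exact mul_le_mul_of_nonneg_left (le_XN _ K) (hc j hj)

lemma XN_le_mul {x u : ℕ →₀ ℝ} {c : ℝ} (hc : 0 ≤ c) (h : ∀ i, |u i| ≤ c * |x i|) :
    XN u ≤ c * XN x := by
  simpa using XN_comb (univ : Finset Unit) (fun _ => c) (fun _ _ => hc) (fun _ => x) (u := u)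
    (by simpa using h)

lemma XN_mono {x u : ℕ →₀ ℝ} (h : ∀ i, |u i| ≤ |x i|) : XN u ≤ XN x := by
  simpa using XN_le_mul (x := x) (u := u) zero_le_one (by simpa using h)

lemma XN_add_le (x y : ℕ →₀ ℝ) : XN (x + y) ≤ XN x + XN y := by
  simpa using XN_comb (univ : Finset Bool) (fun _ => 1) (fun _ _ => zero_le_one)
    (fun b => if b then x else y) (u := x + y) (by simpa using fun i => abs_add_le (x i) (y i))

lemma XN_perm (π : Equiv.Perm ℕ) {x u : ℕ →₀ ℝ} (h : ∀ i, u (π i) = x i) : XN u = XN x := by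
  have key : ∀ (π : Equiv.Perm ℕ) (x u : ℕ →₀ ℝ), (∀ i, u (π i) = x i) →
      ∀ t, KF t x ≤ KF t u := fun π x u h t => KF_le fun A hA => by
    have := le_KF u (A := A.map π.toEmbedding) (t := t) (by simpa using hA)
    simpa [h] using this
  have : prof u = prof x := by
    funext l
    rw [prof, prof, le_antisymm (key π.symm u x (fun i => by rw [← h]; simp) _) (key π x u h _)]
  rw [XN, XN, this]

lemma tendsto_XN (x : ℕ →₀ ℝ) :
    Filter.Tendsto (fun K => NK K (prof x)) Filter.atTop (nhds (XN x)) :=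
  tendsto_atTop_ciSup (NK_mono_K _) ⟨4 * l1 x, by rintro _ ⟨K, rfl⟩; exact NK_prof_le x K⟩

lemma sum_rpow_le_prof (x : ℕ →₀ ℝ) {p : ℝ} (hp : 0 < p) (l : ℕ) {A : Finset ℕ}
    (hA : A.card ≤ 2 ^ l) :
    ∑ i ∈ A, |x i| ^ p ≤ ∑ m ∈ range (l + 1), 2 * tw ((1 - p / 2) * m) * prof x m ^ p := by
  have h1 := layer A (fun i => |x i|) (fun j => KF (2 ^ j) x / 2 ^ j) (fun j => 2 ^ j)
    (fun i => abs_nonneg _) (fun j => div_nonneg (KF_nonneg _ _) (by positivity)) hp.le
    (count_le x A) (Nat.zero_le l)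
  have h2 : ∀ i, |x i| ≤ KF (2 ^ 0) x / 2 ^ 0 := fun i => by simpa using abs_le_KF x i
  simp only [h2, if_true] at h1
  have h3 : ∀ m : ℕ, 2 ^ m * (KF (2 ^ m) x / 2 ^ m) ^ p = tw ((1 - p / 2) * m) * prof x m ^ p := by
    intro m
    rw [kappa_eq, Real.mul_rpow (tw_pos _).le (prof_nonneg _ _), tw_rpow, ← tw_nat, ← mul_assoc,
      ← tw_add]
    congr 2; ring
  refine h1.trans ?_
  rw [sum_range_succ, ← range_eq_Ico]
  refine add_le_add (le_of_eq (sum_congr rfl fun m _ => ?_)) ?_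
  · rw [mul_assoc, ← h3]; ring
  · rw [mul_assoc, ← h3]
    have h4 : (#A : ℝ) ≤ 2 ^ l := by exact_mod_cast hA
    have h5 : 0 ≤ (KF (2 ^ l) x / 2 ^ l) ^ p :=
      Real.rpow_nonneg (div_nonneg (KF_nonneg _ _) (by positivity)) _
    have h6 : (0 : ℝ) ≤ 2 ^ l := by positivity
    nlinarith

/-- The symmetric norm is `p`-convex for every `p < 2`. -/
lemma XN_pconvex {p : ℝ} (hp1 : 1 ≤ p) (hp2 : p < 2) : ∃ C : ℝ, 0 < C ∧
    ∀ {ι : Type} (J : Finset ι) (x : ι → ℕ →₀ ℝ) (u : ℕ →₀ ℝ),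
      (∀ i, |u i| ^ p ≤ ∑ j ∈ J, |x j i| ^ p) → XN u ^ p ≤ C * ∑ j ∈ J, XN (x j) ^ p := by
  have hp : 0 < p := by linarith
  obtain ⟨k, -, hk⟩ := exists_Gam_le (show 0 < 2 / p - 1 by rw [sub_pos, lt_div_iff₀ hp]; linarith)
  have hpk : p / 2 * (1 + Gam k) ≤ 1 := by
    calc p / 2 * (1 + Gam k) ≤ p / 2 * (2 / p) := by gcongr; linarith
      _ = 1 := by field_simp
  set β := 1 - p / 2 with hβ
  have hβ0 : 0 < β := by linarith
  have hβ1 : 0 < 1 - tw (-β) := by linarith [tw_lt_one (show -β < 0 by linarith)]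
  refine ⟨(2 ^ dk k) ^ p * (2 * (1 / (1 - tw (-β)))), by positivity, fun J x u hu => ?_⟩
  have hS : 0 ≤ ∑ j ∈ J, XN (x j) ^ p := sum_nonneg fun j _ => Real.rpow_nonneg (XN_nonneg _) _
  have hprof : ∀ l, prof u l ^ p ≤ ∑ j ∈ J, ∑ m ∈ range (l + 1),
      2 * tw (-(β * ((l - m : ℕ) : ℝ))) * |prof (x j) m| ^ p := by
    intro l
    set B := ∑ j ∈ J, ∑ m ∈ range (l + 1), 2 * tw (β * m) * prof (x j) m ^ p with hB
    have hB0 : 0 ≤ B := sum_nonneg fun j _ => sum_nonneg fun m _ =>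
      mul_nonneg (mul_nonneg zero_le_two (tw_pos _).le) (Real.rpow_nonneg (prof_nonneg _ _) _)
    have h1 : KF (2 ^ l) u ≤ (tw (l * (p - 1)) * B) ^ p⁻¹ := KF_le fun A hA => by
      rw [Real.le_rpow_inv_iff_of_pos (sum_nonneg fun _ _ => abs_nonneg _)
        (mul_nonneg (tw_pos _).le hB0) hp]
      refine (Real.rpow_sum_le_const_mul_sum_rpow_of_nonneg A hp1 fun _ _ => abs_nonneg _).trans ?_
      refine mul_le_mul ?_ ?_ (sum_nonneg fun _ _ => by positivity) (tw_pos _).le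
      · rw [← tw_rpow, tw_nat]
        exact Real.rpow_le_rpow (by positivity) (by exact_mod_cast hA) (by linarith)
      · refine (sum_le_sum fun i _ => hu i).trans ?_
        rw [sum_comm]
        exact sum_le_sum fun j _ => sum_rpow_le_prof (x j) hp l hA
    rw [Real.le_rpow_inv_iff_of_pos (KF_nonneg _ _) (mul_nonneg (tw_pos _).le hB0) hp] at h1
    rw [prof, Real.mul_rpow (tw_pos _).le (KF_nonneg _ _)]
    refine (mul_le_mul_of_nonneg_left h1 (Real.rpow_nonneg (tw_pos _).le _)).trans (le_of_eq ?_)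
    rw [tw_rpow, ← mul_assoc, ← tw_add, hB, mul_sum]
    refine sum_congr rfl fun j _ => ?_
    rw [mul_sum]
    refine sum_congr rfl fun m hm => ?_
    rw [abs_prof, Nat.cast_sub (Nat.lt_succ_iff.1 (mem_range.1 hm)),
      show -(β * ((l : ℝ) - m)) = (-(1 / 2 * (l : ℝ)) * p + l * (p - 1)) + β * m by
        rw [hβ]; ring, tw_add _ (β * m)]
    ring
  have hK : ∀ K, k ≤ K → NK K (prof u) ^ p ≤
      (2 ^ dk k) ^ p * (2 * (1 / (1 - tw (-β)))) * ∑ j ∈ J, XN (x j) ^ p := by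
    intro K hK
    have e : ∀ r : ℕ, |(2 * tw (-(β * r))) ^ p⁻¹| ^ p = 2 * tw (-(β * r)) := fun r => by
      have := tw_pos (-(β * r))
      rw [abs_of_nonneg (by positivity), Real.rpow_inv_rpow (by positivity) hp.ne']
    refine (NK_pconvex hK hp hpk (J ×ˢ range K)
      (fun jr l => (2 * tw (-(β * jr.2))) ^ p⁻¹ * shRn jr.2 (prof (x jr.1)) l) fun l hl => ?_).trans ?_
    · rw [abs_prof, sum_product]
      refine (hprof l).trans (sum_le_sum fun j _ => ?_)
      refine (conv_le hl (fun r a => 2 * tw (-(β * r)) * |a| ^ p)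
        (fun r a => by have := tw_pos (-(β * r)); positivity) (prof (x j))).trans
        (le_of_eq (sum_congr rfl fun r _ => ?_))
      rw [abs_mul, Real.mul_rpow (abs_nonneg _) (abs_nonneg _), e]
    · rw [mul_assoc]
      refine mul_le_mul_of_nonneg_left ?_ (by positivity)
      rw [sum_product, mul_sum]
      refine sum_le_sum fun j _ => ?_
      calc _ ≤ ∑ r ∈ range K, 2 * tw (-(β * r)) * XN (x j) ^ p := by
            refine sum_le_sum fun r _ => ?_
            rw [NK_smul, Real.mul_rpow (abs_nonneg _) (NK_nonneg _ _), e]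
            refine mul_le_mul_of_nonneg_left ?_ (mul_nonneg zero_le_two (tw_pos _).le)
            exact Real.rpow_le_rpow (NK_nonneg _ _) ((NK_shRn _ _ _).trans (le_XN _ _)) hp.le
        _ ≤ _ := by
            rw [← sum_mul, ← mul_sum]
            refine mul_le_mul_of_nonneg_right ?_ (Real.rpow_nonneg (XN_nonneg _) _)
            exact mul_le_mul_of_nonneg_left (tw_geom' hβ0 K) zero_le_two
  refine le_of_tendsto (((Real.continuous_rpow_const hp.le).tendsto _).comp (tendsto_XN u)) ?_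
  filter_upwards [Filter.eventually_ge_atTop k] with K hK'
  exact hK K hK'

/-- The symmetric norm is `q`-concave for every `q > 2`. -/
lemma XN_qconcave {q : ℝ} (hq2 : 2 < q) : ∃ C : ℝ, 0 < C ∧
    ∀ {ι : Type} (J : Finset ι) (x : ι → ℕ →₀ ℝ) (u : ℕ →₀ ℝ),
      (∀ i, ∑ j ∈ J, |x j i| ^ q ≤ |u i| ^ q) → ∑ j ∈ J, XN (x j) ^ q ≤ C * XN u ^ q := by
  have hq : 0 < q := by linarith
  obtain ⟨k, -, hk⟩ := exists_Gam_le (show 0 < 1 - 2 / q by rw [sub_pos, div_lt_one hq]; linarith)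
  have hqk : 2 / q ≤ 1 - Gam k := by linarith
  set β := 1 / 2 - 1 / q with hβ
  have hβ0 : 0 < β := by
    rw [hβ, sub_pos]; exact one_div_lt_one_div_of_lt two_pos hq2
  have hβ1 : 0 < 1 - tw (-β) := by linarith [tw_lt_one (show -β < 0 by linarith)]
  refine ⟨16 ^ q * (2 * (2 ^ dk k) ^ q * (2 * (1 / (1 - tw (-β)))) ^ q), by positivity,
    fun J x u hu => ?_⟩
  set S := u.support with hS
  set κ : ℕ → ℝ := fun j => KF (2 ^ j) u / 2 ^ j with hκ
  have hκ0 : ∀ j, 0 ≤ κ j := fun j => div_nonneg (KF_nonneg _ _) (by positivity)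
  have hx0 : ∀ j ∈ J, ∀ i, i ∉ S → x j i = 0 := by
    intro j hj i hi
    have h4 : |x j i| ^ q ≤ 0 := by
      have := (single_le_sum (f := fun j => |x j i| ^ q) (fun j _ => by positivity) hj).trans (hu i)
      rwa [Finsupp.notMem_support_iff.1 hi, abs_zero, Real.zero_rpow hq.ne'] at this
    by_contra h6
    exact absurd h4 (not_le.2 (Real.rpow_pos_of_pos (abs_pos.2 h6) _))
  set τ : _ → ℕ → ℝ := fun j m => ∑ i ∈ S, (if |u i| ≤ κ m then |x j i| ^ q else 0) with hτ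
  have hτ0 : ∀ j m, 0 ≤ τ j m := fun j m => sum_nonneg fun i _ => by split_ifs <;> positivity
  set lam : _ → ℕ → ℝ := fun j m => (τ j m / 2 ^ m) ^ q⁻¹ with hlam
  have hlam0 : ∀ j m, 0 ≤ lam j m := fun j m =>
    Real.rpow_nonneg (div_nonneg (hτ0 j m) (by positivity)) _
  have hlamq : ∀ j m, lam j m ^ q = τ j m / 2 ^ m := fun j m =>
    Real.rpow_inv_rpow (div_nonneg (hτ0 j m) (by positivity)) hq.ne'
  set Q : _ → ℕ → ℝ := fun j m => tw (1 / 2 * m) * lam j m with hQ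
  have hQ0 : ∀ j m, 0 ≤ Q j m := fun j m => mul_nonneg (tw_pos _).le (hlam0 j m)
  have hcount : ∀ j ∈ J, ∀ (A : Finset ℕ) (m : ℕ),
      (#{i ∈ A | lam j m < |x j i|} : ℝ) ≤ 2 * 2 ^ m := by
    intro j hj A m
    set T := {i ∈ S | |u i| ≤ κ m ∧ lam j m < |x j i|} with hT
    have h1 : {i ∈ A | lam j m < |x j i|} ⊆ {i ∈ S | κ m < |u i|} ∪ T := by
      intro i hi
      have h2 := (mem_filter.1 hi).2
      have h3 : i ∈ S := by
        by_contra h
        rw [hx0 j hj i h, abs_zero] at h2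
        exact absurd h2 (not_lt.2 (hlam0 j m))
      by_cases h : |u i| ≤ κ m
      · exact mem_union_right _ (mem_filter.2 ⟨h3, h, h2⟩)
      · exact mem_union_left _ (mem_filter.2 ⟨h3, not_le.1 h⟩)
    have h2 : (#T : ℝ) ≤ 2 ^ m := by
      rcases T.eq_empty_or_nonempty with h | h
      · rw [h]; simp
      have h3 : ∑ i ∈ T, lam j m ^ q < ∑ i ∈ T, |x j i| ^ q :=
        sum_lt_sum_of_nonempty h fun i hi =>
          Real.rpow_lt_rpow (hlam0 j m) (mem_filter.1 hi).2.2 hq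
      have h4 : ∑ i ∈ T, |x j i| ^ q ≤ τ j m := by
        refine le_trans (le_of_eq (sum_congr rfl fun i hi => ?_))
          (sum_le_sum_of_subset_of_nonneg (filter_subset _ _) fun i _ _ => by
            split_ifs <;> positivity)
        rw [if_pos (mem_filter.1 hi).2.1]
      rw [sum_const, nsmul_eq_mul, hlamq] at h3
      by_contra h5
      have h6 : (2 : ℝ) ^ m * (τ j m / 2 ^ m) ≤ #T * (τ j m / 2 ^ m) :=
        mul_le_mul_of_nonneg_right (not_le.1 h5).le (div_nonneg (hτ0 j m) (by positivity))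
      rw [mul_div_cancel₀ _ (by positivity)] at h6
      linarith
    have h3 : (#{i ∈ S | κ m < |u i|} : ℝ) ≤ 2 ^ m := count_le u S m
    have h4 : (#{i ∈ A | lam j m < |x j i|} : ℝ) ≤ #{i ∈ S | κ m < |u i|} + #T := by
      exact_mod_cast (card_le_card h1).trans (card_union_le _ _)
    linarith
  have htop : ∀ j ∈ J, ∀ i, |x j i| ≤ lam j 0 := by
    intro j hj i
    by_cases hi : i ∈ S
    · rw [← Real.rpow_le_rpow_iff (abs_nonneg _) (hlam0 j 0) hq, hlamq, pow_zero, div_one]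
      have := single_le_sum (f := fun i => if |u i| ≤ κ 0 then |x j i| ^ q else 0)
        (fun i _ => by split_ifs <;> positivity) hi
      rwa [if_pos (by simpa [hκ] using abs_le_KF u i)] at this
    · rw [hx0 j hj i hi, abs_zero]; exact hlam0 j 0
  have hA : ∀ j ∈ J, ∀ K, NK K (prof (x j)) ≤ 16 * NK K (Q j) := by
    intro j hj K
    have h1 : ∀ l, prof (x j) l ≤ ∑ m ∈ range (l + 1),
        4 * tw (-(1 / 2 * ((l - m : ℕ) : ℝ))) * |Q j m| := by
      intro l
      have h2 : KF (2 ^ l) (x j) ≤ ∑ m ∈ range (l + 1), 4 * 2 ^ m * lam j m :=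
        KF_le fun A hA => by
          have h3 := layer A (fun i => |x j i|) (lam j) (fun m => 2 * 2 ^ m)
            (fun i => abs_nonneg _) (hlam0 j) zero_le_one (hcount j hj A) (Nat.zero_le l)
          simp only [htop j hj, if_true, Real.rpow_one] at h3
          refine h3.trans ?_
          rw [sum_range_succ, ← range_eq_Ico]
          refine add_le_add (le_of_eq (sum_congr rfl fun m _ => by ring)) ?_
          have h4 : (#A : ℝ) ≤ 2 ^ l := by exact_mod_cast hA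
          have h6 : (0 : ℝ) ≤ 2 ^ l := by positivity
          exact mul_le_mul_of_nonneg_right (by linarith) (hlam0 j l)
      refine (mul_le_mul_of_nonneg_left h2 (tw_pos _).le).trans (le_of_eq ?_)
      rw [mul_sum]
      refine sum_congr rfl fun m hm => ?_
      rw [abs_of_nonneg (hQ0 j m), Nat.cast_sub (Nat.lt_succ_iff.1 (mem_range.1 hm)), ← tw_nat]
      have : tw (-(1 / 2 * (l : ℝ))) * tw m = tw (-(1 / 2 * ((l : ℝ) - m))) * tw (1 / 2 * m) := by
        rw [← tw_add, ← tw_add]; congr 1; ring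
      simp only [hQ]
      linear_combination 4 * lam j m * this
    refine (NK_sum_le (range K) (fun r l => 4 * tw (-(1 / 2 * r)) * shRn r (Q j) l)
      fun l hl => ?_).trans ?_
    · rw [abs_prof]
      refine (h1 l).trans ((conv_le hl (fun r a => 4 * tw (-(1 / 2 * r)) * |a|)
        (fun r a => by have := tw_pos (-(1 / 2 * r)); positivity) (Q j)).trans
        (le_of_eq (sum_congr rfl fun r _ => ?_)))
      have := tw_pos (-(1 / 2 * r))
      rw [abs_mul, abs_of_pos (show 0 < 4 * tw (-(1 / 2 * r)) by positivity)]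
    · calc _ ≤ ∑ r ∈ range K, 4 * tw (-(1 / 2 * r)) * NK K (Q j) := by
            refine sum_le_sum fun r _ => ?_
            have := tw_pos (-(1 / 2 * r))
            rw [NK_smul, abs_of_pos (show 0 < 4 * tw (-(1 / 2 * r)) by positivity)]
            exact mul_le_mul_of_nonneg_left (NK_shRn _ _ _) (by positivity)
        _ ≤ _ := by
            rw [← sum_mul, ← mul_sum]
            refine mul_le_mul_of_nonneg_right ?_ (NK_nonneg _ _)
            linarith [(tw_geom' (show (0 : ℝ) < 1 / 2 by norm_num) K).trans tw_half]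
  have hB : ∀ K, k ≤ K → ∑ j ∈ J, NK K (Q j) ^ q ≤
      2 * (2 ^ dk k) ^ q * (2 * (1 / (1 - tw (-β))) * XN u) ^ q := by
    intro K hK
    set N := max K #S with hN
    set U : ℕ → ℝ := fun l => ∑ r ∈ range (N + 1), 2 * tw (-(β * r)) * prof u (l + r) with hU
    have hU0 : ∀ r l : ℕ, 0 ≤ 2 * tw (-(β * r)) * prof u (l + r) := fun r l =>
      mul_nonneg (mul_nonneg zero_le_two (tw_pos _).le) (prof_nonneg _ _)
    have h1 : NK K U ≤ 2 * (1 / (1 - tw (-β))) * XN u := by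
      refine (NK_sum_le (range (N + 1)) (fun r l => 2 * tw (-(β * r)) * prof u (l + r))
        fun l _ => abs_sum_le_sum_abs _ _).trans ?_
      calc _ ≤ ∑ r ∈ range (N + 1), 2 * tw (-(β * r)) * XN u := by
            refine sum_le_sum fun r _ => ?_
            have := tw_pos (-(β * r))
            rw [NK_smul, abs_of_pos (show 0 < 2 * tw (-(β * r)) by positivity)]
            exact mul_le_mul_of_nonneg_left ((NK_shLn _ _ _).trans (le_XN _ _)) (by positivity)
        _ ≤ _ := by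
            rw [← sum_mul, ← mul_sum]
            exact mul_le_mul_of_nonneg_right
              (mul_le_mul_of_nonneg_left (tw_geom' hβ0 _) zero_le_two) (XN_nonneg _)
    refine (NK_qconcave hK hq hqk J Q (u := U) fun l hl => ?_).trans
      (mul_le_mul_of_nonneg_left (Real.rpow_le_rpow (NK_nonneg _ _) h1 hq.le) (by positivity))
    have hlN : l ≤ N := hl.le.trans (le_max_left _ _)
    have h2 : ∑ j ∈ J, τ j l ≤ ∑ m ∈ Ico l (N + 1), 2 * 2 ^ m * κ m ^ q := by
      have h3 := layer S (fun i => |u i|) κ (fun m => 2 ^ m) (fun i => abs_nonneg _) hκ0 hq.le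
        (count_le u S) hlN
      simp only [hτ]
      rw [sum_comm, sum_Ico_succ_top hlN]
      refine le_trans (sum_le_sum fun i _ => ?_) (h3.trans (add_le_add
        (le_of_eq (sum_congr rfl fun m _ => by ring)) ?_))
      · split_ifs
        · exact hu i
        · simp
      · refine mul_le_mul_of_nonneg_right ?_ (Real.rpow_nonneg (hκ0 N) _)
        have h4 : #S ≤ 2 ^ N := (le_max_right K _).trans Nat.lt_two_pow_self.le
        have h5 : (#S : ℝ) ≤ 2 ^ N := by exact_mod_cast h4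
        have h6 : (0 : ℝ) ≤ 2 ^ N := by positivity
        linarith
    have h7 : ∀ j, |Q j l| ^ q = tw ((q / 2 - 1) * l) * τ j l := fun j => by
      rw [abs_of_nonneg (hQ0 j l)]
      simp only [hQ]
      rw [Real.mul_rpow (tw_pos _).le (hlam0 j l), hlamq, tw_rpow, ← tw_nat,
        show 1 / 2 * (l : ℝ) * q = (q / 2 - 1) * l + l by ring, tw_add]
      have := tw_pos l
      field_simp
    simp_rw [h7]
    rw [← mul_sum, abs_of_nonneg (sum_nonneg fun r _ => hU0 r l)]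
    refine (mul_le_mul_of_nonneg_left h2 (tw_pos _).le).trans
      (le_trans ?_ (sum_rpow_le_rpow_sum _ (fun r _ => hU0 r l) (by linarith)))
    rw [mul_sum, sum_Ico_eq_sum_range]
    refine le_trans (sum_le_sum fun r _ => ?_) (sum_le_sum_of_subset_of_nonneg
      (range_subset_range.2 (Nat.sub_le _ _)) fun r _ _ => Real.rpow_nonneg (hU0 r l) _)
    simp only [hκ]
    rw [kappa_eq, Real.mul_rpow (tw_pos _).le (prof_nonneg _ _),
      Real.mul_rpow (mul_nonneg zero_le_two (tw_pos _).le) (prof_nonneg _ _),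
      Real.mul_rpow zero_le_two (tw_pos _).le, tw_rpow, tw_rpow, ← tw_nat, ← mul_assoc,
      ← mul_assoc]
    refine mul_le_mul_of_nonneg_right ?_ (Real.rpow_nonneg (prof_nonneg _ _) _)
    have e1 : tw ((q / 2 - 1) * l) * (2 * tw ((l + r : ℕ) : ℝ)) *
        tw (-(1 / 2 * ((l + r : ℕ) : ℝ)) * q) = 2 * tw (-(β * r) * q) := by
      rw [mul_left_comm, mul_assoc, ← tw_add, ← tw_add]
      congr 2; push_cast; rw [hβ]; field_simp; ring
    rw [e1]
    refine mul_le_mul_of_nonneg_right ?_ (tw_pos _).le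
    simpa using Real.rpow_le_rpow_of_exponent_le one_le_two (show 1 ≤ q by linarith)
  refine le_of_tendsto (tendsto_finsetSum J fun j _ =>
    ((Real.continuous_rpow_const hq.le).tendsto _).comp (tendsto_XN (x j))) ?_
  filter_upwards [Filter.eventually_ge_atTop k] with K hK
  calc _ ≤ ∑ j ∈ J, 16 ^ q * NK K (Q j) ^ q := by
        refine sum_le_sum fun j hj => ?_
        rw [← Real.mul_rpow (by norm_num) (NK_nonneg _ _)]
        exact Real.rpow_le_rpow (NK_nonneg _ _) (hA j hj K) hq.le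
    _ ≤ 16 ^ q * (2 * (2 ^ dk k) ^ q * (2 * (1 / (1 - tw (-β))) * XN u) ^ q) := by
        rw [← mul_sum]
        exact mul_le_mul_of_nonneg_left (hB K hK) (by positivity)
    _ = _ := by
        rw [Real.mul_rpow (by positivity) (XN_nonneg _)]; ring

end Pool.Agent.MP_650c5e_an

end
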