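import Pool.Agent.MP_650c5e_an.KDefs

section

/-! Modulars of finitely supported sequences. -/

namespace Pool.Agent.MP_650c5e_an.K

open Finset Filter Topology

set_option maxHeartbeats 400000

/-- Convex nonnegative functions on the half line vanishing at zero. -/
structure Orl (M : ℝ → ℝ) : Prop where
  conv : ConvexOn ℝ (Set.Ici 0) M
  nonneg : ∀ t, 0 ≤ t → 0 ≤ M t
  zero : M 0 = 0

lemma Orl.mul_le {M : ℝ → ℝ} (h : Orl M) {s t : ℝ} (hs0 : 0 ≤ s) (hs1 : s ≤ 1) (ht : 0 ≤ t) :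
    M (s * t) ≤ s * M t := by
  have := h.conv.2 (show t ∈ Set.Ici (0 : ℝ) from ht) (Set.mem_Ici.2 le_rfl)
    hs0 (show 0 ≤ 1 - s by linarith) (by ring)
  simpa [h.zero] using this

lemma Orl.mono {M : ℝ → ℝ} (h : Orl M) {s t : ℝ} (hs : 0 ≤ s) (hst : s ≤ t) : M s ≤ M t := by
  rcases (hs.trans hst).eq_or_lt with h0 | h0
  · rw [le_antisymm (h0 ▸ hst) hs, ← h0]
  · have h1 : s / t ≤ 1 := (div_le_one h0).2 hst
    have h2 := h.mul_le (div_nonneg hs h0.le) h1 h0.le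
    rw [div_mul_cancel₀ _ h0.ne'] at h2
    have h3 := h.nonneg t h0.le
    nlinarith [div_nonneg hs h0.le]

lemma Orl.contAt {M : ℝ → ℝ} (h : Orl M) {t : ℝ} (ht : 0 < t) : ContinuousAt M t := by
  have := h.conv.continuousOn_interior
  rw [interior_Ici] at this
  exact this.continuousAt (Ioi_mem_nhds ht)

variable {𝕜 : Type} [RCLike 𝕜]

/-- The modular of `t • a`. -/
noncomputable def md (G : ℕ → ℝ → ℝ) (a : ℕ →₀ 𝕜) (t : ℝ) : ℝ :=
  ∑ n ∈ a.support, G n (t * ‖a n‖)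

variable {G : ℕ → ℝ → ℝ}

lemma md_eq (hG : ∀ n, Orl (G n)) {a : ℕ →₀ 𝕜} {S : Finset ℕ} (hS : a.support ⊆ S) (t : ℝ) :
    md G a t = ∑ n ∈ S, G n (t * ‖a n‖) :=
  sum_subset hS fun n _ hn => by
    rw [Finsupp.notMem_support_iff.1 hn, norm_zero, mul_zero, (hG n).zero]

lemma orl_md (hG : ∀ n, Orl (G n)) (a : ℕ →₀ 𝕜) : Orl (md G a) where
  conv := ⟨convex_Ici 0, fun x hx y hy p q hp hq hpq => by
    simp only [md, smul_eq_mul, mul_sum, ← sum_add_distrib]
    refine sum_le_sum fun n _ => ?_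
    have := (hG n).conv.2 (show x * ‖a n‖ ∈ Set.Ici (0 : ℝ) from mul_nonneg hx (norm_nonneg _))
      (show y * ‖a n‖ ∈ Set.Ici (0 : ℝ) from mul_nonneg hy (norm_nonneg _)) hp hq hpq
    simp only [smul_eq_mul] at this
    rw [show (p * x + q * y) * ‖a n‖ = p * (x * ‖a n‖) + q * (y * ‖a n‖) by ring]
    exact this⟩
  nonneg t ht := sum_nonneg fun n _ => (hG n).nonneg _ (mul_nonneg ht (norm_nonneg _))
  zero := by simp [md, (hG _).zero]

lemma md_congr (hG : ∀ n, Orl (G n)) {a b : ℕ →₀ 𝕜} {c : ℝ} (h : ∀ n, ‖a n‖ = c * ‖b n‖)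
    (t : ℝ) : md G a t = md G b (t * c) := by
  classical
  rw [md_eq hG (subset_union_left (s₂ := b.support)),
    md_eq hG (subset_union_right (s₁ := a.support))]
  exact sum_congr rfl fun n _ => by rw [h, mul_assoc]

lemma md_smul (hG : ∀ n, Orl (G n)) (a : ℕ →₀ 𝕜) (c : 𝕜) (t : ℝ) :
    md G (c • a) t = md G a (t * ‖c‖) :=
  md_congr hG (fun n => by simp) t

lemma md_mono (hG : ∀ n, Orl (G n)) {a b : ℕ →₀ 𝕜} (h : ∀ n, ‖a n‖ ≤ ‖b n‖) {t : ℝ}
    (ht : 0 ≤ t) : md G a t ≤ md G b t := by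
  classical
  rw [md_eq hG (subset_union_left (s₂ := b.support)),
    md_eq hG (subset_union_right (s₁ := a.support))]
  exact sum_le_sum fun n _ => (hG n).mono (mul_nonneg ht (norm_nonneg _))
    (mul_le_mul_of_nonneg_left (h n) ht)

/-- Families with pairwise disjoint supports. -/
def Dj {ι : Type} (y : ι → ℕ →₀ 𝕜) : Prop := ∀ i i' n, y i n ≠ 0 → y i' n ≠ 0 → i = i'

lemma Dj.point {ι : Type} {y : ι → ℕ →₀ 𝕜} (hy : Dj y) (S : Finset ι) (n : ℕ) (F : 𝕜 → ℝ)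
    (hF : F 0 = 0) : F ((∑ i ∈ S, y i) n) = ∑ i ∈ S, F (y i n) := by
  rw [Finsupp.finsetSum_apply]
  by_cases h : ∃ i ∈ S, y i n ≠ 0
  · obtain ⟨i, hi, hn⟩ := h
    have h0 : ∀ i' ∈ S, i' ≠ i → y i' n = 0 := fun i' _ hne => by
      by_contra h'
      exact hne (hy _ _ _ h' hn)
    rw [sum_eq_single_of_mem i hi h0, sum_eq_single_of_mem i hi fun i' hi' hne => by
      rw [h0 i' hi' hne, hF]]
  · push Not at h
    rw [sum_eq_zero h, hF, sum_eq_zero fun i hi => by rw [h i hi, hF]]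

lemma Dj.smul {ι : Type} {y : ι → ℕ →₀ 𝕜} (hy : Dj y) (c : ι → 𝕜) : Dj fun i => c i • y i :=
  fun i i' n h h' => hy i i' n (right_ne_zero_of_mul h) (right_ne_zero_of_mul h')

lemma Dj.comp {ι κ : Type} {y : ι → ℕ →₀ 𝕜} (hy : Dj y) {φ : κ → ι}
    (hφ : Function.Injective φ) : Dj fun i => y (φ i) :=
  fun _ _ n h h' => hφ (hy _ _ n h h')

lemma md_sum (hG : ∀ n, Orl (G n)) {ι : Type} {y : ι → ℕ →₀ 𝕜} (hy : Dj y) (S : Finset ι)
    (t : ℝ) : md G (∑ i ∈ S, y i) t = ∑ i ∈ S, md G (y i) t := by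
  classical
  have h1 : (∑ i ∈ S, y i).support ⊆ S.biUnion fun i => (y i).support :=
    Finsupp.support_finsetSum
  rw [md_eq hG h1, sum_congr rfl fun i hi => md_eq hG
    (subset_biUnion_of_mem (fun i => (y i).support) hi) t, sum_comm]
  exact sum_congr rfl fun n _ => hy.point S n (fun c => G n (t * ‖c‖)) (by simp [(hG n).zero])

lemma md_blocks (hG : ∀ n, Orl (G n)) {y : ℕ → ℕ →₀ 𝕜} (hy : Dj y) (a : ℕ →₀ 𝕜) (t : ℝ) :
    md G (Finsupp.linearCombination 𝕜 y a) t = md (fun k => md G (y k)) a t := by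
  rw [Finsupp.linearCombination_apply, Finsupp.sum, md_sum hG (hy.smul a)]
  exact sum_congr rfl fun k _ => md_smul hG _ _ _

variable {Y : Type} [NormedAddCommGroup Y] [NormedSpace 𝕜 Y]

/-- The norm of `j a` is the Luxemburg norm of `a`. -/
structure Rep (G : ℕ → ℝ → ℝ) (j : (ℕ →₀ 𝕜) →ₗ[𝕜] Y) : Prop where
  orl : ∀ n, Orl (G n)
  le_iff : ∀ a t, 0 < t → (md G a t ≤ 1 ↔ t * ‖j a‖ ≤ 1)

variable {j : (ℕ →₀ 𝕜) →ₗ[𝕜] Y}

lemma Rep.one_le (h : Rep G j) {a : ℕ →₀ 𝕜} {t : ℝ} (ht : 0 < t) (ha : t * ‖j a‖ = 1) :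
    1 ≤ md G a t := by
  have h1 : Tendsto (md G a) (𝓝[>] t) (𝓝 (md G a t)) :=
    ((orl_md h.orl a).contAt ht).tendsto.mono_left nhdsWithin_le_nhds
  refine ge_of_tendsto h1 (eventually_mem_nhdsWithin.mono fun s hs => ?_)
  have hs' : t < s := hs
  by_contra h2
  have h3 := (h.le_iff a s (ht.trans hs')).1 (not_le.1 h2).le
  have h4 : 0 < ‖j a‖ := by
    rcases (norm_nonneg (j a)).eq_or_lt with h0 | h0
    · rw [← h0] at ha; simp at ha
    · exact h0
  nlinarith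

lemma Rep.norm_mono (h : Rep G j) {a b : ℕ →₀ 𝕜} (hab : ∀ n, ‖a n‖ ≤ ‖b n‖) :
    ‖j a‖ ≤ ‖j b‖ := by
  refine le_of_forall_gt_imp_ge_of_dense fun r hr => ?_
  have hr0 : 0 < r := (norm_nonneg _).trans_lt hr
  have h1 := (h.le_iff b r⁻¹ (inv_pos.2 hr0)).2 (by rw [inv_mul_le_iff₀ hr0]; linarith)
  have h2 := (h.le_iff a r⁻¹ (inv_pos.2 hr0)).1
    ((md_mono h.orl hab (inv_pos.2 hr0).le).trans h1)
  rw [inv_mul_le_iff₀ hr0] at h2
  linarith

lemma Rep.norm_signs (h : Rep G j) {ι : Type} {y : ι → ℕ →₀ 𝕜} (hy : Dj y) (S : Finset ι)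
    (ε : ι → Bool) : ‖∑ i ∈ S, if ε i then j (y i) else -j (y i)‖ = ‖j (∑ i ∈ S, y i)‖ := by
  have h1 : (∑ i ∈ S, if ε i then j (y i) else -j (y i)) =
      j (∑ i ∈ S, (if ε i then (1 : 𝕜) else -1) • y i) := by
    rw [map_sum]
    exact sum_congr rfl fun i _ => by split_ifs <;> simp
  have h2 : ∀ n, ‖(∑ i ∈ S, (if ε i then (1 : 𝕜) else -1) • y i) n‖ = ‖(∑ i ∈ S, y i) n‖ := by
    intro n
    rw [(hy.smul _).point S n norm norm_zero, hy.point S n norm norm_zero]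
    exact sum_congr rfl fun i _ => by split_ifs <;> simp
  rw [h1]
  exact le_antisymm (h.norm_mono fun n => (h2 n).le) (h.norm_mono fun n => (h2 n).ge)

lemma Rep.radAvg (h : Rep G j) {m : ℕ} {y : Fin m → ℕ →₀ 𝕜} (hy : Dj y) :
    radAvg (fun i => j (y i)) = ‖j (∑ i, y i)‖ := by
  unfold K.radAvg
  rw [sum_congr rfl fun ε _ => by rw [h.norm_signs hy univ ε]]
  simp

lemma rep_of_moNorm {M : ℕ → ℝ → ℝ} (hM : ∀ n, IsOrlicz (M n)) (hj : ∀ a, ‖j a‖ = moNorm 𝕜 M a) :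
    Rep M j := by
  have hO : ∀ n, Orl (M n) := fun n => ⟨(hM n).1, (hM n).2.1, (hM n).2.2.1⟩
  refine ⟨hO, fun a t ht => ?_⟩
  have h1 : ∀ ρ : ℝ, ∑' n, M n (‖a n‖ / ρ) = md M a ρ⁻¹ := fun ρ => by
    rw [tsum_eq_sum (s := a.support) fun n hn => by
      rw [Finsupp.notMem_support_iff.1 hn, norm_zero, zero_div, (hO n).zero]]
    exact sum_congr rfl fun n _ => by rw [div_eq_inv_mul]
  have hb : BddBelow {ρ : ℝ | 0 < ρ ∧ md M a ρ⁻¹ ≤ 1} := ⟨0, fun ρ hρ => hρ.1.le⟩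
  have ho := orl_md hO a
  have hne : {ρ : ℝ | 0 < ρ ∧ md M a ρ⁻¹ ≤ 1}.Nonempty := by
    have h0 := ho.nonneg 1 zero_le_one
    have h2 : 0 < md M a 1 + 1 := by linarith
    refine ⟨md M a 1 + 1, h2, ?_⟩
    have h3 := ho.mul_le (inv_pos.2 h2).le (inv_le_one_of_one_le₀ (by linarith)) zero_le_one
    rw [mul_one] at h3
    refine h3.trans ?_
    rw [inv_mul_le_iff₀ h2]; linarith
  rw [hj, moNorm]
  simp only [h1]
  constructor
  · intro h
    have := csInf_le hb (show t⁻¹ ∈ {ρ : ℝ | 0 < ρ ∧ md M a ρ⁻¹ ≤ 1} from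
      ⟨inv_pos.2 ht, by rwa [inv_inv]⟩)
    calc _ ≤ t * t⁻¹ := mul_le_mul_of_nonneg_left this ht.le
      _ = 1 := mul_inv_cancel₀ ht.ne'
  · intro h
    have h2 : Tendsto (md M a) (𝓝[<] t) (𝓝 (md M a t)) :=
      (ho.contAt ht).tendsto.mono_left nhdsWithin_le_nhds
    refine le_of_tendsto h2 ?_
    filter_upwards [Ioo_mem_nhdsLT ht] with s hs
    have h3 : sInf {ρ : ℝ | 0 < ρ ∧ md M a ρ⁻¹ ≤ 1} < s⁻¹ := by
      have h4 : t⁻¹ < s⁻¹ := inv_strictAnti₀ hs.1 hs.2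
      refine lt_of_le_of_lt ?_ h4
      rw [← one_div, le_div_iff₀ ht]; linarith
    obtain ⟨ρ, hρ, hρs⟩ := exists_lt_of_csInf_lt hne h3
    refine (ho.mono hs.1.le ?_).trans hρ.2
    rw [le_inv_comm₀ hs.1 hρ.1]; exact hρs.le

end Pool.Agent.MP_650c5e_an.K

end

section

/-! Asymptotic profiles of the modular and their growth in near Hilbert spaces. -/

namespace Pool.Agent.MP_650c5e_an.K

open Finset Filter Topology

set_option maxHeartbeats 400000

variable {𝕜 : Type} [RCLike 𝕜] {G : ℕ → ℝ → ℝ}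

/-- `f` is approximated by the dyadic values of the modular of vectors supported far away. -/
def Prof (𝕜 : Type) [RCLike 𝕜] (G : ℕ → ℝ → ℝ) (f : ℕ → ℝ) : Prop :=
  ∀ ε : ℝ, 0 < ε → ∀ J K : ℕ, ∃ a : ℕ →₀ 𝕜, (∀ n, a n ≠ 0 → K ≤ n) ∧
    ∀ l ≤ J, |md G a ((1 / 2) ^ l) - f l| ≤ ε

lemma exists_bound (a : ℕ →₀ 𝕜) : ∃ N, ∀ n, a n ≠ 0 → n < N := by
  obtain ⟨N, hN⟩ := a.support.exists_nat_subset_range
  exact ⟨N, fun n hn => mem_range.1 (hN (Finsupp.mem_support_iff.2 hn))⟩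

lemma realize (P : ℕ → (ℕ →₀ 𝕜) → Prop)
    (h : ∀ i K, ∃ a : ℕ →₀ 𝕜, (∀ n, a n ≠ 0 → K ≤ n) ∧ P i a) :
    ∃ y : ℕ → ℕ →₀ 𝕜, Dj y ∧ ∀ i, P i (y i) := by
  choose g hg1 hg2 using h
  choose N hN using exists_bound (𝕜 := 𝕜)
  set st : ℕ → ℕ := fun i => Nat.rec 0 (fun i s => max s (N (g i s))) i
  have hst : ∀ i, st (i + 1) = max (st i) (N (g i (st i))) := fun i => rfl
  have hm : Monotone st := monotone_nat_of_le_succ fun i => by rw [hst]; exact le_max_left _ _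
  have h1 : ∀ i i' n, i < i' → g i (st i) n ≠ 0 → g i' (st i') n ≠ 0 → False := by
    intro i i' n hi h h'
    have h2 := hN _ n h
    have h3 := hg1 _ _ n h'
    have h4 := hm (Nat.succ_le_of_lt hi)
    rw [hst] at h4
    omega
  refine ⟨fun i => g i (st i), fun i i' n h h' => ?_, fun i => hg2 _ _⟩
  rcases lt_trichotomy i i' with h0 | h0 | h0
  · exact (h1 _ _ n h0 h h').elim
  · exact h0
  · exact (h1 _ _ n h0 h' h).elim

lemma prof_zero : Prof 𝕜 G fun _ => 0 := fun ε hε J K =>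
  ⟨0, fun n hn => (hn rfl).elim, fun l _ => by simp [md, hε.le]⟩

lemma Prof.add (hG : ∀ n, Orl (G n)) {f g : ℕ → ℝ} (hf : Prof 𝕜 G f) (hg : Prof 𝕜 G g) :
    Prof 𝕜 G fun l => f l + g l := by
  classical
  intro ε hε J K
  obtain ⟨a, ha, ha'⟩ := hf (ε / 2) (half_pos hε) J K
  obtain ⟨N, hN⟩ := exists_bound a
  obtain ⟨b, hb, hb'⟩ := hg (ε / 2) (half_pos hε) J (max K N)
  have h0 : ∀ n, a n = 0 ∨ b n = 0 := fun n => by
    by_contra h
    push Not at h
    have := hN n h.1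
    have := hb n h.2
    omega
  refine ⟨a + b, fun n hn => ?_, fun l hl => ?_⟩
  · rcases h0 n with h | h
    · exact (le_max_left _ _).trans (hb n fun h' => hn (by simp [h, h']))
    · exact ha n fun h' => hn (by simp [h, h'])
  · have h1 : md G (a + b) ((1 / 2) ^ l) = md G a ((1 / 2) ^ l) + md G b ((1 / 2) ^ l) := by
      rw [md_eq hG Finsupp.support_add, md_eq hG (subset_union_left (s₂ := b.support)),
        md_eq hG (subset_union_right (s₁ := a.support)), ← sum_add_distrib]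
      refine sum_congr rfl fun n _ => ?_
      rcases h0 n with h | h <;> simp [h, (hG n).zero]
    have h2 := abs_le.1 (ha' l hl)
    have h3 := abs_le.1 (hb' l hl)
    rw [h1, abs_le]
    constructor <;> linarith

lemma Prof.shift (hG : ∀ n, Orl (G n)) {f : ℕ → ℝ} (hf : Prof 𝕜 G f) (r : ℕ) :
    Prof 𝕜 G fun l => f (r + l) := by
  intro ε hε J K
  obtain ⟨a, ha, ha'⟩ := hf ε hε (r + J) K
  refine ⟨(((1 / 2) ^ r : ℝ) : 𝕜) • a, fun n hn => ha n (right_ne_zero_of_mul hn), fun l hl => ?_⟩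
  rw [md_smul hG, RCLike.norm_ofReal, abs_of_pos (a := ((1 : ℝ) / 2) ^ r) (by positivity),
    ← pow_add, add_comm l r]
  exact ha' _ (by omega)

lemma Prof.sum (hG : ∀ n, Orl (G n)) {ι : Type} {f : ι → ℕ → ℝ} (S : Finset ι)
    (hf : ∀ i, Prof 𝕜 G (f i)) : Prof 𝕜 G fun l => ∑ i ∈ S, f i l := by
  classical
  induction S using Finset.induction with
  | empty => simpa using prof_zero
  | insert i S hi ih => simpa [sum_insert hi] using (hf i).add hG ih

lemma Prof.nsmul (hG : ∀ n, Orl (G n)) {f : ℕ → ℝ} (hf : Prof 𝕜 G f) (m : ℕ) :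
    Prof 𝕜 G fun l => m * f l := by
  simpa using Prof.sum hG (f := fun _ : ℕ => f) (range m) fun _ => hf

lemma Prof.nonneg (hG : ∀ n, Orl (G n)) {f : ℕ → ℝ} (hf : Prof 𝕜 G f) (l : ℕ) : 0 ≤ f l := by
  refine le_of_forall_pos_le_add fun ε hε => ?_
  obtain ⟨a, -, ha⟩ := hf ε hε l 0
  have h1 := abs_le.1 (ha l le_rfl)
  have h2 := (orl_md hG a).nonneg ((1 / 2) ^ l) (by positivity)
  linarith

lemma Prof.le_zero (hG : ∀ n, Orl (G n)) {f : ℕ → ℝ} (hf : Prof 𝕜 G f) (l : ℕ) :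
    f l ≤ (1 / 2) ^ l * f 0 := by
  refine le_of_forall_pos_le_add fun ε hε => ?_
  obtain ⟨a, -, ha⟩ := hf (ε / 2) (half_pos hε) l 0
  have h1 := abs_le.1 (ha l le_rfl)
  have h2 := abs_le.1 (ha 0 (Nat.zero_le _))
  have h4 : ((1 : ℝ) / 2) ^ l ≤ 1 := pow_le_one₀ (by norm_num) (by norm_num)
  have h5 : (0 : ℝ) < (1 / 2) ^ l := by positivity
  have h3 := (orl_md hG a).mul_le h5.le h4 zero_le_one
  rw [pow_zero] at h2
  rw [mul_one] at h3
  nlinarith

variable {Y : Type} [NormedAddCommGroup Y] [NormedSpace 𝕜 Y] {j : (ℕ →₀ 𝕜) →ₗ[𝕜] Y}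

lemma rpow_two_pow {κ : ℝ} (hκ : 0 < κ) (l : ℕ) :
    ((2 : ℝ) ^ l) ^ (2 + Real.logb 2 κ) = 4 ^ l * κ ^ l := by
  rw [← Real.rpow_natCast 2 l, ← Real.rpow_mul zero_le_two, mul_comm, Real.rpow_mul zero_le_two,
    Real.rpow_natCast, Real.rpow_add two_pos, Real.rpow_logb two_pos (by norm_num) hκ, mul_pow]
  norm_num

lemma prof_type (h : Rep G j) {κ : ℝ} (hκ1 : 1 < κ) (hκ2 : κ ≤ 2)
    (hY : HasType Y (2 + Real.logb 2 κ⁻¹)) :
    ∃ A : ℝ, 0 < A ∧ ∀ f, Prof 𝕜 G f → f 0 ≤ 2 → ∀ l, 4 ^ l * f l ≤ A * κ ^ l := by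
  obtain ⟨C, hC⟩ := hY
  set p := 2 + Real.logb 2 κ⁻¹ with hp
  have hκ0 : 0 < κ := by linarith
  have hp0 : 0 < p := by
    have := Real.logb_le_logb_of_le one_lt_two hκ0 hκ2
    rw [Real.logb_self_eq_one one_lt_two] at this
    rw [hp, Real.logb_inv]; linarith
  refine ⟨4 * ((|C| + 1) * 3) ^ p, by positivity, fun f hf h2 l => ?_⟩
  rcases (hf.nonneg h.orl l).eq_or_lt with hx | hx
  · rw [← hx, mul_zero]; positivity
  have hx2 : f l ≤ 2 := (hf.le_zero h.orl l).trans (by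
    have h4 : ((1 : ℝ) / 2) ^ l ≤ 1 := pow_le_one₀ (by norm_num) (by norm_num)
    nlinarith [hf.nonneg h.orl 0])
  obtain ⟨y, hy, hy'⟩ := realize (fun _ a => ∀ i ≤ l, |md G a ((1 / 2) ^ i) - f i| ≤ f l / 2)
    fun _ K => hf _ (half_pos hx) l K
  set m := ⌊2 / f l⌋₊ + 1 with hm
  have hm1 : 2 / f l < m := by rw [hm]; push_cast; exact Nat.lt_floor_add_one _
  have hm2 : (m : ℝ) ≤ 4 / f l := by
    have h3 := Nat.floor_le (div_nonneg zero_le_two hx.le)
    have h4 : 1 ≤ 2 / f l := (one_le_div hx).2 hx2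
    rw [hm]; push_cast
    have : 4 / f l = 2 / f l + 2 / f l := by ring
    linarith
  have hyd : Dj fun i : Fin m => y i := hy.comp Fin.val_injective
  have h3 : ∀ i, ‖j (y i)‖ ≤ 3 := fun i => by
    have h4 := abs_le.1 (hy' i 0 (Nat.zero_le _))
    have h5 := (orl_md h.orl (y i)).mul_le (s := 1 / 3) (by norm_num) (by norm_num) zero_le_one
    rw [pow_zero] at h4
    rw [mul_one] at h5
    have h6 := (h.le_iff (y i) (1 / 3) (by norm_num)).1 (by linarith)
    linarith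
  have h4 : 2 ^ l < ‖j (∑ i : Fin m, y i)‖ := by
    by_contra h5
    have h6 := (h.le_iff (∑ i : Fin m, y i) ((1 / 2) ^ l) (by positivity)).2 (by
      rw [one_div, inv_pow, inv_mul_le_iff₀ (by positivity), mul_one]; exact not_lt.1 h5)
    rw [md_sum h.orl hyd] at h6
    have h7 := card_nsmul_le_sum univ (fun i : Fin m => md G (y i) ((1 / 2) ^ l)) (f l / 2)
      fun i _ => by linarith [abs_le.1 (hy' i l le_rfl)]
    simp only [card_univ, Fintype.card_fin, nsmul_eq_mul] at h7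
    rw [div_lt_iff₀ hx] at hm1
    linarith
  have h5 := hC m fun i => j (y i)
  rw [h.radAvg hyd] at h5
  have h6 : ∑ i : Fin m, ‖j (y i)‖ ^ p ≤ m * 3 ^ p := by
    simpa using sum_le_card_nsmul univ (fun i : Fin m => ‖j (y i)‖ ^ p) (3 ^ p) fun i _ =>
      Real.rpow_le_rpow (norm_nonneg _) (h3 i) hp0.le
  have h7 : (2 : ℝ) ^ l ≤ (|C| + 1) * (m * 3 ^ p) ^ (1 / p) := by
    refine h4.le.trans (h5.trans (mul_le_mul (by linarith [le_abs_self C]) ?_ (by positivity)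
      (by positivity)))
    exact Real.rpow_le_rpow (by positivity) h6 (by positivity)
  have h8 := Real.rpow_le_rpow (by positivity) h7 hp0.le
  rw [rpow_two_pow (inv_pos.2 hκ0), Real.mul_rpow (by positivity) (by positivity),
    ← Real.rpow_mul (by positivity), one_div_mul_cancel hp0.ne', Real.rpow_one, inv_pow,
    mul_inv_le_iff₀ (by positivity)] at h8
  rw [le_div_iff₀ hx] at hm2
  rw [Real.mul_rpow (by positivity) (by positivity)]
  calc 4 ^ l * f l ≤ (|C| + 1) ^ p * (m * 3 ^ p) * κ ^ l * f l :=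
        mul_le_mul_of_nonneg_right h8 hx.le
    _ = (m * f l) * ((|C| + 1) ^ p * 3 ^ p * κ ^ l) := by ring
    _ ≤ 4 * ((|C| + 1) ^ p * 3 ^ p * κ ^ l) := mul_le_mul_of_nonneg_right hm2 (by positivity)
    _ = _ := by ring

lemma prof_cotype (h : Rep G j) {κ : ℝ} (hκ1 : 1 < κ) (hY : HasCotype Y (2 + Real.logb 2 κ)) :
    ∃ A : ℝ, 0 < A ∧ ∀ f, Prof 𝕜 G f → 1 < f 0 → ∀ l, 1 ≤ A * κ ^ l * (4 ^ l * f l) := by
  obtain ⟨C, hC⟩ := hY
  set q := 2 + Real.logb 2 κ with hq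
  have hκ0 : 0 < κ := by linarith
  have hq0 : 0 < q := by
    have := Real.logb_pos one_lt_two hκ1
    rw [hq]; linarith
  refine ⟨2 * (|C| + 1) ^ q, by positivity, fun f hf h1 l => ?_⟩
  set B : ℝ := ((|C| + 1) * 2 ^ l) ^ q with hB
  have hB1 : 1 ≤ B := Real.one_le_rpow (by
    have : (1 : ℝ) ≤ 2 ^ l := one_le_pow₀ one_le_two
    nlinarith [abs_nonneg C]) hq0.le
  set m := ⌊B⌋₊ + 1 with hm
  have hm1 : B < m := by rw [hm]; push_cast; exact Nat.lt_floor_add_one _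
  have hm2 : (m : ℝ) ≤ 2 * B := by
    have h3 := Nat.floor_le (zero_le_one.trans hB1)
    rw [hm]; push_cast; linarith
  have hm0 : (0 : ℝ) < m := by linarith
  have hx : 1 / (m : ℝ) ≤ f l := by
    by_contra hx
    push Not at hx
    obtain ⟨y, hy, hy'⟩ := realize (fun _ a => ∀ i ≤ l, |md G a ((1 / 2) ^ i) - f i| ≤
      min (1 / (m : ℝ) - f l) ((f 0 - 1) / 2)) fun _ K => hf _ (lt_min (by linarith) (by linarith)) l K
    have hyd : Dj fun i : Fin m => y i := hy.comp Fin.val_injective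
    have h3 : ∀ i, 1 ≤ ‖j (y i)‖ := fun i => by
      by_contra h4
      have h5 := (h.le_iff (y i) 1 one_pos).2 (by linarith)
      have h6 := abs_le.1 ((hy' i 0 (Nat.zero_le _)).trans (min_le_right _ _))
      rw [pow_zero] at h6
      linarith
    have h4 : ‖j (∑ i : Fin m, y i)‖ ≤ 2 ^ l := by
      have h5 := (h.le_iff (∑ i : Fin m, y i) ((1 / 2) ^ l) (by positivity)).1 (by
        rw [md_sum h.orl hyd]
        refine (sum_le_card_nsmul _ _ (1 / (m : ℝ)) fun i _ => ?_).trans (by simp [hm0.ne'])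
        linarith [abs_le.1 ((hy' i l le_rfl).trans (min_le_left _ _))])
      rwa [one_div, inv_pow, inv_mul_le_iff₀ (by positivity), mul_one] at h5
    have h5 := hC m fun i => j (y i)
    rw [h.radAvg hyd] at h5
    have h6 : (m : ℝ) ≤ ∑ i : Fin m, ‖j (y i)‖ ^ q := by
      simpa using card_nsmul_le_sum univ (fun i : Fin m => ‖j (y i)‖ ^ q) 1 fun i _ =>
        Real.one_le_rpow (h3 i) hq0.le
    have h7 : (m : ℝ) ^ (1 / q) ≤ (|C| + 1) * 2 ^ l :=
      (Real.rpow_le_rpow hm0.le h6 (by positivity)).trans (h5.trans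
        (mul_le_mul (by linarith [le_abs_self C]) h4 (norm_nonneg _) (by positivity)))
    have h8 := Real.rpow_le_rpow (by positivity) h7 hq0.le
    rw [← Real.rpow_mul hm0.le, one_div_mul_cancel hq0.ne', Real.rpow_one] at h8
    linarith
  rw [div_le_iff₀ hm0] at hx
  rw [hB, Real.mul_rpow (by positivity) (by positivity), rpow_two_pow hκ0] at hm2
  calc 1 ≤ f l * m := hx
    _ ≤ f l * (2 * ((|C| + 1) ^ q * (4 ^ l * κ ^ l))) :=
      mul_le_mul_of_nonneg_left hm2 (hf.nonneg h.orl l)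
    _ = _ := by ring

lemma prof_growth (h : Rep G j) (hY : NearHilbert Y) {κ : ℝ} (hκ1 : 1 < κ) (hκ2 : κ ≤ 2) :
    ∃ A : ℝ, 0 < A ∧ ∀ f, Prof 𝕜 G f → ∀ i l, 0 < f i → f i ≤ 1 →
      4 ^ l * f (i + l) ≤ A * κ ^ l * f i ∧ f i ≤ A * κ ^ l * (4 ^ l * f (i + l)) := by
  have hκ0 : 0 < κ := by linarith
  have h1 := Real.logb_pos one_lt_two hκ1
  have h2 := Real.logb_le_logb_of_le one_lt_two hκ0 hκ2
  rw [Real.logb_self_eq_one one_lt_two] at h2
  obtain ⟨A, hA, HA⟩ := prof_type h hκ1 hκ2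
    (hY.1 _ (by rw [Real.logb_inv]; linarith) (by rw [Real.logb_inv]; linarith))
  obtain ⟨B, hB, HB⟩ := prof_cotype h hκ1 (hY.2.1 _ (by linarith))
  refine ⟨A + 2 * B, by positivity, fun f hf i l h0 h3 => ?_⟩
  set m := ⌊1 / f i⌋₊ + 1 with hm
  have hm1 : 1 < m * f i := by
    rw [← div_lt_iff₀ h0, hm]; push_cast; exact Nat.lt_floor_add_one _
  have hm2 : m * f i ≤ 2 := by
    have h4 := Nat.floor_le (div_nonneg zero_le_one h0.le)
    rw [le_div_iff₀ h0] at h4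
    rw [hm]; push_cast; linarith
  have hg := (hf.shift h.orl i).nsmul h.orl m
  have h4 := HA _ hg hm2 l
  have h5 := HB _ hg hm1 l
  have hm0 : (0 : ℝ) < m := by rw [hm]; positivity
  have h6 : 0 ≤ 4 ^ l * f (i + l) := by have := hf.nonneg h.orl (i + l); positivity
  have h7 : 0 < κ ^ l := by positivity
  constructor
  · refine le_of_mul_le_mul_left ?_ hm0
    calc m * (4 ^ l * f (i + l)) = 4 ^ l * (m * f (i + l)) := by ring
      _ ≤ A * κ ^ l * 1 := by rw [mul_one]; exact h4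
      _ ≤ (A + 2 * B) * κ ^ l * (m * f i) := by gcongr; linarith
      _ = _ := by ring
  · refine le_of_mul_le_mul_left ?_ hm0
    calc m * f i ≤ 2 * 1 := by linarith
      _ ≤ 2 * (B * κ ^ l * (4 ^ l * (m * f (i + l)))) := by gcongr
      _ = m * (2 * B * κ ^ l * (4 ^ l * f (i + l))) := by ring
      _ ≤ _ := by gcongr; linarith

end Pool.Agent.MP_650c5e_an.K

end

section

/-! A criterion for a Musielak-Orlicz space to be asymptotically Hilbertian. -/

namespace Pool.Agent.MP_650c5e_an.K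

open Finset Filter Topology

set_option maxHeartbeats 400000

variable {𝕜 : Type} [RCLike 𝕜]

lemma exists_auerbach {E : Type} [NormedAddCommGroup E] [NormedSpace 𝕜 E] [FiniteDimensional 𝕜 E]
    {n : ℕ} (hn : Module.finrank 𝕜 E = n) :
    ∃ (b : Fin n → E) (c : Fin n → E →ₗ[𝕜] 𝕜), (∀ i, ‖b i‖ ≤ 1) ∧ (∀ i z, ‖c i z‖ ≤ ‖z‖) ∧
      ∀ z, ∑ i, c i z • b i = z := by
  classical
  have := FiniteDimensional.proper_rclike 𝕜 E
  set v := Module.finBasisOfFinrankEq 𝕜 E hn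
  have hc : Continuous fun x : Fin n → E => ‖v.det x‖ := by
    refine Continuous.norm ?_
    rw [show (v.det : (Fin n → E) → 𝕜) = fun x => Matrix.det (v.toMatrix x) from
      funext fun x => v.det_apply x]
    refine Continuous.matrix_det (continuous_pi fun i => continuous_pi fun k => ?_)
    exact (LinearMap.continuous_of_finiteDimensional (v.coord i)).comp (continuous_apply k)
  have hK : IsCompact (Set.pi Set.univ fun _ : Fin n => Metric.closedBall (0 : E) 1) :=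
    isCompact_univ_pi fun _ => isCompact_closedBall _ _
  obtain ⟨b, hb, hmax⟩ := hK.exists_isMaxOn ⟨0, fun _ _ => by simp⟩ hc.continuousOn
  have hb1 : ∀ i, ‖b i‖ ≤ 1 := fun i => by simpa using hb i trivial
  have hpos : 0 < ‖v.det b‖ := by
    have h1 : (fun i => ((‖v i‖⁻¹ : ℝ) : 𝕜) • v i) ∈
        Set.pi Set.univ fun _ : Fin n => Metric.closedBall (0 : E) 1 := fun i _ => by
      simp [norm_smul, inv_mul_le_one]
    refine lt_of_lt_of_le ?_ (hmax h1)
    have h2 := v.det.map_smul_univ (fun i => ((‖v i‖⁻¹ : ℝ) : 𝕜)) v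
    simp only [Set.mem_setOf_eq]
    rw [h2, Module.Basis.det_self, norm_pos_iff]
    simp [Finset.prod_ne_zero_iff, v.ne_zero]
  obtain ⟨hli, hsp⟩ := v.is_basis_iff_det.2 (IsUnit.mk0 _ (norm_pos_iff.1 hpos))
  refine ⟨b, fun i => (Module.Basis.mk hli hsp.ge).coord i, hb1, fun i z => ?_, fun z => ?_⟩
  · have h1 : ∀ w : E, ‖w‖ ≤ 1 → ‖(Module.Basis.mk hli hsp.ge).coord i w‖ ≤ 1 := fun w hw => by
      have h2 := LinearMap.congr_fun (v.det_smul_mk_coord_eq_det_update hli hsp.ge i) w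
      have h3 : Function.update b i w ∈
          Set.pi Set.univ fun _ : Fin n => Metric.closedBall (0 : E) 1 := fun k _ => by
        rcases eq_or_ne k i with rfl | h
        · simpa using hw
        · simpa [h] using hb1 k
      have h4 : ‖v.det (Function.update b i w)‖ ≤ ‖v.det b‖ := hmax h3
      have h5 : v.det b * (Module.Basis.mk hli hsp.ge).coord i w =
          v.det (Function.update b i w) := h2
      rw [← h5, norm_mul] at h4
      exact le_of_mul_le_mul_left (by simpa using h4) hpos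
    rcases eq_or_ne z 0 with rfl | hz
    · rw [map_zero, norm_zero, norm_zero]
    · have hz0 : 0 < ‖z‖ := norm_pos_iff.2 hz
      have := h1 (((‖z‖⁻¹ : ℝ) : 𝕜) • z) (by simp [norm_smul, hz0.ne'])
      rw [map_smul, norm_smul, RCLike.norm_ofReal, abs_of_pos (inv_pos.2 hz0),
        inv_mul_le_iff₀ hz0, mul_one] at this
      exact this
  · have := (Module.Basis.mk hli hsp.ge).sum_repr z
    simpa using this

lemma bmDist_le {E F : Type} [NormedAddCommGroup E] [NormedSpace 𝕜 E] [FiniteDimensional 𝕜 E]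
    [NormedAddCommGroup F] [InnerProductSpace 𝕜 F] {n : ℕ} (hn : Module.finrank 𝕜 E = n)
    (L : E →ₗ[𝕜] F) {A B : ℝ} (hA : 0 ≤ A) (hB : 0 ≤ B) (h1 : ∀ z, ‖z‖ ≤ A * ‖L z‖)
    (h2 : ∀ z, ‖L z‖ ≤ B * ‖z‖) : bmDist 𝕜 E (EuclideanSpace 𝕜 (Fin n)) ≤ B * A := by
  have hinj : Function.Injective L := by
    rw [injective_iff_map_eq_zero]
    intro z hz
    have := h1 z
    rw [hz, norm_zero, mul_zero] at this
    exact norm_le_zero_iff.1 this
  have hr : Module.finrank 𝕜 (LinearMap.range L) = n := by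
    rw [LinearMap.finrank_range_of_inj hinj, hn]
  set U := ((stdOrthonormalBasis 𝕜 (LinearMap.range L)).reindex (finCongr hr)).repr
  set T : E ≃L[𝕜] EuclideanSpace 𝕜 (Fin n) :=
    ((LinearEquiv.ofInjective L hinj).trans U.toLinearEquiv).toContinuousLinearEquiv
  have hT : ∀ z, ‖T z‖ = ‖L z‖ := fun z => U.norm_map (LinearEquiv.ofInjective L hinj z)
  unfold bmDist
  refine csInf_le_of_le ⟨0, ?_⟩ ⟨T, rfl⟩ (mul_le_mul ?_ ?_ (norm_nonneg _) hB)
  · rintro _ ⟨T, rfl⟩; positivity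
  · exact ContinuousLinearMap.opNorm_le_bound _ hB fun z => (hT z).trans_le (h2 z)
  · refine ContinuousLinearMap.opNorm_le_bound _ hA fun w => ?_
    have := h1 (T.symm w)
    rw [← hT, T.apply_symm_apply] at this
    exact this

/-- The modular is asymptotically quadratic. -/
def Hyp (𝕜 : Type) [RCLike 𝕜] (G : ℕ → ℝ → ℝ) : Prop :=
  ∃ K : ℝ, 0 < K ∧ ∀ (U : ℕ) (η : ℝ), 0 < η → ∃ k : ℕ, ∀ a : ℕ →₀ 𝕜, (∀ n, a n ≠ 0 → k ≤ n) →
    η ≤ md G a 1 → md G a 1 ≤ 1 → ∀ u ≤ U,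
      md G a 1 ≤ K * (4 ^ u * md G a ((1 / 2) ^ u)) ∧ 4 ^ u * md G a ((1 / 2) ^ u) ≤ K * md G a 1

variable {G : ℕ → ℝ → ℝ}

lemma quad (hG : ∀ n, Orl (G n)) {K η τ : ℝ} (hK : 0 < K) (hη : 0 < η) {U k : ℕ}
    (H : ∀ a : ℕ →₀ 𝕜, (∀ n, a n ≠ 0 → k ≤ n) → η ≤ md G a 1 → md G a 1 ≤ 1 → ∀ u ≤ U,
      md G a 1 ≤ K * (4 ^ u * md G a ((1 / 2) ^ u)) ∧ 4 ^ u * md G a ((1 / 2) ^ u) ≤ K * md G a 1)
    {t : ℕ → ℝ} (ht : ∀ n, 0 ≤ t n) {S : Finset ℕ} (hτ : ∑ n ∈ S, G n (t n) ≤ τ)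
    {a : ℕ →₀ 𝕜} (ha : ∀ n, a n ≠ 0 → k ≤ n) (hS : a.support ⊆ S) (ha1 : md G a 1 ≤ 1)
    (hU : ∀ n, a n ≠ 0 → ‖a n‖ < 2 ^ U * t n) :
    ∑ n ∈ S, G n (t n) / t n ^ 2 * ‖a n‖ ^ 2 ≤ 4 * K * md G a 1 + (U * (4 ^ U * η) + τ) ∧
    md G a 1 ≤ 4 * K * ∑ n ∈ S, G n (t n) / t n ^ 2 * ‖a n‖ ^ 2 + (U * η + τ) := by
  classical
  have hex : ∀ n, ∃ l : ℕ, a n ≠ 0 → ‖a n‖ < 2 ^ l * t n := fun n => ⟨U, hU n⟩
  set lev : ℕ → ℕ := fun n => Nat.find (hex n) with hlev
  have hl1 : ∀ n, ‖a n‖ ≤ 2 ^ lev n * t n := fun n => by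
    by_cases h : a n = 0
    · rw [h, norm_zero]; exact mul_nonneg (by positivity) (ht n)
    · exact (Nat.find_spec (hex n) h).le
  have hl2 : ∀ n u, lev n = u + 1 → 0 < t n ∧ 2 ^ u * t n ≤ ‖a n‖ := fun n u h => by
    have h1 := Nat.find_min (hex n) (show u < lev n by omega)
    push Not at h1
    refine ⟨?_, h1.2⟩
    have h2 := (norm_nonneg _).trans_lt (hU n h1.1)
    exact (pos_iff_pos_of_mul_pos h2).1 (by positivity)
  have hmaps : ∀ n ∈ S, lev n ∈ range (U + 1) := fun n _ =>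
    mem_range.2 (Nat.lt_succ_of_le (Nat.find_min' (hex n) (hU n)))
  have hG0 : ∀ n, 0 ≤ G n (t n) := fun n => (hG n).nonneg _ (ht n)
  set Q : ℕ → ℝ := fun l => ∑ n ∈ S with lev n = l, G n (t n) / t n ^ 2 * ‖a n‖ ^ 2 with hQ
  set R : ℕ → ℝ → ℝ := fun l s => ∑ n ∈ S with lev n = l, G n (s * ‖a n‖) with hR
  have hRm : ∀ l s, md G (a.filter fun n => lev n = l) s = R l s := fun l s => by
    rw [md_eq hG (S := S.filter fun n => lev n = l)
      (by rw [Finsupp.support_filter]; exact filter_subset_filter _ hS)]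
    exact sum_congr rfl fun n hn => by rw [Finsupp.filter_apply, if_pos (mem_filter.1 hn).2]
  have e1 : ∑ n ∈ S, G n (t n) / t n ^ 2 * ‖a n‖ ^ 2 = ∑ l ∈ range (U + 1), Q l :=
    (sum_fiberwise_of_maps_to hmaps _).symm
  have e2 : md G a 1 = ∑ l ∈ range (U + 1), R l 1 := by
    rw [md_eq hG hS]; exact (sum_fiberwise_of_maps_to hmaps _).symm
  have hτ0 : ∑ n ∈ S with lev n = 0, G n (t n) ≤ τ :=
    (sum_le_sum_of_subset_of_nonneg (filter_subset _ _) fun n _ _ => hG0 n).trans hτ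
  have hQ0 : ∀ l, 0 ≤ Q l := fun l => sum_nonneg fun n _ => by have := hG0 n; positivity
  have hR0 : ∀ l, 0 ≤ R l 1 := fun l => by rw [← hRm]; exact (orl_md hG _).nonneg 1 zero_le_one
  have z1 : Q 0 ≤ τ := le_trans (sum_le_sum fun n hn => by
    have h1 := hl1 n
    rw [(mem_filter.1 hn).2, pow_zero, one_mul] at h1
    rcases (ht n).eq_or_lt with h0 | h0
    · rw [← h0]; simp [(hG n).zero]
    · rw [div_mul_eq_mul_div, div_le_iff₀ (by positivity)]
      exact mul_le_mul_of_nonneg_left (pow_le_pow_left₀ (norm_nonneg _) h1 2) (hG0 n)) hτ0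
  have z2 : R 0 1 ≤ τ := le_trans (sum_le_sum fun n hn => by
    have h1 := hl1 n
    rw [(mem_filter.1 hn).2, pow_zero, one_mul] at h1
    rw [one_mul]
    exact (hG n).mono (norm_nonneg _) h1) hτ0
  have hs : ∀ u ∈ range U, Q (u + 1) ≤ 4 * K * R (u + 1) 1 + 4 ^ U * η ∧
      R (u + 1) 1 ≤ 4 * K * Q (u + 1) + η := by
    intro u hu
    have hu' := mem_range.1 hu
    have q1 : Q (u + 1) ≤ 4 * (4 ^ u * R (u + 1) ((1 / 2) ^ u)) := by
      simp only [hQ, hR, mul_sum]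
      refine sum_le_sum fun n hn => ?_
      have h0 := (mem_filter.1 hn).2
      obtain ⟨h1, h2⟩ := hl2 n u h0
      have h3 := hl1 n
      rw [h0] at h3
      have h4 : G n (t n) ≤ G n ((1 / 2) ^ u * ‖a n‖) := (hG n).mono (ht n) (by
        rw [one_div, inv_pow, le_inv_mul_iff₀ (by positivity)]; exact h2)
      have h5 : ‖a n‖ ^ 2 ≤ 4 * 4 ^ u * t n ^ 2 := by
        refine (pow_le_pow_left₀ (norm_nonneg _) h3 2).trans (le_of_eq ?_)
        rw [mul_pow, ← pow_mul, mul_comm (u + 1) 2, pow_mul, pow_succ' _ u]; norm_num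
      rw [div_mul_eq_mul_div, div_le_iff₀ (by positivity)]
      calc _ ≤ G n ((1 / 2) ^ u * ‖a n‖) * (4 * 4 ^ u * t n ^ 2) :=
            mul_le_mul h4 h5 (by positivity) ((hG0 n).trans h4)
        _ = _ := by ring
    have q2 : 4 ^ (u + 1) * R (u + 1) ((1 / 2) ^ (u + 1)) ≤ 4 * Q (u + 1) := by
      simp only [hQ, hR, mul_sum]
      refine sum_le_sum fun n hn => ?_
      have h0 := (mem_filter.1 hn).2
      obtain ⟨h1, h2⟩ := hl2 n u h0
      have h3 := hl1 n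
      rw [h0] at h3
      have h4 : G n ((1 / 2) ^ (u + 1) * ‖a n‖) ≤ G n (t n) := (hG n).mono (by positivity) (by
        rw [one_div, inv_pow, inv_mul_le_iff₀ (by positivity)]; exact h3)
      have h5 : 4 ^ u * t n ^ 2 ≤ ‖a n‖ ^ 2 := by
        refine le_trans (le_of_eq ?_) (pow_le_pow_left₀ (by positivity) h2 2)
        rw [mul_pow, ← pow_mul, mul_comm u 2, pow_mul]; norm_num
      rw [div_mul_eq_mul_div, ← mul_div_assoc, le_div_iff₀ (by positivity)]
      calc _ ≤ 4 ^ (u + 1) * G n (t n) * t n ^ 2 := by gcongr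
        _ = 4 * (G n (t n) * (4 ^ u * t n ^ 2)) := by ring
        _ ≤ _ := by have := hG0 n; gcongr
    have h4U : (0 : ℝ) ≤ 4 ^ U * η := by positivity
    by_cases hc : η ≤ R (u + 1) 1
    · have h1 := H (a.filter fun n => lev n = u + 1)
        (fun n hn => ha n fun h => hn (by simp [Finsupp.filter_apply, h]))
        (by rwa [hRm]) ((md_mono hG (fun n => by
          rw [Finsupp.filter_apply]; split_ifs <;> simp) zero_le_one).trans ha1)
      have h2 := (h1 u hu'.le).2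
      have h3 := (h1 (u + 1) hu').1
      simp only [hRm] at h2 h3
      constructor
      · nlinarith
      · nlinarith [mul_le_mul_of_nonneg_left q2 hK.le]
    · push Not at hc
      have h1 : R (u + 1) ((1 / 2) ^ u) ≤ R (u + 1) 1 := by
        rw [← hRm, ← hRm]
        exact (orl_md hG _).mono (by positivity) (pow_le_one₀ (by norm_num) (by norm_num))
      have h2 : (4 : ℝ) * 4 ^ u ≤ 4 ^ U := by
        rw [← pow_succ']; exact pow_le_pow_right₀ (by norm_num) hu'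
      have h3 : 0 ≤ 4 * K * R (u + 1) 1 := by have := hR0 (u + 1); positivity
      have h4 : 0 ≤ 4 * K * Q (u + 1) := by have := hQ0 (u + 1); positivity
      constructor
      · have h5 : 4 * (4 ^ u * R (u + 1) ((1 / 2) ^ u)) ≤ 4 ^ U * η := by
          rw [← mul_assoc]
          exact (mul_le_mul_of_nonneg_left (h1.trans hc.le) (by positivity)).trans
            (mul_le_mul_of_nonneg_right h2 hη.le)
        linarith
      · linarith
  have s1 := sum_le_sum fun u hu => (hs u hu).1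
  have s2 := sum_le_sum fun u hu => (hs u hu).2
  rw [sum_add_distrib, ← mul_sum, sum_const, card_range, nsmul_eq_mul] at s1 s2
  rw [e1, e2, sum_range_succ', sum_range_succ']
  have h3 : 0 ≤ 4 * K * R 0 1 := by have := hR0 0; positivity
  have h4 : 0 ≤ 4 * K * Q 0 := by have := hQ0 0; positivity
  constructor
  · rw [mul_add]; linarith
  · rw [mul_add]; linarith

lemma Orl.sum_le {M : ℝ → ℝ} (h : Orl M) {n : ℕ} (x : Fin n → ℝ) (hx : ∀ i, 0 ≤ x i) {θ : ℝ}
    (hθ : 0 ≤ θ) : M (θ * ∑ i, x i) ≤ ∑ i, M (θ * n * x i) := by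
  rcases isEmpty_or_nonempty (Fin n) with h0 | h0
  · simp [h.zero]
  · obtain ⟨i, -, hi⟩ := exists_max_image univ x univ_nonempty
    have h1 : ∑ i, x i ≤ n * x i := by
      simpa using sum_le_card_nsmul univ x (x i) hi
    refine le_trans (h.mono (mul_nonneg hθ (sum_nonneg fun i _ => hx i)) ?_)
      (single_le_sum (f := fun i => M (θ * n * x i))
        (fun i _ => h.nonneg _ (by have := hx i; positivity)) (mem_univ i))
    rw [mul_assoc]
    exact mul_le_mul_of_nonneg_left h1 hθ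

variable {Y : Type} [NormedAddCommGroup Y] [NormedSpace 𝕜 Y] {j : (ℕ →₀ 𝕜) →ₗ[𝕜] Y}

lemma cofg_tail (hd : DenseRange j) (k : ℕ) : FiniteDimensional 𝕜
    (Y ⧸ ((Finsupp.supported 𝕜 𝕜 {n | k ≤ n}).map j).topologicalClosure) := by
  classical
  set Z := ((Finsupp.supported 𝕜 𝕜 {n | k ≤ n}).map j).topologicalClosure
  set F : Submodule 𝕜 Y := Submodule.span 𝕜 (Set.range fun i : Fin k => j (Finsupp.single i 1))
  have hF : FiniteDimensional 𝕜 F := FiniteDimensional.span_of_finite 𝕜 (Set.finite_range _)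
  have hcl : IsClosed ((Z ⊔ F : Submodule 𝕜 Y) : Set Y) :=
    Submodule.isClosed_sup_finiteDimensional _ _ (Submodule.isClosed_topologicalClosure _)
  have hall : ∀ y, y ∈ Z ⊔ F := fun y => by
    refine hd.induction_on y hcl fun a => ?_
    induction a using Finsupp.induction_linear with
    | zero => simp
    | add f g hf hg => rw [map_add]; exact add_mem hf hg
    | single i c =>
      rw [← Finsupp.smul_single_one, map_smul]
      refine Submodule.smul_mem _ _ ?_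
      rcases le_or_gt k i with h | h
      · exact Submodule.mem_sup_left (Submodule.le_topologicalClosure _
          ⟨_, Finsupp.single_mem_supported 𝕜 1 h, rfl⟩)
      · exact Submodule.mem_sup_right (Submodule.subset_span ⟨⟨i, h⟩, rfl⟩)
  exact Submodule.FG.cofg_of_codisjoint
    (codisjoint_iff.2 (by rw [sup_comm]; exact eq_top_iff.2 fun y _ => hall y))
    (Module.Finite.iff_fg.1 hF)

theorem asymp_of_hyp (h : Rep G j) (hd : DenseRange j) (H : Hyp 𝕜 G) : AsympHilbertian 𝕜 Y := by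
  classical
  obtain ⟨K, hK, H⟩ := H
  refine ⟨√(4 * K + 1) * 2 * (√(8 * K) * 2), fun n => ?_⟩
  have hn1 : (0 : ℝ) < n + 1 := by positivity
  obtain ⟨U, hU⟩ := pow_unbounded_of_one_lt (16 * ((n : ℝ) + 1) ^ 2) (one_lt_two (α := ℝ))
  set η : ℝ := 1 / (4 * (U + 1) * 4 ^ U) with hη
  obtain ⟨k, H⟩ := H U η (by positivity)
  refine ⟨_, Submodule.isClosed_topologicalClosure _, cofg_tail hd k, fun E hE hfin hn => ?_⟩
  obtain ⟨b, c, hb, hc, hbc⟩ := exists_auerbach hn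
  have hβ : ∀ i, ∃ β : ℕ →₀ 𝕜, (∀ m, β m ≠ 0 → k ≤ m) ∧ ‖j β - b i‖ ≤ 1 / (2 * (n + 1)) := by
    intro i
    obtain ⟨_, ⟨β, hβ, rfl⟩, h2⟩ := Metric.mem_closure_iff.1 (hE (b i).2) (1 / (2 * (n + 1)))
      (by positivity)
    refine ⟨β, fun m hm => hβ (Finsupp.mem_support_iff.2 hm), ?_⟩
    rw [dist_comm, dist_eq_norm] at h2
    exact h2.le
  choose β hβk hβ using hβ
  set T : E →ₗ[𝕜] ℕ →₀ 𝕜 := ∑ i, (c i).smulRight (β i) with hT
  have hTz : ∀ z, T z = ∑ i, c i z • β i := fun z => by simp [hT]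
  have hTj : ∀ z : E, ‖j (T z) - z‖ ≤ ‖z‖ / 2 := fun z => by
    have h1 : j (T z) - z = ∑ i, c i z • (j (β i) - b i) := by
      have h0 : (z : Y) = ∑ i, c i z • (b i : Y) := by
        conv_lhs => rw [← hbc z]
        simp
      rw [hTz, h0]
      simp [smul_sub]
    rw [h1]
    refine (norm_sum_le _ _).trans ((sum_le_card_nsmul _ _ (‖z‖ * (1 / (2 * (n + 1))))
      fun i _ => ?_).trans ?_)
    · rw [norm_smul]
      exact mul_le_mul (hc i z) (hβ i) (norm_nonneg _) (norm_nonneg _)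
    · simp only [card_univ, Fintype.card_fin, nsmul_eq_mul]
      rw [mul_one_div, ← mul_div_assoc, div_le_div_iff₀ (by positivity) (by positivity)]
      nlinarith [norm_nonneg z]
  have hT1 : ∀ z : E, ‖z‖ ≤ 2 * ‖j (T z)‖ ∧ ‖j (T z)‖ ≤ 2 * ‖z‖ := fun z => by
    have h1 := (abs_norm_sub_norm_le _ _).trans (hTj z)
    rw [abs_le, Submodule.coe_norm] at h1
    rw [Submodule.coe_norm]
    constructor <;> nlinarith [norm_nonneg (z : Y)]
  set S : Finset ℕ := univ.biUnion fun i => (β i).support with hS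
  set θ : ℝ := 1 / (8 * (n + 1) ^ 2) with hθ
  have hθ0 : 0 < θ := by positivity
  set t : ℕ → ℝ := fun m => θ * ∑ i, ‖β i m‖ with ht
  have ht0 : ∀ m, 0 ≤ t m := fun m => by simp only [ht]; positivity
  have hτ : ∑ m ∈ S, G m (t m) ≤ 1 / 4 := by
    have h1 : ∀ i, md G (β i) (θ * n) ≤ 1 / (4 * (n + 1)) := fun i => by
      have h2 : ‖j (β i)‖ ≤ 2 := by
        have h3 := norm_le_norm_add_norm_sub' (j (β i)) (b i : Y)
        have h4 : (1 : ℝ) / (2 * (n + 1)) ≤ 1 := by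
          rw [div_le_one (by positivity)]; linarith [Nat.cast_nonneg (α := ℝ) n]
        have h5 : ‖(b i : Y)‖ ≤ 1 := hb i
        linarith [hβ i]
      have h3 := (h.le_iff (β i) (1 / 2) (by norm_num)).2 (by linarith)
      have h4 := (orl_md h.orl (β i)).mul_le (s := 1 / (4 * (n + 1))) (t := 1 / 2) (by positivity)
        (by rw [div_le_one (by positivity)]; linarith [Nat.cast_nonneg (α := ℝ) n]) (by norm_num)
      refine ((orl_md h.orl (β i)).mono (by positivity) ?_).trans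
        (h4.trans (mul_le_of_le_one_right (by positivity) h3))
      rw [hθ, div_mul_div_comm, div_mul_eq_mul_div,
        div_le_div_iff₀ (by positivity) (by positivity)]
      nlinarith
    refine (sum_le_sum fun m _ => (h.orl m).sum_le _ (fun i => norm_nonneg _) hθ0.le).trans ?_
    rw [sum_comm]
    refine (sum_le_card_nsmul _ _ (1 / (4 * ((n : ℝ) + 1))) fun i _ => ?_).trans ?_
    · rw [← md_eq h.orl (subset_biUnion_of_mem (fun i => (β i).support) (mem_univ i))]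
      exact h1 i
    · simp only [card_univ, Fintype.card_fin, nsmul_eq_mul]
      rw [mul_one_div, div_le_div_iff₀ (by positivity) (by positivity)]
      linarith
  have hG0 : ∀ m, 0 ≤ G m (t m) / t m ^ 2 := fun m => by
    have := (h.orl m).nonneg _ (ht0 m); positivity
  set L : E →ₗ[𝕜] EuclideanSpace 𝕜 S := (WithLp.linearEquiv 2 𝕜 (S → 𝕜)).symm.toLinearMap ∘ₗ
    LinearMap.pi fun m : S => ((√(G m (t m) / t m ^ 2) : ℝ) : 𝕜) • (Finsupp.lapply m.1 ∘ₗ T)
    with hL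
  have hLz : ∀ z, ‖L z‖ ^ 2 = ∑ m ∈ S, G m (t m) / t m ^ 2 * ‖T z m‖ ^ 2 := fun z => by
    rw [EuclideanSpace.norm_sq_eq, ← sum_coe_sort S]
    refine sum_congr rfl fun m _ => ?_
    have : L z m = ((√(G m (t m) / t m ^ 2) : ℝ) : 𝕜) * T z m := rfl
    rw [this, norm_mul, mul_pow, RCLike.norm_ofReal, sq_abs, Real.sq_sqrt (hG0 m)]
  have key : ∀ z : E, ‖j (T z)‖ ^ 2 ≤ 8 * K * ‖L z‖ ^ 2 ∧
      ‖L z‖ ^ 2 ≤ (4 * K + 1) * ‖j (T z)‖ ^ 2 := fun z => by
    rcases eq_or_ne z 0 with rfl | hz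
    · simp
    have hr : 0 < ‖j (T z)‖ := by linarith [(hT1 z).1, norm_pos_iff.2 hz]
    set r := ‖j (T z)‖ with hr'
    set a : ℕ →₀ 𝕜 := ((r⁻¹ : ℝ) : 𝕜) • T z with ha
    have han : ∀ m, ‖a m‖ = r⁻¹ * ‖T z m‖ := fun m => by
      rw [ha, Finsupp.smul_apply, norm_smul, RCLike.norm_ofReal, abs_of_pos (inv_pos.2 hr)]
    have hja : ‖j a‖ = 1 := by
      rw [ha, map_smul, norm_smul, RCLike.norm_ofReal, abs_of_pos (inv_pos.2 hr),
        inv_mul_cancel₀ hr.ne']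
    have hex : ∀ m, a m ≠ 0 → ∃ i, β i m ≠ 0 := fun m hm => by
      by_contra h0
      push Not at h0
      exact hm (by simp [ha, hTz, Finsupp.finsetSum_apply, h0])
    have h1 := (h.le_iff a 1 one_pos).2 (by rw [hja]; norm_num)
    have h2 := h.one_le (a := a) one_pos (by rw [hja]; norm_num)
    obtain ⟨q1, q2⟩ := quad h.orl hK (by positivity) H ht0 hτ (a := a)
      (fun m hm => by obtain ⟨i, hi⟩ := hex m hm; exact hβk i m hi)
      (fun m hm => by
        obtain ⟨i, hi⟩ := hex m (Finsupp.mem_support_iff.1 hm)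
        exact mem_biUnion.2 ⟨i, mem_univ _, Finsupp.mem_support_iff.2 hi⟩) h1
      (fun m hm => by
        obtain ⟨i, hi⟩ := hex m hm
        have h3 : 0 < ∑ i, ‖β i m‖ := (norm_pos_iff.2 hi).trans_le
          (single_le_sum (f := fun i => ‖β i m‖) (fun _ _ => norm_nonneg _) (mem_univ i))
        have h4 : ‖T z m‖ ≤ ‖z‖ * ∑ i, ‖β i m‖ := by
          rw [hTz, Finsupp.finsetSum_apply, mul_sum]
          refine (norm_sum_le _ _).trans (sum_le_sum fun i _ => ?_)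
          rw [Finsupp.smul_apply, norm_smul]
          exact mul_le_mul_of_nonneg_right (hc i z) (norm_nonneg _)
        have h5 : 2 < 2 ^ U * θ := by
          rw [hθ, mul_one_div, lt_div_iff₀ (by positivity)]; linarith
        rw [han, inv_mul_lt_iff₀ hr]
        simp only [ht]
        calc _ ≤ 2 * r * ∑ i, ‖β i m‖ :=
              h4.trans (mul_le_mul_of_nonneg_right (hT1 z).1 h3.le)
          _ = 2 * (r * ∑ i, ‖β i m‖) := by ring
          _ < 2 ^ U * θ * (r * ∑ i, ‖β i m‖) := mul_lt_mul_of_pos_right h5 (by positivity)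
          _ = _ := by ring)
    have e1 : ‖L z‖ ^ 2 = r ^ 2 * ∑ m ∈ S, G m (t m) / t m ^ 2 * ‖a m‖ ^ 2 := by
      rw [hLz, mul_sum]
      refine sum_congr rfl fun m _ => ?_
      rw [han]; field_simp
    have e2 : U * (4 ^ U * η) ≤ 1 / 4 := by
      rw [hη, mul_one_div, ← mul_div_assoc, div_le_div_iff₀ (by positivity) (by positivity)]
      have : (0 : ℝ) < 4 ^ U := by positivity
      nlinarith
    have e3 : U * η ≤ U * (4 ^ U * η) := mul_le_mul_of_nonneg_left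
      (le_mul_of_one_le_left (by positivity) (one_le_pow₀ (by norm_num))) (by positivity)
    have hr2 : 0 < r ^ 2 := by positivity
    rw [e1]
    constructor
    · nlinarith
    · nlinarith [mul_le_mul_of_nonneg_left h1 hK.le]
  refine bmDist_le hn L (by positivity) (by positivity) (fun z => ?_) fun z => ?_
  · have h1 : ‖j (T z)‖ ≤ √(8 * K) * ‖L z‖ := by
      refine (pow_le_pow_iff_left₀ (norm_nonneg _) (by positivity) two_ne_zero).1 ?_
      rw [mul_pow, Real.sq_sqrt (by positivity)]; exact (key z).1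
    linarith [(hT1 z).1]
  · have h1 : ‖L z‖ ≤ √(4 * K + 1) * ‖j (T z)‖ := by
      refine (pow_le_pow_iff_left₀ (norm_nonneg _) (by positivity) two_ne_zero).1 ?_
      rw [mul_pow, Real.sq_sqrt (by positivity)]; exact (key z).2
    rw [mul_assoc]
    exact h1.trans (mul_le_mul_of_nonneg_left (hT1 z).2 (by positivity))

end Pool.Agent.MP_650c5e_an.K

end
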