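import Pool.Agent.Mg.F650c5e.Gda85da

/-! Averaging a profile over many scales. -/

namespace Pool.Agent.MP_650c5e_an.K

open Finset Filter Topology

set_option maxHeartbeats 800000

lemma avg_step {ω κ A δ : ℝ} (hω : 1 < ω) (hδ : 0 ≤ δ) {L : ℕ}
    (hL : ω⁻¹ ^ L * (A * κ ^ (L + 1)) ≤ δ) {φ : ℕ → ℝ} (hφ : ∀ i, 0 < φ i)
    (h1 : ∀ i l, φ (i + l) ≤ A * κ ^ l * φ i) (h2 : ∀ i l, φ i ≤ A * κ ^ l * φ (i + l))
    {w : ℕ → ℝ} (hw : ∀ i, w i = ω⁻¹ ^ (L - i) * ω⁻¹ ^ (i - L)) {Φ : ℕ → ℝ}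
    (hΦ : ∀ v, Φ v = ∑ i ∈ range (2 * L + 1), w i * φ (v + i)) (v : ℕ) :
    Φ (v + 1) ≤ (ω + δ) * Φ v ∧ Φ v ≤ (ω + δ) * Φ (v + 1) := by
  have hω0 : 0 < ω := by linarith
  have hθ0 : 0 < ω⁻¹ := inv_pos.2 hω0
  have hθ1 : ω⁻¹ ≤ ω := (inv_le_one_of_one_le₀ hω.le).trans hω.le
  have hw0 : ∀ i, 0 < w i := fun i => by rw [hw]; positivity
  have hstep : ∀ i, w i ≤ ω * w (i + 1) ∧ w (i + 1) ≤ ω * w i := fun i => by
    rcases lt_or_ge i L with h | h
    · have e1 : w (i + 1) = ω * w i := by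
        rw [hw, hw, show L - i = L - (i + 1) + 1 by omega, show i + 1 - L = 0 by omega,
          show i - L = 0 by omega, pow_succ]
        field_simp
      refine ⟨?_, e1.le⟩
      rw [e1]
      nlinarith [hw0 i, mul_pos hω0 (hw0 i)]
    · have e1 : w i = ω * w (i + 1) := by
        rw [hw, hw, show i + 1 - L = i - L + 1 by omega, show L - (i + 1) = 0 by omega,
          show L - i = 0 by omega, pow_succ]
        field_simp
      refine ⟨e1.le, ?_⟩
      rw [e1]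
      nlinarith [hw0 (i + 1), mul_pos hω0 (hw0 (i + 1))]
  have hmid : ∀ v, φ (v + L) ≤ Φ v := fun v => by
    rw [hΦ]
    refine le_trans (le_of_eq ?_) (single_le_sum (f := fun i => w i * φ (v + i))
      (fun i _ => (mul_pos (hw0 i) (hφ _)).le) (mem_range.2 (show L < 2 * L + 1 by omega)))
    simp [hw]
  have s1 : ∑ i ∈ range (2 * L), w (i + 1) * φ (v + (i + 1)) ≤ Φ v := by
    rw [hΦ, sum_range_succ']
    linarith [mul_pos (hw0 0) (hφ (v + 0))]
  have s2 : ∑ i ∈ range (2 * L), w i * φ (v + 1 + i) ≤ Φ (v + 1) := by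
    rw [hΦ, sum_range_succ]
    linarith [mul_pos (hw0 (2 * L)) (hφ (v + 1 + 2 * L))]
  constructor
  · have t1 : ∑ i ∈ range (2 * L), w i * φ (v + 1 + i) ≤
        ω * ∑ i ∈ range (2 * L), w (i + 1) * φ (v + (i + 1)) := by
      rw [mul_sum]
      refine sum_le_sum fun i _ => ?_
      rw [show v + 1 + i = v + (i + 1) by ring, ← mul_assoc]
      exact mul_le_mul_of_nonneg_right (hstep i).1 (hφ _).le
    have t2 : w (2 * L) * φ (v + 1 + 2 * L) ≤ δ * Φ v := by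
      have e1 : w (2 * L) = ω⁻¹ ^ L := by
        rw [hw, show L - 2 * L = 0 by omega, show 2 * L - L = L by omega]; simp
      rw [e1, show v + 1 + 2 * L = v + L + (L + 1) by ring]
      calc _ ≤ ω⁻¹ ^ L * (A * κ ^ (L + 1) * φ (v + L)) :=
            mul_le_mul_of_nonneg_left (h1 _ _) (by positivity)
        _ = ω⁻¹ ^ L * (A * κ ^ (L + 1)) * φ (v + L) := by ring
        _ ≤ _ := mul_le_mul hL (hmid v) (hφ _).le hδ
    rw [hΦ (v + 1), sum_range_succ]
    nlinarith [mul_le_mul_of_nonneg_left s1 hω0.le]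
  · have t1 : ∑ i ∈ range (2 * L), w (i + 1) * φ (v + (i + 1)) ≤
        ω * ∑ i ∈ range (2 * L), w i * φ (v + 1 + i) := by
      rw [mul_sum]
      refine sum_le_sum fun i _ => ?_
      rw [show v + 1 + i = v + (i + 1) by ring, ← mul_assoc]
      exact mul_le_mul_of_nonneg_right (hstep i).2 (hφ _).le
    have t2 : w 0 * φ (v + 0) ≤ δ * Φ (v + 1) := by
      have e1 : w 0 = ω⁻¹ ^ L := by rw [hw]; simp
      rw [e1, add_zero]
      calc _ ≤ ω⁻¹ ^ L * (A * κ ^ (L + 1) * φ (v + (L + 1))) :=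
            mul_le_mul_of_nonneg_left (h2 _ _) (by positivity)
        _ = ω⁻¹ ^ L * (A * κ ^ (L + 1)) * φ (v + 1 + L) := by
            rw [show v + (L + 1) = v + 1 + L by ring]; ring
        _ ≤ _ := mul_le_mul hL (hmid (v + 1)) (hφ _).le hδ
    rw [hΦ v, sum_range_succ']
    nlinarith [mul_le_mul_of_nonneg_left s2 hω0.le]

variable {𝕜 : Type} [RCLike 𝕜] {G : ℕ → ℝ → ℝ}
  {Y : Type} [NormedAddCommGroup Y] [NormedSpace 𝕜 Y] {j : (ℕ →₀ 𝕜) →ₗ[𝕜] Y}

lemma smooth (h : Rep G j) (hY : NearHilbert Y) (n : ℕ) :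
    ∃ K : ℝ, 0 < K ∧ ∀ f u, Prof 𝕜 G f → 0 < f 0 → f 0 ≤ 1 →
      (K * f 0 ≤ 4 ^ u * f u ∨ K * (4 ^ u * f u) ≤ f 0) →
      ∃ g, Prof 𝕜 G g ∧ 2 ≤ g 0 ∧ g 0 ≤ 4 ∧ (∀ v, 0 < g v) ∧
        (∀ v, ∀ l ≤ n + 1, 4 ^ l * g (v + l) ≤ 6 * g v ∧ g v ≤ 6 * (4 ^ l * g (v + l))) ∧
        (16 * (n + 1) ≤ 4 ^ u * g u ∨ 2 * (n + 1) * (4 ^ u * g u) ≤ 1) := by
  set δ : ℝ := 1 / (2 * (n + 1)) with hδ
  have hδ0 : 0 < δ := by positivity
  have hδ1 : δ ≤ 1 := by
    rw [hδ, div_le_one (by positivity)]; linarith [Nat.cast_nonneg (α := ℝ) n]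
  set ω : ℝ := 1 + δ with hω
  set κ : ℝ := 1 + δ / 2 with hκ
  have hω1 : 1 < ω := by linarith
  have hκ1 : 1 < κ := by linarith
  have hκ2 : κ ≤ 2 := by linarith
  have hω0 : 0 < ω := by linarith
  have hκ0 : 0 < κ := by linarith
  obtain ⟨A, hA, HA⟩ := prof_growth h hY hκ1 hκ2
  obtain ⟨L, hL⟩ := exists_pow_lt_of_lt_one (show 0 < δ / (A * κ) by positivity)
    (show ω⁻¹ * κ < 1 by rw [inv_mul_lt_iff₀ hω0]; linarith)
  have hL' : ω⁻¹ ^ L * (A * κ ^ (L + 1)) ≤ δ := by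
    rw [lt_div_iff₀ (by positivity), mul_pow] at hL
    calc _ = ω⁻¹ ^ L * κ ^ L * (A * κ) := by ring
      _ ≤ _ := hL.le
  set D : ℝ := (2 * L + 1) * (A * κ ^ (2 * L)) with hD
  have hD0 : 0 < D := by positivity
  obtain ⟨R, hR⟩ := pow_unbounded_of_one_lt (D * A * ω ^ L) (one_lt_two (α := ℝ))
  set D' : ℝ := D * (A * κ ^ R) with hD'
  have hD'0 : 0 < D' := by positivity
  refine ⟨8 * (n + 1) * D' ^ 2, by positivity, fun f u hf hf0 hf1 hdev => ?_⟩
  have hle : ∀ i, f i ≤ 1 := fun i => (hf.le_zero h.orl i).trans (by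
    have h4 : ((1 : ℝ) / 2) ^ i ≤ 1 := pow_le_one₀ (by norm_num) (by norm_num)
    nlinarith)
  have hpos : ∀ i, 0 < f i := fun i => by
    have h1 := (HA f hf 0 i hf0 hf1).2
    rw [zero_add] at h1
    have h2 := hf0.trans_le h1
    have h3 := (pos_iff_pos_of_mul_pos h2).1 (by positivity)
    exact (pos_iff_pos_of_mul_pos h3).1 (by positivity)
  set φ : ℕ → ℝ := fun i => 4 ^ i * f i with hφ
  have hφ0 : ∀ i, 0 < φ i := fun i => by have := hpos i; simp only [hφ]; positivity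
  have h1 : ∀ i l, φ (i + l) ≤ A * κ ^ l * φ i := fun i l => by
    have := mul_le_mul_of_nonneg_left (HA f hf i l (hpos i) (hle i)).1
      (show (0 : ℝ) ≤ 4 ^ i by positivity)
    simp only [hφ, pow_add]
    linarith
  have h2 : ∀ i l, φ i ≤ A * κ ^ l * φ (i + l) := fun i l => by
    have := mul_le_mul_of_nonneg_left (HA f hf i l (hpos i) (hle i)).2
      (show (0 : ℝ) ≤ 4 ^ i by positivity)
    simp only [hφ, pow_add]
    linarith
  set w : ℕ → ℝ := fun i => ω⁻¹ ^ (L - i) * ω⁻¹ ^ (i - L) with hw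
  set Φ : ℕ → ℝ := fun v => ∑ i ∈ range (2 * L + 1), w i * φ (v + i) with hΦ
  have hθ0 : 0 < ω⁻¹ := inv_pos.2 hω0
  have hθ1 : ω⁻¹ ≤ 1 := inv_le_one_of_one_le₀ hω1.le
  have hw0 : ∀ i, 0 < w i := fun i => by simp only [hw]; positivity
  have hw1 : ∀ i, w i ≤ 1 := fun i =>
    mul_le_one₀ (pow_le_one₀ hθ0.le hθ1) (by positivity) (pow_le_one₀ hθ0.le hθ1)
  have hw2 : ∀ i ∈ range (2 * L + 1), ω⁻¹ ^ L ≤ w i := fun i hi => by
    simp only [hw]
    rw [← pow_add]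
    exact pow_le_pow_of_le_one hθ0.le hθ1 (by have := mem_range.1 hi; omega)
  have hmid : ∀ v, φ (v + L) ≤ Φ v := fun v =>
    le_trans (le_of_eq (by simp [hw])) (single_le_sum (f := fun i => w i * φ (v + i))
      (fun i _ => (mul_pos (hw0 i) (hφ0 _)).le) (mem_range.2 (show L < 2 * L + 1 by omega)))
  have hΦ0 : ∀ v, 0 < Φ v := fun v => (hφ0 _).trans_le (hmid v)
  have b1 : ∀ v, Φ v ≤ D * φ v := fun v => by
    have := sum_le_card_nsmul (range (2 * L + 1)) (fun i => w i * φ (v + i))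
      (A * κ ^ (2 * L) * φ v) fun i hi => by
        refine (mul_le_of_le_one_left (hφ0 _).le (hw1 i)).trans ((h1 v i).trans ?_)
        have := hφ0 v
        gcongr
        · exact hκ1.le
        · have := mem_range.1 hi; omega
    rw [card_range, nsmul_eq_mul] at this
    refine this.trans (le_of_eq ?_)
    rw [hD]; push_cast; ring
  have b2 : ∀ v, φ v ≤ D * Φ v := fun v => by
    refine (h2 v L).trans (mul_le_mul ?_ (hmid v) (hφ0 _).le hD0.le)
    have h3 : A * κ ^ L ≤ A * κ ^ (2 * L) := by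
      gcongr
      · exact hκ1.le
      · omega
    have h4 : 0 < A * κ ^ (2 * L) := by positivity
    rw [hD]
    nlinarith [Nat.cast_nonneg (α := ℝ) L]
  have b3 : ∀ v, Φ (R + v) ≤ D' * φ v := fun v => by
    refine (b1 _).trans ?_
    rw [hD', mul_assoc D, add_comm R v]
    exact mul_le_mul_of_nonneg_left (h1 v R) hD0.le
  have b4 : ∀ v, φ v ≤ D' * Φ (R + v) := fun v => by
    refine (h2 v R).trans ?_
    rw [hD', mul_comm D, mul_assoc _ D, add_comm R v]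
    exact mul_le_mul_of_nonneg_left (b2 _) (by positivity)
  have st := avg_step hω1 hδ0.le hL' hφ0 h1 h2 (w := w) (fun _ => rfl) (Φ := Φ) fun _ => rfl
  have hρ : (ω + δ) ^ (n + 1) ≤ 3 := by
    have e1 : ω + δ = 1 / (n + 1) + 1 := by rw [hω, hδ]; field_simp; ring
    calc _ ≤ Real.exp (1 / (n + 1)) ^ (n + 1) := by
          rw [e1]; exact pow_le_pow_left₀ (by positivity) (Real.add_one_le_exp _) _
      _ = Real.exp 1 := by
          rw [← Real.exp_nat_mul]; congr 1; push_cast; field_simp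
      _ ≤ 3 := Real.exp_one_lt_three.le
  have st' : ∀ v l, Φ (v + l) ≤ (ω + δ) ^ l * Φ v ∧ Φ v ≤ (ω + δ) ^ l * Φ (v + l) := by
    intro v l
    induction l with
    | zero => simp
    | succ l ih =>
      have h3 := st (v + l)
      have h4 : 0 ≤ ω + δ := by linarith
      rw [← add_assoc]
      constructor
      · rw [pow_succ', mul_assoc]
        exact h3.1.trans (mul_le_mul_of_nonneg_left ih.1 h4)
      · rw [pow_succ, mul_assoc]
        exact ih.2.trans (mul_le_mul_of_nonneg_left h3.2 (by positivity))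
  have st3 : ∀ v, ∀ l ≤ n + 1, Φ (v + l) ≤ 3 * Φ v ∧ Φ v ≤ 3 * Φ (v + l) := fun v l hl => by
    have h3 : (ω + δ) ^ l ≤ 3 := (pow_le_pow_right₀ (by linarith) hl).trans hρ
    exact ⟨(st' v l).1.trans (mul_le_mul_of_nonneg_right h3 (hΦ0 _).le),
      (st' v l).2.trans (mul_le_mul_of_nonneg_right h3 (hΦ0 _).le)⟩
  set lam : ℝ := 2 / Φ R with hlam
  have hlam0 : 0 < lam := div_pos two_pos (hΦ0 R)
  have hlam2 : lam * Φ R = 2 := div_mul_cancel₀ _ (hΦ0 R).ne'
  have hμ : ∀ i ∈ range (2 * L + 1), 1 ≤ lam * (w i * 4 ^ (R + i)) := fun i hi => by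
    have h3 : Φ R ≤ D * A * 2 ^ R := by
      have h4 := b3 0
      have h5 : φ 0 ≤ 1 := by simpa [hφ] using hf1
      have h6 : κ ^ R ≤ 2 ^ R := pow_le_pow_left₀ hκ0.le hκ2 R
      rw [add_zero] at h4
      calc _ ≤ D' * 1 := h4.trans (mul_le_mul_of_nonneg_left h5 hD'0.le)
        _ = D * A * κ ^ R := by rw [hD']; ring
        _ ≤ _ := by gcongr
    have h4 : D * A ≤ ω⁻¹ ^ L * 2 ^ R := by
      rw [inv_pow, le_inv_mul_iff₀ (by positivity)]; linarith
    have h5 : (2 : ℝ) ^ R * 2 ^ R ≤ 4 ^ (R + i) := by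
      rw [← mul_pow, show (2 : ℝ) * 2 = 4 by norm_num]
      exact pow_le_pow_right₀ (by norm_num) (Nat.le_add_right _ _)
    have h6 : Φ R ≤ w i * 4 ^ (R + i) :=
      calc _ ≤ D * A * 2 ^ R := h3
        _ ≤ ω⁻¹ ^ L * 2 ^ R * 2 ^ R := by gcongr
        _ = ω⁻¹ ^ L * (2 ^ R * 2 ^ R) := by ring
        _ ≤ _ := mul_le_mul (hw2 i hi) h5 (by positivity) (hw0 i).le
    nlinarith [mul_le_mul_of_nonneg_left h6 hlam0.le]
  set m : ℕ → ℕ := fun i => ⌈lam * (w i * 4 ^ (R + i))⌉₊ with hm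
  set g : ℕ → ℝ := fun v => ∑ i ∈ range (2 * L + 1), m i * f (R + i + v) with hg
  have hgP : Prof 𝕜 G g := Prof.sum h.orl (f := fun i v => m i * f (R + i + v)) _
    fun i => (hf.shift h.orl (R + i)).nsmul h.orl (m i)
  have hg1 : ∀ v, lam * Φ (R + v) ≤ 4 ^ v * g v ∧ 4 ^ v * g v ≤ 2 * (lam * Φ (R + v)) := by
    intro v
    have e1 : ∀ i, lam * (w i * φ (R + v + i)) =
        lam * (w i * 4 ^ (R + i)) * (4 ^ v * f (R + i + v)) := fun i => by
      simp only [hφ]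
      rw [show R + v + i = R + i + v by ring, pow_add _ (R + i)]; ring
    have e2 : ∀ i, 0 < 4 ^ v * f (R + i + v) := fun i => by have := hpos (R + i + v); positivity
    simp only [hg, hΦ, mul_sum]
    constructor
    · refine sum_le_sum fun i _ => ?_
      rw [e1, mul_left_comm (4 ^ v : ℝ)]
      exact mul_le_mul_of_nonneg_right (Nat.le_ceil _) (e2 i).le
    · refine sum_le_sum fun i hi => ?_
      rw [e1, mul_left_comm (4 ^ v : ℝ), ← mul_assoc 2]
      refine mul_le_mul_of_nonneg_right ?_ (e2 i).le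
      have h3 := hμ i hi
      have h4 := Nat.ceil_lt_add_one (zero_le_one.trans h3)
      simp only [hm]
      linarith
  have hg0 := hg1 0
  rw [add_zero, hlam2, pow_zero, one_mul] at hg0
  refine ⟨g, hgP, hg0.1, by linarith [hg0.2], fun v => ?_, fun v l hl => ?_, ?_⟩
  · exact (pos_iff_pos_of_mul_pos ((mul_pos hlam0 (hΦ0 _)).trans_le (hg1 v).1)).1 (by positivity)
  · have h3 := hg1 v
    have h4 := hg1 (v + l)
    have h5 := st3 (R + v) l hl
    rw [add_assoc] at h5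
    have h6 := mul_le_mul_of_nonneg_left h5.1 hlam0.le
    have h7 := mul_le_mul_of_nonneg_left h5.2 hlam0.le
    have h8 : (0 : ℝ) < 4 ^ v := by positivity
    rw [pow_add] at h4
    constructor
    · refine le_of_mul_le_mul_left ?_ h8
      nlinarith
    · refine le_of_mul_le_mul_left ?_ h8
      nlinarith
  · have h3 := hg1 u
    have h4 := b3 0
    have h5 := b4 0
    have h6 := b3 u
    have h7 := b4 u
    rw [add_zero] at h4 h5
    have e0 : φ 0 = f 0 := by simp [hφ]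
    have hn : (0 : ℝ) < n + 1 := by positivity
    have hR0 := hΦ0 R
    have hRu := hΦ0 (R + u)
    rcases hdev with hd | hd
    · left
      have h8 : 8 * (n + 1) * D' ^ 2 * φ 0 ≤ D' * Φ (R + u) := by rw [e0]; exact hd.trans h7
      have h9 : 8 * (n + 1) * Φ R ≤ Φ (R + u) := by
        refine le_of_mul_le_mul_left ?_ hD'0
        nlinarith [mul_le_mul_of_nonneg_left h4 (show 0 ≤ 8 * (n + 1) * D' by positivity)]
      nlinarith [mul_le_mul_of_nonneg_left h9 hlam0.le]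
    · right
      have h8 : 8 * (n + 1) * D' ^ 2 * φ u ≤ D' * Φ R := by rw [← e0] at hd; exact hd.trans h5
      have h9 : 8 * (n + 1) * Φ (R + u) ≤ Φ R := by
        refine le_of_mul_le_mul_left ?_ hD'0
        nlinarith [mul_le_mul_of_nonneg_left h6 (show 0 ≤ 8 * (n + 1) * D' by positivity)]
      nlinarith [mul_le_mul_of_nonneg_left h9 hlam0.le, mul_le_mul_of_nonneg_left h3.2 hn.le]

lemma deviate (hG : ∀ n, Orl (G n)) (H : ¬ Hyp 𝕜 G) {K : ℝ} (hK : 0 < K) :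
    ∃ f u, Prof 𝕜 G f ∧ 0 < f 0 ∧ f 0 ≤ 1 ∧
      (K * f 0 ≤ 4 ^ u * f u ∨ K * (4 ^ u * f u) ≤ f 0) := by
  unfold Hyp at H
  push Not at H
  obtain ⟨U, η, hη, H⟩ := H K hK
  choose a ha h1 h2 u hu h3 using H
  set C : Set (ℕ → ℝ) := (Set.pi Set.univ fun _ => Set.Icc (0 : ℝ) 1) ∩ ({f | η ≤ f 0} ∩
    ⋃ u ∈ range (U + 1), {f | K * f 0 ≤ 4 ^ u * f u} ∪ {f | K * (4 ^ u * f u) ≤ f 0}) with hC
  have hCc : IsCompact C := by
    refine (isCompact_univ_pi fun _ => isCompact_Icc).inter_right (IsClosed.inter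
      (isClosed_le continuous_const (continuous_apply 0))
      (isClosed_biUnion_finset fun u _ => IsClosed.union ?_ ?_))
    · exact isClosed_le (by fun_prop) (by fun_prop)
    · exact isClosed_le (by fun_prop) (by fun_prop)
  have hx : ∀ k, (fun l => md G (a k) ((1 / 2) ^ l)) ∈ C := fun k => by
    refine ⟨fun l _ => ⟨(orl_md hG _).nonneg _ (by positivity), ((orl_md hG _).mono
      (by positivity) (pow_le_one₀ (by norm_num) (by norm_num))).trans (h2 k)⟩, ?_, ?_⟩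
    · simpa using h1 k
    · refine Set.mem_biUnion (mem_coe.2 (mem_range.2 (Nat.lt_succ_of_le (hu k)))) ?_
      simp only [Set.mem_union, Set.mem_setOf_eq, pow_zero]
      by_cases h4 : md G (a k) 1 ≤ K * (4 ^ u k * md G (a k) ((1 / 2) ^ u k))
      · exact Or.inl (h3 k h4).le
      · exact Or.inr (not_le.1 h4).le
  obtain ⟨f, ⟨hf1, hf2, hf3⟩, ψ, hψ, hlim⟩ := hCc.tendsto_subseq hx
  obtain ⟨v, -, hv⟩ := Set.mem_iUnion₂.1 hf3
  refine ⟨f, v, fun ε hε J K' => ?_, hη.trans_le hf2, (hf1 0 trivial).2, hv⟩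
  have h4 : ∀ᶠ k in atTop, ∀ l ∈ range (J + 1), |md G (a (ψ k)) ((1 / 2) ^ l) - f l| ≤ ε := by
    rw [eventually_all_finset]
    intro l _
    have h5 := (continuous_apply l).continuousAt.tendsto.comp hlim
    filter_upwards [h5.eventually (Metric.closedBall_mem_nhds (f l) hε)] with k hk
    exact hk
  obtain ⟨k, hk1, hk2⟩ := (h4.and (eventually_ge_atTop K')).exists
  exact ⟨a (ψ k), fun n hn => (hk2.trans hψ.le_apply).trans (ha _ n hn),
    fun l hl => hk1 l (mem_range.2 (Nat.lt_succ_of_le hl))⟩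

end Pool.Agent.MP_650c5e_an.K
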