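import Mathlib
import Pool.Agent.Mg.F650c5e.Gb6c27f
import Pool.Agent.Mg.F650c5e.Gfced17

section

/-! Definitions used in the statement. -/

namespace Pool.Agent.MP_650c5e_an

/-- The quadratic Rademacher average of a finite family of vectors. -/
noncomputable def radAvg {X : Type} [NormedAddCommGroup X] [NormedSpace ℝ X] {n : ℕ}
    (x : Fin n → X) : ℝ :=
  √((∑ ε : Fin n → Bool, ‖∑ i, (if ε i then (1 : ℝ) else -1) • x i‖ ^ 2) / 2 ^ n)

/-- Rademacher type `p`. -/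
def HasType (X : Type) [NormedAddCommGroup X] [NormedSpace ℝ X] (p : ℝ) : Prop :=
  ∃ C : ℝ, ∀ (n : ℕ) (x : Fin n → X), radAvg x ≤ C * (∑ i, ‖x i‖ ^ p) ^ (1 / p)

/-- Rademacher cotype `q` for finite `q`. -/
def HasCotype (X : Type) [NormedAddCommGroup X] [NormedSpace ℝ X] (q : ℝ) : Prop :=
  ∃ C : ℝ, ∀ (n : ℕ) (x : Fin n → X), (∑ i, ‖x i‖ ^ q) ^ (1 / q) ≤ C * radAvg x

/-- Type `p` and cotype `q` for all `1 ≤ p < 2 < q ≤ ∞`. -/
def NearHilbert (X : Type) [NormedAddCommGroup X] [NormedSpace ℝ X] : Prop :=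
  (∀ p : ℝ, 1 ≤ p → p < 2 → HasType X p) ∧ (∀ q : ℝ, 2 < q → HasCotype X q) ∧
    ∃ C : ℝ, ∀ (n : ℕ) (x : Fin n → X) (i : Fin n), ‖x i‖ ≤ C * radAvg x

/-- Isomorphic to a Hilbert space. -/
def Hilbertian (X : Type) [NormedAddCommGroup X] [NormedSpace ℝ X] : Prop :=
  ∃ (H : Type) (_ : NormedAddCommGroup H) (_ : InnerProductSpace ℝ H) (_ : CompleteSpace H),
    Nonempty (X ≃L[ℝ] H)

/-- The Banach-Mazur distance. -/
noncomputable def bmDist (E F : Type) [NormedAddCommGroup E] [NormedSpace ℝ E]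
    [NormedAddCommGroup F] [NormedSpace ℝ F] : ℝ :=
  sInf {r : ℝ | ∃ T : E ≃L[ℝ] F, r = ‖(T : E →L[ℝ] F)‖ * ‖(T.symm : F →L[ℝ] E)‖}

/-- Asymptotically Hilbertian spaces. -/
def AsympHilbertian (X : Type) [NormedAddCommGroup X] [NormedSpace ℝ X] : Prop :=
  ∃ K : ℝ, ∀ n : ℕ, ∃ Y : Submodule ℝ X, IsClosed (Y : Set X) ∧ FiniteDimensional ℝ (X ⧸ Y) ∧
    ∀ E : Submodule ℝ X, E ≤ Y → FiniteDimensional ℝ E → Module.finrank ℝ E = n →
      bmDist E (EuclideanSpace ℝ (Fin n)) ≤ K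

/-- A Schauder basis equivalent to each of its permutations. -/
def HasSymmetricBasis (X : Type) [NormedAddCommGroup X] [NormedSpace ℝ X] : Prop :=
  ∃ b : SchauderBasis ℝ X, ∀ π : Equiv.Perm ℕ, ∃ T : X ≃L[ℝ] X, ∀ n, T (b n) = b (π n)

end Pool.Agent.MP_650c5e_an

end

section

/-! Khintchine inequalities and type and cotype estimates for finitely supported sequences. -/

namespace Pool.Agent.MP_650c5e_an

open Finset

/-- A sign. -/
def sg (b : Bool) : ℝ := if b then 1 else -1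

lemma abs_sg (b : Bool) : |sg b| = 1 := by cases b <;> simp [sg]

lemma sum_signs_succ {n : ℕ} (F : (Fin (n + 1) → Bool) → ℝ) :
    ∑ ε, F ε = ∑ ε : Fin n → Bool, (F (Fin.cons true ε) + F (Fin.cons false ε)) := by
  rw [← (Fin.consEquiv fun _ => Bool).sum_comp, Fintype.sum_prod_type, Fintype.sum_bool,
    ← sum_add_distrib]
  rfl

lemma parallelogram {H : Type*} [NormedAddCommGroup H] [InnerProductSpace ℝ H] {n : ℕ}
    (x : Fin n → H) :
    ∑ ε : Fin n → Bool, ‖∑ i, sg (ε i) • x i‖ ^ 2 = 2 ^ n * ∑ i, ‖x i‖ ^ 2 := by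
  induction n with
  | zero => simp
  | succ n ih =>
    rw [sum_signs_succ]
    simp only [Fin.sum_univ_succ, Fin.cons_zero, Fin.cons_succ]
    have h : ∀ f : H, ‖sg true • x 0 + f‖ ^ 2 + ‖sg false • x 0 + f‖ ^ 2 =
        2 * ‖x 0‖ ^ 2 + 2 * ‖f‖ ^ 2 := fun f => by
      have := parallelogram_law_with_norm ℝ f (x 0)
      rw [show sg true • x 0 + f = f + x 0 by simp [sg, add_comm],
        show sg false • x 0 + f = f - x 0 by simp [sg, sub_eq_add_neg, add_comm]]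
      linarith
    simp_rw [h]
    rw [sum_add_distrib, ← mul_sum, ← mul_sum, ih]
    simp only [sum_const, card_univ, Fintype.card_pi, Fintype.card_bool, prod_const,
      Fintype.card_fin, nsmul_eq_mul]
    push_cast; ring

lemma khin2 {n : ℕ} (a : Fin n → ℝ) :
    ∑ ε : Fin n → Bool, (∑ i, sg (ε i) * a i) ^ 2 = 2 ^ n * ∑ i, a i ^ 2 := by
  simpa using parallelogram a

lemma khin4 {n : ℕ} (a : Fin n → ℝ) :
    ∑ ε : Fin n → Bool, (∑ i, sg (ε i) * a i) ^ 4 ≤ 2 ^ n * (3 * (∑ i, a i ^ 2) ^ 2) := by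
  induction n with
  | zero => simp
  | succ n ih =>
    rw [sum_signs_succ]
    simp only [Fin.sum_univ_succ, Fin.cons_zero, Fin.cons_succ]
    have h : ∀ f : ℝ, (sg true * a 0 + f) ^ 4 + (sg false * a 0 + f) ^ 4 =
        2 * a 0 ^ 4 + 12 * a 0 ^ 2 * f ^ 2 + 2 * f ^ 4 := fun f => by
      simp only [sg]; norm_num; ring
    simp_rw [h]
    rw [sum_add_distrib, sum_add_distrib, ← mul_sum, ← mul_sum, ← mul_sum, khin2]
    simp only [sum_const, card_univ, Fintype.card_pi, Fintype.card_bool, prod_const,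
      Fintype.card_fin, nsmul_eq_mul]
    have h1 := ih fun i => a i.succ
    have h2 : (0 : ℝ) ≤ 2 ^ n * a 0 ^ 4 := by positivity
    push_cast
    rw [pow_succ (2 : ℝ) n]
    nlinarith

lemma khin1 {n : ℕ} (a : Fin n → ℝ) :
    2 ^ n * √(∑ i, a i ^ 2) ≤ 4 * ∑ ε : Fin n → Bool, |∑ i, sg (ε i) * a i| := by
  set σ := √(∑ i, a i ^ 2) with hσ
  have hσ0 : 0 ≤ σ := Real.sqrt_nonneg _
  have hσ2 : σ ^ 2 = ∑ i, a i ^ 2 := Real.sq_sqrt (sum_nonneg fun _ _ => sq_nonneg _)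
  rcases hσ0.eq_or_lt with h | h
  · rw [← h, mul_zero]; positivity
  have h1 : ∀ f : ℝ, 6 * σ ^ 2 * f ^ 2 - f ^ 4 ≤ 12 * σ ^ 3 * |f| := fun f => by
    have hs := abs_nonneg f
    rw [← sq_abs f, show f ^ 4 = |f| ^ 4 by rw [show 4 = 2 * 2 from rfl, pow_mul, pow_mul, sq_abs]]
    have q1 := mul_nonneg (mul_nonneg hs (add_nonneg hs (mul_nonneg (by norm_num : (0 : ℝ) ≤ 3) hσ0)))
      (sq_nonneg (|f| - 3 / 2 * σ))
    have q2 : 0 ≤ σ ^ 2 * |f| ^ 2 := by positivity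
    have q3 : 0 ≤ σ ^ 3 * |f| := by positivity
    nlinarith
  have h2 := sum_le_sum fun (ε : Fin n → Bool) (_ : ε ∈ univ) => h1 (∑ i, sg (ε i) * a i)
  rw [sum_sub_distrib, ← mul_sum, ← mul_sum, khin2, ← hσ2] at h2
  have h3 := khin4 a
  rw [← hσ2] at h3
  refine le_of_mul_le_mul_left ?_ (show 0 < 3 * σ ^ 3 by positivity)
  nlinarith

/-- The square function. -/
noncomputable def sqf {n : ℕ} (x : Fin n → ℕ →₀ ℝ) : ℕ →₀ ℝ :=
  Finsupp.onFinset (univ.biUnion fun j => (x j).support) (fun i => √(∑ j, x j i ^ 2)) fun i hi => by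
    by_contra h
    apply hi
    have : ∀ j, x j i = 0 := fun j => Finsupp.notMem_support_iff.1 fun h' =>
      h (mem_biUnion.2 ⟨j, mem_univ _, h'⟩)
    simp [this]

lemma abs_sqf {n : ℕ} (x : Fin n → ℕ →₀ ℝ) (i : ℕ) : |sqf x i| = √(∑ j, x j i ^ 2) :=
  abs_of_nonneg (Real.sqrt_nonneg _)

lemma abs_sqf_rpow {n : ℕ} (x : Fin n → ℕ →₀ ℝ) (i : ℕ) (p : ℝ) :
    |sqf x i| ^ p = (∑ j, x j i ^ 2) ^ (p / 2) := by
  rw [abs_sqf, Real.sqrt_eq_rpow, ← Real.rpow_mul (sum_nonneg fun _ _ => sq_nonneg _)]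
  congr 1; ring

lemma sq_rpow_half (a p : ℝ) : (a ^ 2) ^ (p / 2) = |a| ^ p := by
  rw [← sq_abs, ← Real.rpow_natCast, ← Real.rpow_mul (abs_nonneg a)]
  congr 1; push_cast; ring

lemma rad_apply {n : ℕ} (x : Fin n → ℕ →₀ ℝ) (ε : Fin n → Bool) (i : ℕ) :
    (∑ j, sg (ε j) • x j) i = ∑ j, sg (ε j) * x j i := by
  rw [Finsupp.finsetSum_apply]; rfl

lemma type_c00 {p : ℝ} (hp1 : 1 ≤ p) (hp2 : p < 2) : ∃ C : ℝ, ∀ (n : ℕ) (x : Fin n → ℕ →₀ ℝ),
    √((∑ ε : Fin n → Bool, XN (∑ i, sg (ε i) • x i) ^ 2) / 2 ^ n) ≤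
      C * (∑ i, XN (x i) ^ p) ^ (1 / p) := by
  have hp : 0 < p := by linarith
  obtain ⟨C4, hC4, H4⟩ := XN_qconcave (q := 4) (by norm_num)
  obtain ⟨Cp, hCp, Hp⟩ := XN_pconvex hp1 hp2
  refine ⟨(3 * C4 + 1) * Cp ^ (1 / p), fun n x => ?_⟩
  have hS : 0 ≤ ∑ i, XN (x i) ^ p := sum_nonneg fun _ _ => Real.rpow_nonneg (XN_nonneg _) _
  have h1 : XN (sqf x) ≤ Cp ^ (1 / p) * (∑ i, XN (x i) ^ p) ^ (1 / p) := by
    rw [← Real.mul_rpow hCp.le hS, one_div,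
      Real.le_rpow_inv_iff_of_pos (XN_nonneg _) (mul_nonneg hCp.le hS) hp]
    refine Hp univ x _ fun i => ?_
    rw [abs_sqf_rpow]
    simp_rw [← sq_rpow_half]
    exact rpow_sum_le_sum_rpow _ (fun _ _ => sq_nonneg _) (by positivity) (by linarith)
  set c : ℝ := (3 * 2 ^ n : ℝ) ^ (4 : ℝ)⁻¹ with hc
  have hc0 : 0 ≤ c := by positivity
  have hc4 : c ^ 4 = 3 * 2 ^ n := by
    rw [hc, ← Real.rpow_natCast]
    exact Real.rpow_inv_rpow (by positivity) (by norm_num)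
  have h2 := H4 univ (fun ε : Fin n → Bool => ∑ i, sg (ε i) • x i) (c • sqf x) fun i => by
    have e : ∀ a : ℝ, |a| ^ (4 : ℝ) = a ^ 4 := fun a => by
      rw [show (4 : ℝ) = (4 : ℕ) by norm_num, Real.rpow_natCast, show 4 = 2 * 2 from rfl, pow_mul,
        pow_mul, sq_abs]
    simp_rw [e, rad_apply]
    refine (khin4 _).trans (le_of_eq ?_)
    rw [Finsupp.smul_apply, smul_eq_mul, mul_pow, hc4, show 4 = 2 * 2 from rfl, pow_mul,
      ← sq_abs (sqf x i), abs_sqf, Real.sq_sqrt (sum_nonneg fun _ _ => sq_nonneg _)]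
    ring
  have h3 : XN (c • sqf x) ≤ c * XN (sqf x) :=
    XN_le_mul hc0 fun i => by rw [Finsupp.smul_apply, smul_eq_mul, abs_mul, abs_of_nonneg hc0]
  simp_rw [show (4 : ℝ) = (4 : ℕ) by norm_num, Real.rpow_natCast] at h2
  have h4 : XN (c • sqf x) ^ 4 ≤ 3 * 2 ^ n * XN (sqf x) ^ 4 := by
    rw [← hc4, ← mul_pow]; exact pow_le_pow_left₀ (XN_nonneg _) h3 4
  have h5 : (∑ ε : Fin n → Bool, XN (∑ i, sg (ε i) • x i) ^ 2) ^ 2 ≤
      2 ^ n * ∑ ε : Fin n → Bool, XN (∑ i, sg (ε i) • x i) ^ 4 := by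
    have := sq_sum_le_card_mul_sum_sq (s := (univ : Finset (Fin n → Bool)))
      (f := fun ε => XN (∑ i, sg (ε i) • x i) ^ 2)
    simpa [← pow_mul] using this
  have h6 : (∑ ε : Fin n → Bool, XN (∑ i, sg (ε i) • x i) ^ 2) / 2 ^ n ≤
      ((3 * C4 + 1) * XN (sqf x)) ^ 2 := by
    rw [div_le_iff₀ (by positivity)]
    refine (abs_le_of_sq_le_sq' ?_ (by positivity)).2
    refine h5.trans ?_
    have h7 : 3 * C4 ≤ (3 * C4 + 1) ^ 4 := by
      have : 3 * C4 + 1 ≤ (3 * C4 + 1) ^ 4 := le_self_pow₀ (by linarith) (by norm_num)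
      linarith
    calc _ ≤ 2 ^ n * (C4 * (3 * 2 ^ n * XN (sqf x) ^ 4)) := by
          refine mul_le_mul_of_nonneg_left (h2.trans ?_) (by positivity)
          exact mul_le_mul_of_nonneg_left h4 hC4.le
      _ = 3 * C4 * (XN (sqf x) ^ 4 * (2 ^ n) ^ 2) := by ring
      _ ≤ (3 * C4 + 1) ^ 4 * (XN (sqf x) ^ 4 * (2 ^ n) ^ 2) := by gcongr
      _ = _ := by ring
  rw [mul_assoc]
  refine (Real.sqrt_le_sqrt h6).trans ?_
  rw [Real.sqrt_sq (mul_nonneg (by positivity) (XN_nonneg _))]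
  exact mul_le_mul_of_nonneg_left h1 (by positivity)

lemma cotype_c00 {q : ℝ} (hq2 : 2 < q) : ∃ C : ℝ, ∀ (n : ℕ) (x : Fin n → ℕ →₀ ℝ),
    (∑ i, XN (x i) ^ q) ^ (1 / q) ≤
      C * √((∑ ε : Fin n → Bool, XN (∑ i, sg (ε i) • x i) ^ 2) / 2 ^ n) := by
  have hq : 0 < q := by linarith
  obtain ⟨Cq, hCq, Hq⟩ := XN_qconcave hq2
  refine ⟨Cq ^ (1 / q) * 4, fun n x => ?_⟩
  have hS : 0 ≤ ∑ i, XN (x i) ^ q := sum_nonneg fun _ _ => Real.rpow_nonneg (XN_nonneg _) _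
  have h1 : (∑ i, XN (x i) ^ q) ^ (1 / q) ≤ Cq ^ (1 / q) * XN (sqf x) := by
    have h2 := Hq univ x (sqf x) fun i => by
      rw [abs_sqf_rpow]
      simp_rw [← sq_rpow_half]
      exact sum_rpow_le_rpow_sum _ (fun _ _ => sq_nonneg _) (by linarith)
    refine (Real.rpow_le_rpow hS h2 (by positivity)).trans (le_of_eq ?_)
    rw [Real.mul_rpow hCq.le (Real.rpow_nonneg (XN_nonneg _) _), one_div,
      Real.rpow_rpow_inv (XN_nonneg _) hq.ne']
  have h3 : XN (sqf x) ≤ ∑ ε : Fin n → Bool, 4 / 2 ^ n * XN (∑ i, sg (ε i) • x i) :=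
    XN_comb univ (fun _ => 4 / 2 ^ n) (fun _ _ => by positivity) _ fun i => by
      simp_rw [rad_apply]
      rw [abs_sqf, ← mul_sum, div_mul_eq_mul_div, le_div_iff₀ (by positivity), mul_comm]
      exact khin1 _
  have h4 : (∑ ε : Fin n → Bool, XN (∑ i, sg (ε i) • x i)) / 2 ^ n ≤
      √((∑ ε : Fin n → Bool, XN (∑ i, sg (ε i) • x i) ^ 2) / 2 ^ n) := by
    refine Real.le_sqrt_of_sq_le ?_
    have := sq_sum_le_card_mul_sum_sq (s := (univ : Finset (Fin n → Bool)))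
      (f := fun ε => XN (∑ i, sg (ε i) • x i))
    simp only [card_univ, Fintype.card_pi, Fintype.card_bool, prod_const, Fintype.card_fin,
      Nat.cast_pow, Nat.cast_ofNat] at this
    rw [div_pow, div_le_div_iff₀ (by positivity) (by positivity)]
    have h5 : (0 : ℝ) < 2 ^ n := by positivity
    nlinarith
  rw [← mul_sum] at h3
  refine h1.trans ?_
  rw [mul_assoc]
  refine mul_le_mul_of_nonneg_left (h3.trans ?_) (by positivity)
  rw [div_mul_eq_mul_div, mul_div_assoc]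
  linarith

end Pool.Agent.MP_650c5e_an

end

section

/-! Near Hilbert Musielak-Orlicz spaces. -/

namespace Pool.Agent.MP_650c5e_an.K

open Finset Filter Topology

set_option maxHeartbeats 800000

variable {𝕜 : Type} [RCLike 𝕜] {G : ℕ → ℝ → ℝ}
  {Y : Type} [NormedAddCommGroup Y] [NormedSpace 𝕜 Y] {j : (ℕ →₀ 𝕜) →ₗ[𝕜] Y}

lemma par_of_equiv {H : Type} [NormedAddCommGroup H] [InnerProductSpace 𝕜 H] (T : Y ≃L[𝕜] H)
    {K : ℝ} (hK : ‖(T : Y →L[𝕜] H)‖ * ‖(T.symm : H →L[𝕜] Y)‖ ≤ K) {m : ℕ} (x : Fin m → Y) :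
    2 ^ m * ∑ i, ‖x i‖ ^ 2 ≤
      K ^ 2 * ∑ ε : Fin m → Bool, ‖∑ i, if ε i then x i else -x i‖ ^ 2 ∧
    ∑ ε : Fin m → Bool, ‖∑ i, if ε i then x i else -x i‖ ^ 2 ≤
      K ^ 2 * (2 ^ m * ∑ i, ‖x i‖ ^ 2) := by
  set a := ‖(T : Y →L[𝕜] H)‖ with ha
  set b := ‖(T.symm : H →L[𝕜] Y)‖ with hb
  have ha0 : 0 ≤ a := norm_nonneg _
  have hb0 : 0 ≤ b := norm_nonneg _
  have h1 : ∀ w, ‖T w‖ ^ 2 ≤ a ^ 2 * ‖w‖ ^ 2 := fun w => by
    rw [← mul_pow]
    exact pow_le_pow_left₀ (norm_nonneg _) ((T : Y →L[𝕜] H).le_opNorm w) 2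
  have h2 : ∀ w, ‖w‖ ^ 2 ≤ b ^ 2 * ‖T w‖ ^ 2 := fun w => by
    rw [← mul_pow]
    refine pow_le_pow_left₀ (norm_nonneg _) ?_ 2
    simpa using (T.symm : H →L[𝕜] Y).le_opNorm (T w)
  have h3 : ∑ ε : Fin m → Bool, ‖T (∑ i, if ε i then x i else -x i)‖ ^ 2 =
      2 ^ m * ∑ i, ‖T (x i)‖ ^ 2 := by
    letI := InnerProductSpace.rclikeToReal 𝕜 H
    rw [← parallelogram fun i => T (x i)]
    refine sum_congr rfl fun ε _ => ?_
    rw [map_sum]
    congr 2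
    exact sum_congr rfl fun i _ => by cases ε i <;> simp [sg]
  have hK2 : b ^ 2 * a ^ 2 ≤ K ^ 2 := by
    rw [← mul_pow, mul_comm]; exact pow_le_pow_left₀ (mul_nonneg ha0 hb0) hK 2
  constructor
  · calc 2 ^ m * ∑ i, ‖x i‖ ^ 2 ≤ 2 ^ m * ∑ i, b ^ 2 * ‖T (x i)‖ ^ 2 := by
          gcongr with i; exact h2 _
      _ = b ^ 2 * ∑ ε : Fin m → Bool, ‖T (∑ i, if ε i then x i else -x i)‖ ^ 2 := by
          rw [h3, ← mul_sum]; ring
      _ ≤ b ^ 2 * ∑ ε : Fin m → Bool, a ^ 2 * ‖∑ i, if ε i then x i else -x i‖ ^ 2 := by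
          gcongr with ε; exact h1 _
      _ ≤ _ := by
          rw [← mul_sum, ← mul_assoc]
          exact mul_le_mul_of_nonneg_right hK2 (by positivity)
  · calc _ ≤ ∑ ε : Fin m → Bool, b ^ 2 * ‖T (∑ i, if ε i then x i else -x i)‖ ^ 2 :=
          sum_le_sum fun ε _ => h2 _
      _ = b ^ 2 * (2 ^ m * ∑ i, ‖T (x i)‖ ^ 2) := by rw [← mul_sum, h3]
      _ ≤ b ^ 2 * (2 ^ m * ∑ i, a ^ 2 * ‖x i‖ ^ 2) := by
          gcongr with i; exact h1 _
      _ = b ^ 2 * a ^ 2 * (2 ^ m * ∑ i, ‖x i‖ ^ 2) := by rw [← mul_sum]; ring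
      _ ≤ _ := mul_le_mul_of_nonneg_right hK2 (by positivity)

lemma Prof.approx {f : ℕ → ℝ} (hf : Prof 𝕜 G f) (h0 : ∀ l, 0 < f l) (J K : ℕ) :
    ∃ a : ℕ →₀ 𝕜, (∀ n, a n ≠ 0 → K ≤ n) ∧
      ∀ l ≤ J, f l ≤ 2 * md G a ((1 / 2) ^ l) ∧ md G a ((1 / 2) ^ l) ≤ 2 * f l := by
  obtain ⟨i, -, hi⟩ := exists_min_image (range (J + 1)) f nonempty_range_add_one
  obtain ⟨a, ha, ha'⟩ := hf (f i / 2) (half_pos (h0 i)) J K
  refine ⟨a, ha, fun l hl => ?_⟩
  have h1 := abs_le.1 (ha' l hl)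
  have h2 := hi l (mem_range.2 (Nat.lt_succ_of_le hl))
  have h3 := h0 l
  constructor <;> linarith

lemma hyp_of_ratio (hG : ∀ k, Orl (G k)) {st : ℕ → ℕ} (hst : ∀ U, ∃ k₀, ∀ k, k₀ ≤ k → U ≤ st k)
    {g : ℕ → ℕ → ℝ} (h0 : ∀ k, 2 ≤ g k 0 ∧ g k 0 ≤ 4)
    (h1 : ∀ k v, ∀ l ≤ st k + 1, 4 ^ l * g k (v + l) ≤ 6 * g k v ∧
      g k v ≤ 6 * (4 ^ l * g k (v + l)))
    (h2 : ∀ k, ∀ l ≤ k + st k, g k l ≤ 2 * G k ((1 / 2) ^ l) ∧ G k ((1 / 2) ^ l) ≤ 2 * g k l) :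
    Hyp 𝕜 G := by
  refine ⟨577, by norm_num, fun U η hη => ?_⟩
  obtain ⟨k₀, hk₀⟩ := hst U
  obtain ⟨k₁, hk₁⟩ := exists_pow_lt_of_lt_one (show 0 < η / (32 * 4 ^ U) by positivity)
    (show (1 : ℝ) / 2 < 1 by norm_num)
  refine ⟨max k₀ k₁, fun a ha hη1 ha1 u hu => ?_⟩
  have h4U : (4 : ℝ) ^ u ≤ 4 ^ U := pow_le_pow_right₀ (by norm_num) hu
  have hU1 : (1 : ℝ) ≤ 4 ^ U := one_le_pow₀ (by norm_num)
  have hterm : ∀ k ∈ a.support,
      G k (1 * ‖a k‖) ≤ 96 * (4 ^ u * G k ((1 / 2) ^ u * ‖a k‖)) + 8 * (1 / 2) ^ k ∧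
      4 ^ u * G k ((1 / 2) ^ u * ‖a k‖) ≤ 576 * G k (1 * ‖a k‖) + 4 ^ U * (8 * (1 / 2) ^ k) := by
    intro k hk
    have hk0 := Finsupp.mem_support_iff.1 hk
    have hs0 : 0 < ‖a k‖ := norm_pos_iff.2 hk0
    have hU := hk₀ k ((le_max_left _ _).trans (ha k hk0))
    have ho := hG k
    have e0 := h2 k 0 (Nat.zero_le _)
    rw [pow_zero] at e0
    have e1 : G k (1 * ‖a k‖) ≤ 1 := (single_le_sum (f := fun k => G k (1 * ‖a k‖))
      (fun i _ => (hG i).nonneg _ (by positivity)) hk).trans ha1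
    rw [one_mul] at e1 ⊢
    set s := ‖a k‖
    have hs1 : s ≤ 1 := by
      by_contra h
      push Not at h
      have h3 := ho.mul_le (inv_pos.2 hs0).le (inv_le_one_of_one_le₀ h.le) hs0.le
      rw [inv_mul_cancel₀ hs0.ne'] at h3
      have h4 : s⁻¹ < 1 := inv_lt_one_of_one_lt₀ h
      nlinarith [(h0 k).1, inv_pos.2 hs0]
    have p1 : 0 ≤ G k s := ho.nonneg _ hs0.le
    have p2 : 0 ≤ G k ((1 / 2) ^ u * s) := ho.nonneg _ (by positivity)
    have p3 : (0 : ℝ) < 4 ^ u := by positivity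
    have p4 : (0 : ℝ) < (1 / 2) ^ k := by positivity
    obtain ⟨v, hv1, hv2⟩ := exists_nat_pow_near_of_lt_one hs0 hs1
      (show (0 : ℝ) < 1 / 2 by norm_num) (by norm_num)
    rcases le_or_gt k v with hkv | hkv
    · have h3 : G k s ≤ 8 * (1 / 2) ^ k := by
        have h4 := ho.mul_le p4.le (pow_le_one₀ (by norm_num) (by norm_num)) zero_le_one
        rw [mul_one] at h4
        have h5 := ho.mono hs0.le (hv2.trans
          (pow_le_pow_of_le_one (by norm_num) (by norm_num) hkv))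
        nlinarith [(h0 k).2]
      have h4 : G k ((1 / 2) ^ u * s) ≤ G k s := ho.mono (by positivity)
        (mul_le_of_le_one_left hs0.le (pow_le_one₀ (by norm_num) (by norm_num)))
      constructor
      · nlinarith [mul_nonneg p3.le p2]
      · nlinarith [mul_le_mul h4U (h4.trans h3) p2 (by positivity)]
    · have a1 := ho.mono hs0.le hv2
      have a2 := (h2 k v (by omega)).2
      have a3 := (h1 k v (u + 1) (by omega)).2
      have a4 := (h2 k (v + (u + 1)) (by omega)).1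
      have a5 : G k ((1 / 2) ^ (v + (u + 1))) ≤ G k ((1 / 2) ^ u * s) := ho.mono (by positivity) (by
        rw [show v + (u + 1) = u + (v + 1) by ring, pow_add]
        exact mul_le_mul_of_nonneg_left hv1.le (by positivity))
      have b1 : G k ((1 / 2) ^ u * s) ≤ G k ((1 / 2) ^ (v + u)) := ho.mono (by positivity) (by
        rw [add_comm v u, pow_add]
        exact mul_le_mul_of_nonneg_left hv2 (by positivity))
      have b2 := (h2 k (v + u) (by omega)).2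
      have b3 := (h1 k v u (by omega)).1
      have b4 := (h1 k v 1 (by omega)).2
      have b5 := (h2 k (v + 1) (by omega)).1
      have b6 := ho.mono (by positivity) hv1.le
      rw [pow_succ] at a3
      constructor
      · nlinarith [mul_le_mul_of_nonneg_left (a4.trans
          (mul_le_mul_of_nonneg_left a5 zero_le_two)) p3.le]
      · nlinarith [mul_le_mul_of_nonneg_left (b1.trans b2) p3.le, mul_pos (zero_lt_one.trans_le hU1) p4]
  have hgeo : ∑ k ∈ a.support, ((1 : ℝ) / 2) ^ k ≤ 2 * (1 / 2) ^ k₁ := by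
    obtain ⟨N, hN⟩ := exists_bound a
    refine (sum_le_sum_of_subset_of_nonneg (t := Ico k₁ N) (fun k hk => ?_)
      fun _ _ _ => by positivity).trans
      ((geom_sum_Ico_le_of_lt_one (by norm_num) (by norm_num)).trans (le_of_eq (by ring)))
    have hk0 := Finsupp.mem_support_iff.1 hk
    exact mem_Ico.2 ⟨(le_max_right _ _).trans (ha k hk0), hN k hk0⟩
  have s1 := sum_le_sum fun k hk => (hterm k hk).1
  have s2 := sum_le_sum fun k hk => (hterm k hk).2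
  simp only [sum_add_distrib, ← mul_sum] at s1 s2
  rw [lt_div_iff₀ (by positivity)] at hk₁
  have s3 : 4 ^ U * (8 * ∑ k ∈ a.support, ((1 : ℝ) / 2) ^ k) ≤ η / 2 := by nlinarith
  have s4 : 8 * ∑ k ∈ a.support, ((1 : ℝ) / 2) ^ k ≤
      4 ^ U * (8 * ∑ k ∈ a.support, ((1 : ℝ) / 2) ^ k) :=
    le_mul_of_one_le_left (by positivity) hU1
  have s5 : 0 ≤ 4 ^ u * md G a ((1 / 2) ^ u) := by
    have := (orl_md hG a).nonneg ((1 / 2) ^ u) (by positivity); positivity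
  unfold md at hη1 s5 ⊢
  constructor <;> linarith

lemma not_hilbertian_of_dev (h : Rep G j)
    (H : ∀ n : ℕ, ∃ (u : ℕ) (φ : Fin ((n + 1) * 4 ^ u) → ℕ), Function.Injective φ ∧
      (∀ i, 1 ≤ G (φ i) 1 ∧ G (φ i) 1 ≤ 8) ∧
      ((∀ i, 8 * (n + 1) ≤ 4 ^ u * G (φ i) ((1 / 2) ^ u)) ∨
        ∀ i, (n + 1) * (4 ^ u * G (φ i) ((1 / 2) ^ u)) ≤ 1)) : ¬ Hilbertian 𝕜 Y := by
  rintro ⟨E, _, _, _, ⟨T⟩⟩
  set D := ‖(T : Y →L[𝕜] E)‖ * ‖(T.symm : E →L[𝕜] Y)‖ with hD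
  obtain ⟨n, hn⟩ := exists_nat_gt (16 * D ^ 2 + 8)
  obtain ⟨u, φ, hφ, h1, h2⟩ := H n
  have hmd : ∀ k t, md G (Finsupp.single k (1 : 𝕜)) t = G k t := fun k t => by
    rw [md, Finsupp.support_single_ne_zero _ one_ne_zero]; simp
  have hDj : Dj fun k : ℕ => Finsupp.single k (1 : 𝕜) := fun i i' m h h' =>
    (Finsupp.single_apply_ne_zero.1 h).1.symm.trans (Finsupp.single_apply_ne_zero.1 h').1
  have hnorm : ∀ i, 1 ≤ ‖j (Finsupp.single (φ i) 1)‖ ∧ ‖j (Finsupp.single (φ i) 1)‖ ≤ 8 := by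
    intro i
    constructor
    · by_contra h3
      push Not at h3
      obtain ⟨r, hr1, hr2⟩ := exists_between h3
      have hr0 : 0 < r := (norm_nonneg _).trans_lt hr1
      have h4 := (h.le_iff (Finsupp.single (φ i) 1) r⁻¹ (inv_pos.2 hr0)).2 (by
        rw [inv_mul_le_iff₀ hr0]; linarith)
      have h5 := (h.orl (φ i)).mul_le hr0.le hr2.le (inv_pos.2 hr0).le
      rw [hmd] at h4
      rw [mul_inv_cancel₀ hr0.ne'] at h5
      nlinarith [(h1 i).1]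
    · have h4 := (h.orl (φ i)).mul_le (s := 1 / 8) (by norm_num) (by norm_num) zero_le_one
      rw [mul_one] at h4
      have h5 := (h.le_iff (Finsupp.single (φ i) 1) (1 / 8) (by norm_num)).1 (by
        rw [hmd]; linarith [(h1 i).2])
      linarith
  have hpar : ∀ (m : ℕ) (ψ : Fin m → Fin ((n + 1) * 4 ^ u)), Function.Injective ψ →
      m ≤ D ^ 2 * ‖j (∑ i, Finsupp.single (φ (ψ i)) 1)‖ ^ 2 ∧
      ‖j (∑ i, Finsupp.single (φ (ψ i)) 1)‖ ^ 2 ≤ D ^ 2 * (64 * m) := by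
    intro m ψ hψ
    obtain ⟨p1, p2⟩ := par_of_equiv T le_rfl fun i => j (Finsupp.single (φ (ψ i)) 1)
    have hd : Dj fun i => Finsupp.single (φ (ψ i)) (1 : 𝕜) := hDj.comp (hφ.comp hψ)
    simp only [h.norm_signs hd univ, sum_const, card_univ, Fintype.card_pi, Fintype.card_bool, prod_const,
      Fintype.card_fin, nsmul_eq_mul, Nat.cast_pow, Nat.cast_ofNat] at p1 p2
    have q1 : (m : ℝ) ≤ ∑ i, ‖j (Finsupp.single (φ (ψ i)) 1)‖ ^ 2 := by
      simpa using card_nsmul_le_sum univ (fun i => ‖j (Finsupp.single (φ (ψ i)) 1)‖ ^ 2) 1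
        fun i _ => one_le_pow₀ (hnorm _).1
    have q2 : ∑ i, ‖j (Finsupp.single (φ (ψ i)) 1)‖ ^ 2 ≤ m * 64 := by
      simpa using sum_le_card_nsmul univ (fun i => ‖j (Finsupp.single (φ (ψ i)) 1)‖ ^ 2) 64
        fun i _ => by nlinarith [hnorm (ψ i)]
    have h2m : (0 : ℝ) < 2 ^ m := by positivity
    rw [← hD] at p1 p2
    constructor
    · refine le_of_mul_le_mul_left ?_ h2m
      nlinarith [mul_le_mul_of_nonneg_left q1 h2m.le]
    · refine le_of_mul_le_mul_left ?_ h2m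
      nlinarith [mul_le_mul_of_nonneg_left q2 (mul_nonneg (sq_nonneg D) h2m.le)]
  have hle : ∀ (m : ℕ) (ψ : Fin m → Fin ((n + 1) * 4 ^ u)), Function.Injective ψ →
      (∑ i, G (φ (ψ i)) ((1 / 2) ^ u) ≤ 1 ↔ ‖j (∑ i, Finsupp.single (φ (ψ i)) 1)‖ ≤ 2 ^ u) := by
    intro m ψ hψ
    have hd : Dj fun i => Finsupp.single (φ (ψ i)) (1 : 𝕜) := hDj.comp (hφ.comp hψ)
    have := h.le_iff (∑ i, Finsupp.single (φ (ψ i)) 1) ((1 / 2) ^ u) (by positivity)
    rw [md_sum h.orl hd] at this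
    simp only [hmd] at this
    rw [this, one_div, inv_pow, inv_mul_le_iff₀ (by positivity), mul_one]
  have h4u : (0 : ℝ) < 4 ^ u := by positivity
  have h24 : ((2 : ℝ) ^ u) ^ 2 = 4 ^ u := by rw [← pow_mul, mul_comm, pow_mul]; norm_num
  have hn1 : (0 : ℝ) < n + 1 := by positivity
  have hD2 := sq_nonneg D
  rcases h2 with h2 | h2
  · set m := 4 ^ u / (8 * (n + 1)) + 1 with hm
    have hm1 : m ≤ (n + 1) * 4 ^ u := by
      have h3 : 4 ^ u / (8 * (n + 1)) < 4 ^ u := Nat.div_lt_self (by positivity) (by omega)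
      exact h3.trans_le (Nat.le_mul_of_pos_left _ (Nat.succ_pos n))
    have hm2 : (4 : ℝ) ^ u < 8 * (n + 1) * m := by
      exact_mod_cast Nat.lt_mul_div_succ (4 ^ u) (show 0 < 8 * (n + 1) by omega)
    have hm3 : 8 * (n + 1) * (m : ℝ) ≤ 4 ^ u + 8 * (n + 1) := by
      have : 8 * (n + 1) * m ≤ 4 ^ u + 8 * (n + 1) := by
        rw [hm, mul_add, mul_one]; exact Nat.add_le_add_right (Nat.mul_div_le _ _) _
      exact_mod_cast this
    have i0 : Fin ((n + 1) * 4 ^ u) := ⟨0, by positivity⟩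
    have hu : (n + 1 : ℝ) ≤ 2 ^ u := by
      have h3 := (h.orl (φ i0)).mul_le (s := (1 / 2) ^ u) (by positivity)
        (pow_le_one₀ (by norm_num) (by norm_num)) zero_le_one
      rw [mul_one] at h3
      have h4 : (4 : ℝ) ^ u * (1 / 2) ^ u = 2 ^ u := by rw [← mul_pow]; norm_num
      have h5 := mul_le_mul_of_nonneg_left h3 h4u.le
      rw [← mul_assoc, h4] at h5
      nlinarith [h2 i0, (h1 i0).2, pow_pos (two_pos (α := ℝ)) u]
    have h3 := (hpar m (Fin.castLE hm1) (Fin.castLE_injective _)).2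
    have h4 : 2 ^ u < ‖j (∑ i, Finsupp.single (φ (Fin.castLE hm1 i)) 1)‖ := by
      rw [← not_le, ← hle m _ (Fin.castLE_injective _), not_le]
      have h5 := card_nsmul_le_sum univ
        (fun i : Fin m => 4 ^ u * G (φ (Fin.castLE hm1 i)) ((1 / 2) ^ u)) _ fun i _ => h2 _
      simp only [card_univ, Fintype.card_fin, nsmul_eq_mul, ← mul_sum] at h5
      refine lt_of_mul_lt_mul_left ?_ h4u.le
      linarith
    have h5 := pow_lt_pow_left₀ h4 (by positivity) two_ne_zero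
    rw [h24] at h5
    have h6 : (n + 1 : ℝ) ^ 2 ≤ 4 ^ u := h24 ▸ pow_le_pow_left₀ hn1.le hu 2
    have h7 : (n + 1) * 4 ^ u ≤ 8 * D ^ 2 * (4 ^ u + 8 * (n + 1)) := by
      nlinarith [mul_le_mul_of_nonneg_left hm3 hD2]
    have h8 : 8 * (n + 1 : ℝ) ≤ 4 ^ u := by nlinarith
    nlinarith [mul_le_mul_of_nonneg_left h8 hD2]
  · have h3 := (hpar _ id Function.injective_id).1
    have h4 := (hle _ id Function.injective_id).1 (by
      have h5 := sum_le_card_nsmul univ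
        (fun i => (n + 1) * (4 ^ u * G (φ i) ((1 / 2) ^ u))) _ fun i _ => h2 i
      simp only [card_univ, Fintype.card_fin, nsmul_eq_mul, ← mul_sum] at h5
      push_cast at h5
      refine le_of_mul_le_mul_left ?_ (mul_pos hn1 h4u)
      simpa [mul_assoc] using h5)
    have h5 := pow_le_pow_left₀ (norm_nonneg _) h4 2
    rw [h24] at h5
    push_cast at h3
    nlinarith [mul_le_mul_of_nonneg_left h5 hD2]

theorem exists_subspace (h : Rep G j) (hd : DenseRange j) (hY : NearHilbert Y)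
    (hH : ¬ Hilbertian 𝕜 Y) : ∃ Z : Submodule 𝕜 Y, IsClosed (Z : Set Y) ∧
      AsympHilbertian 𝕜 Z ∧ ¬ Hilbertian 𝕜 Z := by
  suffices hs : ∃ y : ℕ → ℕ →₀ 𝕜, Dj y ∧ Hyp 𝕜 (fun k => md G (y k)) ∧
      ∀ Z : Submodule 𝕜 Y, ∀ j' : (ℕ →₀ 𝕜) →ₗ[𝕜] Z,
        (∀ a, (j' a : Y) = j (Finsupp.linearCombination 𝕜 y a)) → DenseRange j' →
        IsClosed (Z : Set Y) → Rep (fun k => md G (y k)) j' → ¬ Hilbertian 𝕜 Z by
    obtain ⟨y, hy, hyp, hn⟩ := hs
    set j₁ := j ∘ₗ Finsupp.linearCombination 𝕜 y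
    set Z := (LinearMap.range j₁).topologicalClosure
    set j' : (ℕ →₀ 𝕜) →ₗ[𝕜] Z := j₁.codRestrict Z fun a =>
      Submodule.le_topologicalClosure _ (LinearMap.mem_range_self _ a)
    have hrep : Rep (fun k => md G (y k)) j' := ⟨fun k => orl_md h.orl _, fun a t ht => by
      rw [← md_blocks h.orl hy]; exact h.le_iff _ t ht⟩
    have hdense : DenseRange j' := by
      rw [Metric.denseRange_iff]
      intro z ε hε
      obtain ⟨_, ⟨a, rfl⟩, ha⟩ := Metric.mem_closure_iff.1 z.2 ε hε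
      exact ⟨a, ha⟩
    have hcl := Submodule.isClosed_topologicalClosure (LinearMap.range j₁)
    exact ⟨Z, hcl, asymp_of_hyp hrep hdense hyp, hn Z j' (fun _ => rfl) hdense hcl hrep⟩
  by_cases H : Hyp 𝕜 G
  · have hmd : (fun k => md G (Finsupp.single k (1 : 𝕜))) = G := by
      funext k t
      rw [md, Finsupp.support_single_ne_zero _ one_ne_zero]; simp
    refine ⟨fun k => Finsupp.single k 1, fun i i' m h h' =>
      (Finsupp.single_apply_ne_zero.1 h).1.symm.trans (Finsupp.single_apply_ne_zero.1 h').1,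
      hmd.symm ▸ H, fun Z j' hj' _ hcl _ => ?_⟩
    have hZ : Z = ⊤ := eq_top_iff.2 fun y _ => hd.induction_on y hcl fun a => by
      have h1 : Finsupp.linearCombination 𝕜 (fun k : ℕ => Finsupp.single k (1 : 𝕜)) a = a := by
        simp [Finsupp.linearCombination_apply]
      have h2 := (j' a).2
      rwa [hj', h1] at h2
    subst hZ
    rintro ⟨E, i1, i2, i3, ⟨T⟩⟩
    exact hH ⟨E, i1, i2, i3,
      ⟨(LinearIsometryEquiv.ofTop Y ⊤ rfl).symm.toContinuousLinearEquiv.trans T⟩⟩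
  have hg : ∀ n : ℕ, ∃ (g : ℕ → ℝ) (u : ℕ), Prof 𝕜 G g ∧ 2 ≤ g 0 ∧ g 0 ≤ 4 ∧ (∀ v, 0 < g v) ∧
      (∀ v, ∀ l ≤ n + 1, 4 ^ l * g (v + l) ≤ 6 * g v ∧ g v ≤ 6 * (4 ^ l * g (v + l))) ∧
      (16 * (n + 1) ≤ 4 ^ u * g u ∨ 2 * (n + 1) * (4 ^ u * g u) ≤ 1) := fun n => by
    obtain ⟨K, hK, hs⟩ := smooth h hY n
    obtain ⟨f, u, h1, h2, h3, h4⟩ := deviate h.orl H hK
    obtain ⟨g, hg⟩ := hs f u h1 h2 h3 h4
    exact ⟨g, u, hg⟩
  choose g u g1 g2 g3 g4 g5 g6 using hg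
  set m : ℕ → ℕ := fun n => (n + 1) * 4 ^ u n with hm
  set st : ℕ → ℕ := fun k => if k.unpair.2 < m k.unpair.1 then k.unpair.1 else k with hst
  obtain ⟨y, hy, hy'⟩ := realize (fun k a => ∀ l ≤ k + st k + u (st k),
    g (st k) l ≤ 2 * md G a ((1 / 2) ^ l) ∧ md G a ((1 / 2) ^ l) ≤ 2 * g (st k) l)
    fun k K => (g1 (st k)).approx (g4 _) _ K
  refine ⟨y, hy, hyp_of_ratio (st := st) (g := fun k => g (st k)) (fun k => orl_md h.orl _)
    (fun U => ?_) (fun k => ⟨g2 _, g3 _⟩) (fun k => g5 _)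
    fun k l hl => hy' k l (hl.trans (Nat.le_add_right _ _)), fun Z j' _ _ _ hrep => ?_⟩
  · refine ⟨(U + ∑ n ∈ range U, m n + 1) ^ 2, fun k hk => ?_⟩
    simp only [hst]
    split_ifs with h1
    · by_contra h2
      push Not at h2
      have h3 := Nat.pair_lt_max_add_one_sq k.unpair.1 k.unpair.2
      rw [Nat.pair_unpair] at h3
      have h4 : m k.unpair.1 ≤ ∑ n ∈ range U, m n :=
        single_le_sum (f := m) (fun _ _ => Nat.zero_le _) (mem_range.2 h2)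
      have h5 : (max k.unpair.1 k.unpair.2 + 1) ^ 2 ≤ (U + ∑ n ∈ range U, m n + 1) ^ 2 :=
        Nat.pow_le_pow_left (by omega) 2
      omega
    · nlinarith [Nat.zero_le (∑ n ∈ range U, m n)]
  · refine not_hilbertian_of_dev hrep fun n => ⟨u n, fun i => Nat.pair n i,
      fun i i' hi => Fin.ext (Nat.pair_eq_pair.1 hi).2, ?_⟩
    have hs : ∀ i : Fin ((n + 1) * 4 ^ u n), st (Nat.pair n i) = n := fun i => by
      simp [hst, hm]
    have h1 := fun i : Fin ((n + 1) * 4 ^ u n) => hy' (Nat.pair n i)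
    simp only [hs] at h1
    have h4u : (0 : ℝ) < 4 ^ u n := by positivity
    refine ⟨fun i => ?_, (g6 n).imp (fun h2 i => ?_) fun h2 i => ?_⟩
    · have h2 := h1 i 0 (Nat.zero_le _)
      rw [pow_zero] at h2
      constructor <;> linarith [g2 n, g3 n]
    · nlinarith [mul_le_mul_of_nonneg_left (h1 i (u n) (Nat.le_add_left _ _)).1 h4u.le]
    · have h3 := mul_le_mul_of_nonneg_left (h1 i (u n) (Nat.le_add_left _ _)).2 h4u.le
      nlinarith [mul_le_mul_of_nonneg_left h3 (show (0 : ℝ) ≤ n + 1 by positivity)]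

theorem mo_main (hX : IsMusielakOrlicz 𝕜 Y) (hY : NearHilbert Y) (hH : ¬ Hilbertian 𝕜 Y) :
    ∃ Z : Submodule 𝕜 Y, IsClosed (Z : Set Y) ∧ AsympHilbertian 𝕜 Z ∧ ¬ Hilbertian 𝕜 Z := by
  obtain ⟨M, e, hM, hd, hn⟩ := hX
  refine exists_subspace (rep_of_moNorm hM hn) ?_ hY hH
  rw [← Finsupp.range_linearCombination] at hd
  exact Submodule.dense_iff_topologicalClosure_eq_top.2 hd

end Pool.Agent.MP_650c5e_an.K

end
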